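import Pool.Agent.Lib.SmL.Ch.Main
import Pool.Agent.Lib.SmL.K.Anat
import Pool.Agent.Lib.SmL.K.Lower
import Pool.Agent.Lib.SmL.Cnt.Stmts

/-!
# SMITH-L, final layer: from the twists by `chi0 + ∑ c P * ch P` to all characters

`rdeg c` is the degree of the ramification of the character `c`. `all_of_fam`: if, for each of the
finitely many characters `c0` unramified outside `T`, the share of the bad characters among the
`c0 + ∑ c P * ch P` of degree `n` is at most `ε` for all large `n`, then the share of the bad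
characters among all characters of ramification degree at most `n` is at most `K ε` for all large `n`;
the constant `K` does not depend on the property.
-/

set_option autoImplicit false

open Finset

namespace Pool.Agent.SmL.Fnl

open Ch

variable {l : ℕ} {A G V V1 Pl : Type} [CommRing A] [Group G] [AddCommGroup V] [Module A V]
  [DistribMulAction G V] [AddCommGroup V1] [Module (ZMod l) V1]

/-- The degree of the ramification of a character. -/
noncomputable def rdeg (S : Sys l A G V V1 Pl) (deg : Pl → ℕ) (c : G → ZMod l) : ℕ :=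
  ∑ᶠ v, if c (S.sg v) = 0 then 0 else deg v

/-- The places outside `T`. -/
abbrev Out (T : Set Pl) : Type := {v : Pl // v ∉ T}

/-- The degree of a finite set of places outside `T`. -/
def dS {T : Set Pl} (deg : Pl → ℕ) (D : Finset (Out T)) : ℕ := ∑ P ∈ D, deg P.1

variable {S : Sys l A G V V1 Pl} {T : Set Pl} {deg : Pl → ℕ}

theorem homG_one {c : G → ZMod l} (hc : S.HomG c) : c 1 = 0 := by
  have h := hc.2 1 1
  rw [mul_one] at h
  exact left_eq_add.1 h

theorem ram_finite (hS : S.Ok) {c : G → ZMod l} (hc : S.HomG c) : {v | c (S.sg v) ≠ 0}.Finite := by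
  obtain ⟨N, hN, h⟩ := hc.1
  refine (hS.unr N hN).subset fun v hv hm => hv ?_
  have h1 := h 1 _ hm
  rw [one_mul] at h1
  rw [h1, homG_one hc]

theorem rdeg_eq (hS : S.Ok) {c : G → ZMod l} (hc : S.HomG c) :
    rdeg S deg c = ∑ v ∈ (ram_finite hS hc).toFinset, deg v := by
  rw [rdeg, finsum_eq_sum_of_support_subset (s := (ram_finite hS hc).toFinset)]
  · refine sum_congr rfl fun v hv => ?_
    rw [Set.Finite.mem_toFinset] at hv
    rw [if_neg hv]
  · intro v hv
    rw [Function.mem_support] at hv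
    rw [Set.Finite.coe_toFinset]
    intro h0
    exact hv (if_pos h0)

/-- The characters `ch`, one for each place outside `T`. -/
structure ChFam (S : Sys l A G V V1 Pl) (T : Set Pl) (ch : Out T → G → ZMod l) : Prop where
  hom : ∀ P, S.HomG (ch P)
  self : ∀ P, ch P (S.sg P.1) = 1
  unr : ∀ P Q : Out T, Q ≠ P → ch P (S.sg Q.1) = 0

variable {ch : Out T → G → ZMod l}

/-- The combination of the characters with the exponents `d`. -/
def chS (ch : Out T → G → ZMod l) (d : Out T →₀ ZMod l) (s : G) : ZMod l :=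
  ∑ P ∈ d.support, d P * ch P s

theorem homG_sum (hS : S.Ok) {ι : Type} (D : Finset ι) (f : ι → G → ZMod l)
    (hf : ∀ i ∈ D, S.HomG (f i)) : S.HomG (fun s => ∑ i ∈ D, f i s) := by
  classical
  induction D using Finset.induction_on with
  | empty =>
    simp only [sum_empty]
    exact homG_zero hS
  | insert a D ha ih =>
    simp only [sum_insert ha]
    exact homG_add hS (hf a (mem_insert_self a D)) (ih fun i hi => hf i (mem_insert_of_mem hi))

theorem homG_chS (hS : S.Ok) (hch : ChFam S T ch) (d : Out T →₀ ZMod l) :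
    S.HomG (chS ch d) :=
  homG_sum hS d.support (fun P s => d P * ch P s) fun P _ => homG_smul (d P) (hch.hom P)

theorem chS_sg (hch : ChFam S T ch) (d : Out T →₀ ZMod l) (Q : Out T) :
    chS ch d (S.sg Q.1) = d Q := by
  classical
  rw [chS]
  by_cases hQ : Q ∈ d.support
  · rw [sum_eq_single_of_mem Q hQ fun P _ hP => by rw [hch.unr P Q (Ne.symm hP), mul_zero],
      hch.self, mul_one]
  · rw [Finsupp.notMem_support_iff.1 hQ]
    exact sum_eq_zero fun P hP => by
      rw [hch.unr P Q fun h => hQ (h ▸ hP), mul_zero]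

/-- The ramification exponents outside `T`. -/
noncomputable def rexp (hS : S.Ok) (T : Set Pl) (c : {c : G → ZMod l // S.HomG c}) :
    Out T →₀ ZMod l :=
  Finsupp.ofSupportFinite (fun P : Out T => c.1 (S.sg P.1))
    ((ram_finite hS c.2).preimage (f := (Subtype.val : Out T → Pl)) Subtype.val_injective.injOn)

theorem rexp_apply (hS : S.Ok) (c : {c : G → ZMod l // S.HomG c}) (P : Out T) :
    rexp hS T c P = c.1 (S.sg P.1) := rfl

theorem rexp_chS (hS : S.Ok) (hch : ChFam S T ch) (d : Out T →₀ ZMod l) :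
    rexp hS T ⟨chS ch d, homG_chS hS hch d⟩ = d := by
  ext P
  rw [rexp_apply]
  exact chS_sg hch d P

/-- The part unramified outside `T`. -/
theorem xt_part (hS : S.Ok) (hch : ChFam S T ch) (c : {c : G → ZMod l // S.HomG c}) :
    XT S T (c.1 - chS ch (rexp hS T c)) := by
  refine ⟨homG_sub hS c.2 (homG_chS hS hch _), fun v hv => ?_⟩
  have h1 := chS_sg hch (rexp hS T c) ⟨v, hv⟩
  rw [Pi.sub_apply, h1, rexp_apply, sub_self]

theorem eq_part (hS : S.Ok) (c : {c : G → ZMod l // S.HomG c}) :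
    (c.1 - chS ch (rexp hS T c)) + chS ch (rexp hS T c) = c.1 := sub_add_cancel _ _

theorem xt_finite (hT : T.Finite) (hS : S.Ok) (hF : LagF S T) : Finite {c // XT S T c} := by
  have := hT.to_subtype
  have : NeZero l := ⟨hS.prime.ne_zero⟩
  have h2 : Finite (T → ZMod l × ZMod l) := inferInstance
  refine Finite.of_injective (fun (c : {c // XT S T c}) (v : T) => loc2 S v.1 c.1) fun c d h => ?_
  apply Subtype.ext
  have h3 := hF.inj (c.1 - d.1) ⟨homG_sub hS c.2.1 d.2.1, fun v hv => by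
    rw [Pi.sub_apply, c.2.2 v hv, d.2.2 v hv, sub_zero]⟩ fun v hv => by
      have h4 : loc2 S v c.1 = loc2 S v d.1 := congrFun h ⟨v, hv⟩
      have h5 : loc2 S v (c.1 - d.1) = loc2 S v c.1 - loc2 S v d.1 := rfl
      rw [h5, h4, sub_self]
  exact sub_eq_zero.1 h3

theorem dS_rexp_le (hS : S.Ok) (c : {c : G → ZMod l // S.HomG c}) :
    dS deg (rexp hS T c).support ≤ rdeg S deg c.1 := by
  classical
  rw [rdeg_eq hS c.2, dS, ← sum_image (f := deg) (g := fun P : Out T => P.1)
    fun P _ Q _ h => Subtype.ext h]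
  refine sum_le_sum_of_subset fun v hv => ?_
  obtain ⟨P, hP, rfl⟩ := mem_image.1 hv
  rw [Set.Finite.mem_toFinset]
  rw [Finsupp.mem_support_iff, rexp_apply] at hP
  exact hP

theorem rdeg_le (hT : T.Finite) (hS : S.Ok) (c : {c : G → ZMod l // S.HomG c}) :
    rdeg S deg c.1 ≤ ∑ v ∈ hT.toFinset, deg v + dS deg (rexp hS T c).support := by
  classical
  rw [rdeg_eq hS c.2, dS, ← sum_image (f := deg) (g := fun P : Out T => P.1)
    fun P _ Q _ h => Subtype.ext h]
  refine le_trans (sum_le_sum_of_subset (t := hT.toFinset ∪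
    (rexp hS T c).support.image fun P : Out T => P.1) fun v hv => ?_) (by
      have := sum_union_inter (s₁ := hT.toFinset)
        (s₂ := (rexp hS T c).support.image fun P : Out T => P.1) (f := deg)
      omega)
  rw [Set.Finite.mem_toFinset] at hv
  rw [mem_union]
  by_cases h : v ∈ T
  · exact Or.inl (hT.mem_toFinset.2 h)
  · refine Or.inr (mem_image.2 ⟨⟨v, h⟩, ?_, rfl⟩)
    rw [Finsupp.mem_support_iff, rexp_apply]
    exact hv

/-- The numerical facts on the degrees. -/
structure Growth (l : ℕ) (T : Set Pl) (deg : Pl → ℕ) (q : ℕ) (c C : ℝ) (n₀ : ℕ) : Prop where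
  two_le : 2 ≤ q
  pos : 0 < c
  fin : ∀ n, Finite {d : Out T →₀ ZMod l // dS deg d.support = n}
  low : ∀ n ≥ n₀, c * (n : ℝ) ^ (l - 2) * (q : ℝ) ^ n ≤
    Nat.card {d : Out T →₀ ZMod l // dS deg d.support = n}
  up : ∀ m n, m ≤ n → 1 ≤ n → (Nat.card {d : Out T →₀ ZMod l // dS deg d.support = m} : ℝ) ≤
    C * (n : ℝ) ^ (l - 2) * (q : ℝ) ^ m

theorem growth_of {q : ℕ} (hl : 2 ≤ l) (hX : (XX T deg).Ok q) :
    ∃ c C n₀, Growth l T deg q c C n₀ := by
  obtain ⟨c, hc, n₀, h⟩ := PSys.dd_of hX hl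
  obtain ⟨U, hU0, hU⟩ := PSys.nTD_le hX hl
  refine ⟨c, U, n₀, hX.two_le, hc, fun n => ?_, fun n hn => h n hn, fun m n hmn hn => hU m n hmn hn⟩
  exact PSys.Ok.finite_TD hX (by omega) n

section count

variable {q : ℕ} {c C : ℝ} {n₀ : ℕ}

/-- The characters of bounded ramification degree are finitely many. -/
theorem finite_le (hS : S.Ok) (hT : T.Finite) (hF : LagF S T) (hch : ChFam S T ch)
    (hG : Growth l T deg q c C n₀) (n : ℕ) :
    Finite {c : {c : G → ZMod l // S.HomG c} // rdeg S deg c.1 ≤ n} := by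
  have h1 := xt_finite hT hS hF
  have h2 := hG.fin
  refine Finite.of_injective (β := {c // XT S T c} × Σ i : Fin (n + 1),
      {d : Out T →₀ ZMod l // dS deg d.support = i.1})
    (fun c => (⟨c.1.1 - chS ch (rexp hS T c.1), xt_part hS hch c.1⟩,
      ⟨⟨dS deg (rexp hS T c.1).support, Nat.lt_succ_of_le ((dS_rexp_le hS c.1).trans c.2)⟩,
        ⟨rexp hS T c.1, rfl⟩⟩)) fun c d h => ?_
  apply Subtype.ext
  apply Subtype.ext
  have h3 : c.1.1 - chS ch (rexp hS T c.1) = d.1.1 - chS ch (rexp hS T d.1) :=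
    congrArg (fun x : {c // XT S T c} × Σ i : Fin (n + 1),
      {d : Out T →₀ ZMod l // dS deg d.support = i.1} => x.1.1) h
  have h4 : rexp hS T c.1 = rexp hS T d.1 :=
    congrArg (fun x : {c // XT S T c} × Σ i : Fin (n + 1),
      {d : Out T →₀ ZMod l // dS deg d.support = i.1} => x.2.2.1) h
  rw [← eq_part (ch := ch) (T := T) hS c.1, ← eq_part (ch := ch) (T := T) hS d.1, h3, h4]

/-- The number of the characters of ramification degree at most `n + deg T`. -/
theorem le_card (hS : S.Ok) (hT : T.Finite) (hF : LagF S T) (hch : ChFam S T ch)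
    (hG : Growth l T deg q c C n₀) (n : ℕ) :
    Nat.card {d : Out T →₀ ZMod l // dS deg d.support = n} ≤
      Nat.card {c : {c : G → ZMod l // S.HomG c} //
        rdeg S deg c.1 ≤ n + ∑ v ∈ hT.toFinset, deg v} := by
  have := finite_le hS hT hF hch hG (n + ∑ v ∈ hT.toFinset, deg v)
  refine Nat.card_le_card_of_injective (fun d => ⟨⟨chS ch d.1, homG_chS hS hch d.1⟩, ?_⟩) ?_
  · refine (rdeg_le (deg := deg) hT hS _).trans ?_
    rw [rexp_chS hS hch, d.2, add_comm]
  · intro d d' h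
    apply Subtype.ext
    have h1 : rexp hS T ⟨chS ch d.1, homG_chS hS hch d.1⟩ =
      rexp hS T ⟨chS ch d'.1, homG_chS hS hch d'.1⟩ :=
      congrArg (fun c : {c : {c : G → ZMod l // S.HomG c} //
        rdeg S deg c.1 ≤ n + ∑ v ∈ hT.toFinset, deg v} => rexp hS T c.1) h
    rwa [rexp_chS hS hch, rexp_chS hS hch] at h1

/-- The bad characters. -/
theorem card_bad_le (hS : S.Ok) (hT : T.Finite) (hF : LagF S T) (hch : ChFam S T ch)
    (hG : Growth l T deg q c C n₀) (Bad : (G → ZMod l) → Prop) (n : ℕ) :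
    Nat.card {c : {c : G → ZMod l // S.HomG c} // rdeg S deg c.1 ≤ n ∧ Bad c.1} ≤
      ∑ i ∈ range (n + 1), ∑ᶠ c0 : {c // XT S T c},
        Nat.card {d : Out T →₀ ZMod l // dS deg d.support = i ∧ Bad (c0.1 + chS ch d)} := by
  classical
  have h1 := xt_finite hT hS hF
  have := Fintype.ofFinite {c // XT S T c}
  have h2 := hG.fin
  have h3 : ∀ (i : ℕ) (c0 : {c // XT S T c}),
      Finite {d : Out T →₀ ZMod l // dS deg d.support = i ∧ Bad (c0.1 + chS ch d)} :=
    fun i c0 => by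
      have := h2 i
      exact Finite.of_injective
        (fun D => (⟨D.1, D.2.1⟩ : {d : Out T →₀ ZMod l // dS deg d.support = i}))
        fun D D' h => Subtype.ext
          (congrArg (fun x : {d : Out T →₀ ZMod l // dS deg d.support = i} => x.1) h)
  have h4 : ∑ i ∈ range (n + 1), ∑ᶠ c0 : {c // XT S T c},
        Nat.card {d : Out T →₀ ZMod l // dS deg d.support = i ∧ Bad (c0.1 + chS ch d)} =
      Nat.card (Σ i : Fin (n + 1), Σ c0 : {c // XT S T c},
        {d : Out T →₀ ZMod l // dS deg d.support = i.1 ∧ Bad (c0.1 + chS ch d)}) := by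
    rw [Nat.card_sigma, ← Fin.sum_univ_eq_sum_range (fun i => ∑ᶠ c0 : {c // XT S T c},
        Nat.card {d : Out T →₀ ZMod l // dS deg d.support = i ∧ Bad (c0.1 + chS ch d)})]
    refine sum_congr rfl fun i _ => ?_
    rw [finsum_eq_sum_of_fintype, Nat.card_sigma]
  rw [h4]
  refine Nat.card_le_card_of_injective (fun c => ⟨⟨dS deg (rexp hS T c.1).support,
    Nat.lt_succ_of_le ((dS_rexp_le hS c.1).trans c.2.1)⟩,
    ⟨⟨c.1.1 - chS ch (rexp hS T c.1), xt_part hS hch c.1⟩, ⟨rexp hS T c.1, rfl, by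
      rw [eq_part (ch := ch) (T := T) hS c.1]
      exact c.2.2⟩⟩⟩) fun c d h => ?_
  apply Subtype.ext
  apply Subtype.ext
  have h5 : c.1.1 - chS ch (rexp hS T c.1) = d.1.1 - chS ch (rexp hS T d.1) :=
    congrArg (fun x : (Σ i : Fin (n + 1), Σ c0 : {c // XT S T c},
        {d : Out T →₀ ZMod l // dS deg d.support = i.1 ∧ Bad (c0.1 + chS ch d)}) => x.2.1.1) h
  have h6 : rexp hS T c.1 = rexp hS T d.1 :=
    congrArg (fun x : (Σ i : Fin (n + 1), Σ c0 : {c // XT S T c},
        {d : Out T →₀ ZMod l // dS deg d.support = i.1 ∧ Bad (c0.1 + chS ch d)}) => x.2.2.1) h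
  rw [← eq_part (ch := ch) (T := T) hS c.1, ← eq_part (ch := ch) (T := T) hS d.1, h5, h6]

/-- From the families to all characters. -/
theorem all_of_fam (hS : S.Ok) (hT : T.Finite) (hF : LagF S T) (hch : ChFam S T ch)
    (hG : Growth l T deg q c C n₀) :
    ∃ K : ℝ, 0 < K ∧ ∀ (Bad : (G → ZMod l) → Prop) (ε : ℝ), 0 < ε →
      ∀ n₁ : ℕ, (∀ c0, XT S T c0 → ∀ n ≥ n₁,
        (Nat.card {d : Out T →₀ ZMod l // dS deg d.support = n ∧ Bad (c0 + chS ch d)} : ℝ) ≤
          ε * Nat.card {d : Out T →₀ ZMod l // dS deg d.support = n}) →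
      ∃ n₂, ∀ n ≥ n₂,
        (Nat.card {c : {c : G → ZMod l // S.HomG c} // rdeg S deg c.1 ≤ n ∧ Bad c.1} : ℝ) ≤
          K * ε * Nat.card {c : {c : G → ZMod l // S.HomG c} // rdeg S deg c.1 ≤ n} := by
  classical
  have hXf := xt_finite hT hS hF
  have := Fintype.ofFinite {c // XT S T c}
  set τ := ∑ v ∈ hT.toFinset, deg v with hτ
  set M : ℝ := ((Nat.card {c // XT S T c} : ℕ) : ℝ) with hM
  have hM0 : 0 ≤ M := Nat.cast_nonneg _
  have hq2 : (2 : ℝ) ≤ q := by exact_mod_cast hG.two_le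
  have hq0 : (0 : ℝ) < q := by linarith
  have hC0 : 0 ≤ |C| := abs_nonneg C
  have hc0 := hG.pos
  have hup : ∀ m n, m ≤ n → 1 ≤ n →
      (Nat.card {d : Out T →₀ ZMod l // dS deg d.support = m} : ℝ) ≤
      |C| * (n : ℝ) ^ (l - 2) * (q : ℝ) ^ m := fun m n h h' => (hG.up m n h h').trans (by
        gcongr
        exact le_abs_self C)
  have hgeom : ∀ n : ℕ, ∑ i ∈ range n, (q : ℝ) ^ i ≤ (q : ℝ) ^ n := by
    intro n
    induction n with
    | zero => simp
    | succ n ih =>
      rw [sum_range_succ, pow_succ]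
      have : (0 : ℝ) < (q : ℝ) ^ n := by positivity
      nlinarith
  refine ⟨3 * M * |C| * 2 ^ (l - 2) * (q : ℝ) ^ τ / c + 1, by positivity,
    fun Bad ε hε n₁ h => ?_⟩
  obtain ⟨n₂, hn₂⟩ : ∃ n₂ : ℕ, (q : ℝ) ^ n₁ / ε ≤ (q : ℝ) ^ n₂ :=
    (pow_unbounded_of_one_lt _ (by linarith : (1 : ℝ) < q)).imp fun _ h => h.le
  refine ⟨max (max n₂ n₁) (max (n₀ + τ) (2 * τ + 1)), fun n hn => ?_⟩
  have hn2 : n₂ ≤ n := ((le_max_left _ _).trans (le_max_left _ _)).trans hn
  have hn0 : n₀ + τ ≤ n := ((le_max_left _ _).trans (le_max_right _ _)).trans hn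
  have hn3 : 2 * τ + 1 ≤ n := ((le_max_right _ _).trans (le_max_right _ _)).trans hn
  have hn1 : 1 ≤ n := by omega
  have hnr : (0 : ℝ) < n := by exact_mod_cast hn1
  set W : ℝ := (n : ℝ) ^ (l - 2) with hW
  have hW0 : 0 < W := by positivity
  -- the bad characters
  have hle : ∀ (i : ℕ) (c0 : {c // XT S T c}),
      (Nat.card {d : Out T →₀ ZMod l // dS deg d.support = i ∧ Bad (c0.1 + chS ch d)} : ℝ) ≤
        Nat.card {d : Out T →₀ ZMod l // dS deg d.support = i} := by
    intro i c0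
    have h1 := hG.fin i
    have h3 : Nat.card {d : Out T →₀ ZMod l // dS deg d.support = i ∧ Bad (c0.1 + chS ch d)} ≤
        Nat.card {d : Out T →₀ ZMod l // dS deg d.support = i} := Nat.card_le_card_of_injective
      (fun D => (⟨D.1, D.2.1⟩ : {d : Out T →₀ ZMod l // dS deg d.support = i}))
      fun D D' h => Subtype.ext
        (congrArg (fun x : {d : Out T →₀ ZMod l // dS deg d.support = i} => x.1) h)
    exact_mod_cast h3
  have hi1 : ∀ i, i ≤ n → i < n₁ → ((∑ᶠ c0 : {c // XT S T c},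
        Nat.card {d : Out T →₀ ZMod l // dS deg d.support = i ∧ Bad (c0.1 + chS ch d)} : ℕ) : ℝ) ≤
      M * |C| * W * (q : ℝ) ^ i := by
    intro i hin _
    rw [finsum_eq_sum_of_fintype, Nat.cast_sum]
    refine (sum_le_sum fun c0 _ => (hle i c0).trans (hup i n hin hn1)).trans ?_
    rw [sum_const, nsmul_eq_mul, card_univ, ← Nat.card_eq_fintype_card, ← hM]
    exact le_of_eq (by ring)
  have hi2 : ∀ i, i ≤ n → n₁ ≤ i → ((∑ᶠ c0 : {c // XT S T c},
        Nat.card {d : Out T →₀ ZMod l // dS deg d.support = i ∧ Bad (c0.1 + chS ch d)} : ℕ) : ℝ) ≤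
      M * |C| * W * ε * (q : ℝ) ^ i := by
    intro i hin hi
    rw [finsum_eq_sum_of_fintype, Nat.cast_sum]
    refine (sum_le_sum fun c0 _ => (h c0.1 c0.2 i hi).trans
      (mul_le_mul_of_nonneg_left (hup i n hin hn1) hε.le)).trans ?_
    rw [sum_const, nsmul_eq_mul, card_univ, ← Nat.card_eq_fintype_card, ← hM]
    exact le_of_eq (by ring)
  have hbad : (Nat.card {c : {c : G → ZMod l // S.HomG c} // rdeg S deg c.1 ≤ n ∧ Bad c.1} : ℝ) ≤
      3 * M * |C| * W * ε * (q : ℝ) ^ n := by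
    have h1 : (Nat.card {c : {c : G → ZMod l // S.HomG c} // rdeg S deg c.1 ≤ n ∧ Bad c.1} : ℝ) ≤
        ∑ i ∈ range (n + 1), ((∑ᶠ c0 : {c // XT S T c},
          Nat.card {d : Out T →₀ ZMod l // dS deg d.support = i ∧
            Bad (c0.1 + chS ch d)} : ℕ) : ℝ) := by
      exact_mod_cast card_bad_le hS hT hF hch hG Bad n
    refine h1.trans ?_
    have h2 : ∑ i ∈ range (n + 1), ((∑ᶠ c0 : {c // XT S T c},
          Nat.card {d : Out T →₀ ZMod l // dS deg d.support = i ∧
            Bad (c0.1 + chS ch d)} : ℕ) : ℝ) ≤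
        ∑ i ∈ range (n + 1), (M * |C| * W * ε * (q : ℝ) ^ i +
          if i < n₁ then M * |C| * W * (q : ℝ) ^ i else 0) := by
      refine sum_le_sum fun i hi0 => ?_
      have hin : i ≤ n := by
        rw [mem_range] at hi0
        omega
      by_cases hi : i < n₁
      · rw [if_pos hi]
        exact (hi1 i hin hi).trans (le_add_of_nonneg_left (by positivity))
      · rw [if_neg hi, add_zero]
        exact hi2 i hin (not_lt.1 hi)
    refine h2.trans ?_
    rw [sum_add_distrib, ← mul_sum, ← sum_filter, ← mul_sum]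
    have h3 : ∑ i ∈ range (n + 1), (q : ℝ) ^ i ≤ 2 * (q : ℝ) ^ n := by
      rw [sum_range_succ]
      have := hgeom n
      linarith
    have h4 : ∑ i ∈ (range (n + 1)).filter (fun i => i < n₁), (q : ℝ) ^ i ≤ ε * (q : ℝ) ^ n := by
      have h5 : ∑ i ∈ (range (n + 1)).filter (fun i => i < n₁), (q : ℝ) ^ i ≤
          ∑ i ∈ range n₁, (q : ℝ) ^ i := by
        refine sum_le_sum_of_subset_of_nonneg (fun i hi => ?_) fun i _ _ => by positivity
        exact mem_range.2 (mem_filter.1 hi).2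
      have h6 : (q : ℝ) ^ n₁ ≤ ε * (q : ℝ) ^ n := by
        rw [div_le_iff₀ hε] at hn₂
        have h7 : (q : ℝ) ^ n₂ ≤ (q : ℝ) ^ n := pow_le_pow_right₀ (by linarith) hn2
        nlinarith
      exact (h5.trans (hgeom n₁)).trans h6
    have h5 : 0 ≤ M * |C| * W * ε := by positivity
    have h6 : 0 ≤ M * |C| * W := by positivity
    nlinarith [mul_le_mul_of_nonneg_left h3 h5, mul_le_mul_of_nonneg_left h4 h6]
  -- all characters
  have hall : c * (W * (q : ℝ) ^ n) ≤ 2 ^ (l - 2) * (q : ℝ) ^ τ *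
      Nat.card {c : {c : G → ZMod l // S.HomG c} // rdeg S deg c.1 ≤ n} := by
    have h1 := hG.low (n - τ) (by omega)
    have h2 := le_card hS hT hF hch hG (n - τ)
    have h3 : n - τ + τ = n := by omega
    rw [← hτ, h3] at h2
    have h4 : (Nat.card {d : Out T →₀ ZMod l // dS deg d.support = n - τ} : ℝ) ≤
      Nat.card {c : {c : G → ZMod l // S.HomG c} // rdeg S deg c.1 ≤ n} := by exact_mod_cast h2
    have h5 : (n : ℝ) ≤ 2 * ((n - τ : ℕ) : ℝ) := by
      have : n ≤ 2 * (n - τ) := by omega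
      exact_mod_cast this
    have h6 : W ≤ 2 ^ (l - 2) * ((n - τ : ℕ) : ℝ) ^ (l - 2) := by
      rw [hW, ← mul_pow]
      exact pow_le_pow_left₀ hnr.le h5 _
    calc c * (W * (q : ℝ) ^ n) ≤ c * (2 ^ (l - 2) * ((n - τ : ℕ) : ℝ) ^ (l - 2) * (q : ℝ) ^ n) := by
          gcongr
      _ = 2 ^ (l - 2) * (q : ℝ) ^ τ *
          (c * ((n - τ : ℕ) : ℝ) ^ (l - 2) * (q : ℝ) ^ (n - τ)) := by
          conv_lhs => rw [← h3, pow_add, h3]
          ring
      _ ≤ _ := mul_le_mul_of_nonneg_left (h1.trans h4) (by positivity)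
  refine hbad.trans ?_
  have h1 : W * (q : ℝ) ^ n ≤ 2 ^ (l - 2) * (q : ℝ) ^ τ *
      Nat.card {c : {c : G → ZMod l // S.HomG c} // rdeg S deg c.1 ≤ n} / c := by
    rw [le_div_iff₀ hc0]
    linarith
  have h2 : 0 ≤ 3 * M * |C| * ε := by positivity
  calc 3 * M * |C| * W * ε * (q : ℝ) ^ n
      = 3 * M * |C| * ε * (W * (q : ℝ) ^ n) := by ring
    _ ≤ 3 * M * |C| * ε * (2 ^ (l - 2) * (q : ℝ) ^ τ *
        Nat.card {c : {c : G → ZMod l // S.HomG c} // rdeg S deg c.1 ≤ n} / c) :=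
        mul_le_mul_of_nonneg_left h1 h2
    _ = 3 * M * |C| * 2 ^ (l - 2) * (q : ℝ) ^ τ / c * ε *
        Nat.card {c : {c : G → ZMod l // S.HomG c} // rdeg S deg c.1 ≤ n} := by ring
    _ ≤ _ := by
        refine mul_le_mul_of_nonneg_right (mul_le_mul_of_nonneg_right ?_ hε.le)
          (Nat.cast_nonneg _)
        linarith

end count

/-- The Selmer group of level `m` of the twist by `c` is small. -/
def SmallS (S : Sys l A G V V1 Pl) (m : ℕ) (c : G → ZMod l) : Prop :=
  Finite {Psi : G → V // S.IsSel c m Psi} ∧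
    Nat.card {Psi : G → V // S.IsSel c m Psi} < (l * Nat.card V1) ^ m

/-- From `LThm` for the finitely many `chi0` unramified outside `T` (`cd` as in `exists_cdata`) to all
characters. -/
theorem all_of_LThm {q : ℕ} (hS : S.Ok) (hT : T.Finite) (hF : LagF S T) (hX : (XX T deg).Ok q)
    (cd : (G → ZMod l) → CData S (XX T deg))
    (hcd : ∀ chi0, (cd chi0).pl = Subtype.val ∧ cd chi0 = { cd 0 with chi0 := chi0 } ∧
      (XT S T chi0 → (cd chi0).Ok))
    (hL : ∀ chi0, XT S T chi0 → (cd chi0).LThm) :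
    (∀ n, Finite {c : {c : G → ZMod l // S.HomG c} // rdeg S deg c.1 ≤ n}) ∧
    ∀ ε : ℝ, 0 < ε → ∃ m₁ : ℕ, ∀ m ≥ m₁, ∃ n₀ : ℕ, ∀ n ≥ n₀,
      (Nat.card {c : {c : G → ZMod l // S.HomG c} //
        rdeg S deg c.1 ≤ n ∧ ¬ SmallS S m c.1} : ℝ) ≤
        ε * Nat.card {c : {c : G → ZMod l // S.HomG c} // rdeg S deg c.1 ≤ n} := by
  classical
  obtain ⟨c, C, n₀, hG⟩ := growth_of (l := l) hS.prime.two_le hX
  have h0 : XT S T 0 := ⟨homG_zero hS, fun _ _ => rfl⟩
  have hOk := (hcd 0).2.2 h0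
  have hpl := (hcd 0).1
  let ch : Out T → G → ZMod l := (cd 0).ch
  have hch : ChFam S T ch := by
    refine ⟨hOk.ch_hom, fun P => ?_, fun P Q hPQ => ?_⟩
    · have := hOk.ch_self P
      rw [hpl] at this
      exact this
    · have := hOk.ch_unr P Q hPQ
      rw [hpl] at this
      exact this
  refine ⟨fun n => finite_le hS hT hF hch hG n, fun ε hε => ?_⟩
  obtain ⟨K, hK, hall⟩ := all_of_fam hS hT hF hch hG
  have hXf := xt_finite hT hS hF
  have := Fintype.ofFinite {c // XT S T c}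
  have hεK : 0 < ε / K := div_pos hε hK
  choose m₁ hm₁ using fun c0 : {c // XT S T c} => hL c0.1 c0.2 (ε / K) hεK
  refine ⟨univ.sup m₁, fun m hm => ?_⟩
  choose n₁ hn₁ using fun c0 : {c // XT S T c} =>
    hm₁ c0 m ((le_sup (f := m₁) (mem_univ c0)).trans hm)
  obtain ⟨n₂, hn₂⟩ := hall (fun c => ¬ SmallS S m c) (ε / K) hεK (univ.sup n₁)
    fun c0 hc0 n hn => by
      have h1 := hn₁ ⟨c0, hc0⟩ n ((le_sup (f := n₁) (mem_univ (⟨c0, hc0⟩ : {c // XT S T c}))).trans
        hn)
      have h2 : ∀ d : Out T →₀ ZMod l, (cd c0).chiD d = c0 + chS ch d := by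
        intro d
        rw [(hcd c0).2.1]
        rfl
      have h3 : Nat.card {d : Out T →₀ ZMod l // dS deg d.support = n ∧
          ¬ SmallS S m (c0 + chS ch d)} = Nat.card {c : (XX T deg).TD l n //
      ¬ (Finite {Psi : G → V // S.IsSel ((cd c0).chiD c.1) m Psi} ∧
        Nat.card {Psi : G → V // S.IsSel ((cd c0).chiD c.1) m Psi} < (l * Nat.card V1) ^ m)} := by
        refine Nat.card_congr ⟨fun d => ⟨⟨d.1, d.2.1⟩, ?_⟩, fun d => ⟨d.1.1, d.1.2, ?_⟩,
          fun _ => rfl, fun _ => rfl⟩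
        · have h5 := d.2.2
          rw [← h2] at h5
          exact h5
        · rw [← h2]
          exact d.2
      rw [h3]
      exact h1
  refine ⟨n₂, fun n hn => ?_⟩
  have h4 := hn₂ n hn
  rwa [mul_div_cancel₀ _ hK.ne'] at h4

end Pool.Agent.SmL.Fnl
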