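import Pool.Agent.Lib.SmL.Asm.Abs
import Pool.Agent.Lib.SmL.Fnl.Tot

/-!
# SMITH-L, final step: almost all characters are small

`all_abs`: from `AOk`, for almost all characters (ordered by the degree of the ramification) the
number of Selmer cocycles of level `m` is small.
-/

set_option autoImplicit false

open Finset

namespace Pool.Agent.SmL.Fnl

open Ch

variable {l : ℕ} {A G V V1 Pl : Type} [CommRing A] [Group G] [AddCommGroup V] [Module A V]
  [DistribMulAction G V] [AddCommGroup V1] [Module (ZMod l) V1]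
variable {S : Sys l A G V V1 Pl} {T : Set Pl} {deg : Pl → ℕ}

/-- `all_of_LThm` for the conclusion of `main_abs`. -/
theorem all_of_main {q : ℕ} (hS : S.Ok) (hT : T.Finite) (hF : LagF S T) (hX : (XX T deg).Ok q)
    (h : ∃ cd : CData S (XX T deg), cd.pl = Subtype.val ∧ ∀ chi0, XT S T chi0 →
      ({ cd with chi0 := chi0 } : CData S (XX T deg)).Ok ∧
      ({ cd with chi0 := chi0 } : CData S (XX T deg)).LThm) :
    (∀ n, Finite {c : {c : G → ZMod l // S.HomG c} // rdeg S deg c.1 ≤ n}) ∧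
    ∀ ε : ℝ, 0 < ε → ∃ m₁ : ℕ, ∀ m ≥ m₁, ∃ n₀ : ℕ, ∀ n ≥ n₀,
      (Nat.card {c : {c : G → ZMod l // S.HomG c} //
        rdeg S deg c.1 ≤ n ∧ ¬ SmallS S m c.1} : ℝ) ≤
        ε * Nat.card {c : {c : G → ZMod l // S.HomG c} // rdeg S deg c.1 ≤ n} := by
  obtain ⟨cd, h1, h2⟩ := h
  exact all_of_LThm hS hT hF hX (fun chi0 => { cd with chi0 := chi0 })
    (fun chi0 => ⟨h1, rfl, fun hc => (h2 chi0 hc).1⟩) fun chi0 hc => (h2 chi0 hc).2

/-- **Almost all characters are small.** -/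
theorem all_abs [Nontrivial V1] {Geo : Subgroup G} {fr : G} {q a C m0 : ℕ} (hT : T.Finite)
    (h : AOk S T deg q Geo fr a C m0) :
    (∀ n, Finite {c : {c : G → ZMod l // S.HomG c} // rdeg S deg c.1 ≤ n}) ∧
    ∀ ε : ℝ, 0 < ε → ∃ m₁ : ℕ, ∀ m ≥ m₁, ∃ n₀ : ℕ, ∀ n ≥ n₀,
      (Nat.card {c : {c : G → ZMod l // S.HomG c} //
        rdeg S deg c.1 ≤ n ∧ ¬ SmallS S m c.1} : ℝ) ≤
        ε * Nat.card {c : {c : G → ZMod l // S.HomG c} // rdeg S deg c.1 ≤ n} :=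
  all_of_main h.ok hT h.lagF h.xok (main_abs h)

/-- The number of the characters of ramification degree at most `n` is at least `c n ^ (l - 2) q ^ n`. -/
theorem grow_of_main {q : ℕ} (hS : S.Ok) (hT : T.Finite) (hF : LagF S T) (hX : (XX T deg).Ok q)
    (h : ∃ cd : CData S (XX T deg), cd.pl = Subtype.val ∧ ∀ chi0, XT S T chi0 →
      ({ cd with chi0 := chi0 } : CData S (XX T deg)).Ok ∧
      ({ cd with chi0 := chi0 } : CData S (XX T deg)).LThm) :
    ∃ c : ℝ, 0 < c ∧ ∃ n₀ : ℕ, ∀ n ≥ n₀, c * (n : ℝ) ^ (l - 2) * (q : ℝ) ^ n ≤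
      Nat.card {c : {c : G → ZMod l // S.HomG c} // rdeg S deg c.1 ≤ n} := by
  classical
  obtain ⟨cd, hpl, h2⟩ := h
  obtain ⟨c, C, n₀, hG⟩ := growth_of (l := l) hS.prime.two_le hX
  have hOk := (h2 0 ⟨homG_zero hS, fun _ _ => rfl⟩).1
  have hch : ChFam S T cd.ch := by
    refine ⟨hOk.ch_hom, fun P => ?_, fun P Q hPQ => ?_⟩
    · have := hOk.ch_self P
      dsimp only at this
      rw [hpl] at this
      exact this
    · have := hOk.ch_unr P Q hPQ
      dsimp only at this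
      rw [hpl] at this
      exact this
  set τ := ∑ v ∈ hT.toFinset, deg v with hτ
  have hq0 : (0 : ℝ) < q := by
    have := hG.two_le
    exact_mod_cast (by omega : 0 < q)
  refine ⟨c / (2 ^ (l - 2) * (q : ℝ) ^ τ), div_pos hG.pos (by positivity), n₀ + 2 * τ,
    fun n hn => ?_⟩
  obtain ⟨m, rfl⟩ : ∃ m, n = m + τ := ⟨n - τ, by omega⟩
  have h3 := le_card hS hT hF hch hG m
  have h4 := hG.low m (by omega)
  have h5 : ((Nat.card {d : Out T →₀ ZMod l // dS deg d.support = m} : ℕ) : ℝ) ≤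
      Nat.card {c : {c : G → ZMod l // S.HomG c} // rdeg S deg c.1 ≤ m + τ} := by
    exact_mod_cast h3
  refine le_trans ?_ (h4.trans h5)
  have h6 : ((m + τ : ℕ) : ℝ) ≤ 2 * m := by
    exact_mod_cast (by omega : m + τ ≤ 2 * m)
  have h7 : (((m + τ : ℕ) : ℝ)) ^ (l - 2) ≤ 2 ^ (l - 2) * (m : ℝ) ^ (l - 2) := by
    rw [← mul_pow]
    exact pow_le_pow_left₀ (Nat.cast_nonneg _) h6 _
  calc c / (2 ^ (l - 2) * (q : ℝ) ^ τ) * ((m + τ : ℕ) : ℝ) ^ (l - 2) * (q : ℝ) ^ (m + τ)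
      ≤ c / (2 ^ (l - 2) * (q : ℝ) ^ τ) * (2 ^ (l - 2) * (m : ℝ) ^ (l - 2)) *
        (q : ℝ) ^ (m + τ) := by
        gcongr
        exact div_nonneg hG.pos.le (by positivity)
    _ = c * (m : ℝ) ^ (l - 2) * (q : ℝ) ^ m := by
        rw [pow_add]
        field_simp

/-- `grow_of_main` from `AOk`. -/
theorem grow_abs [Nontrivial V1] {Geo : Subgroup G} {fr : G} {q a C m0 : ℕ} (hT : T.Finite)
    (h : AOk S T deg q Geo fr a C m0) :
    ∃ c : ℝ, 0 < c ∧ ∃ n₀ : ℕ, ∀ n ≥ n₀, c * (n : ℝ) ^ (l - 2) * (q : ℝ) ^ n ≤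
      Nat.card {c : {c : G → ZMod l // S.HomG c} // rdeg S deg c.1 ≤ n} :=
  grow_of_main h.ok hT h.lagF h.xok (main_abs h)

end Pool.Agent.SmL.Fnl
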