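import Pool.Agent.Lib.SmJ.L.Kum
import Pool.Agent.Lib.GBU.Plc
import Pool.Agent.Lib.SmL.L.AllL

/-!
# SMITH-L, final layer: levels

Cocycles on the kernel of `chi` with values in `A[l ^ i]`, continuous for the Krull topology, are of a
level in the family `NN`, and conversely.
-/

set_option autoImplicit false

namespace Pool.Agent.SmL.Fnl

open Pool.Agent.BSDFF Pool.Agent.Lib.SmD

variable {K Ω : Type} [Field K] [Field Ω] [Algebra K Ω]

/-- What is used about the family of the open normal subgroups. -/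
structure FamE (l : ℕ) (NN : Set (Subgroup (Ω ≃ₐ[K] Ω))) : Prop where
  normal : ∀ N ∈ NN, N.Normal
  isOpen : ∀ N ∈ NN, IsOpen (N : Set (Ω ≃ₐ[K] Ω))
  inf_mem : ∀ N ∈ NN, ∀ N' ∈ NN, N ⊓ N' ∈ NN
  ext : ∀ N ∈ NN, ∀ N' : Subgroup (Ω ≃ₐ[K] Ω), N'.Normal → IsOpen (N' : Set (Ω ≃ₐ[K] Ω)) →
    N' ≤ N → (∀ s ∈ N, ∃ m : ℕ, s ^ (l ^ m) ∈ N') → N' ∈ NN

/-- An intermediate field of finite degree is fixed by an open normal subgroup. -/
theorem exists_normal_fix [IsGalois K Ω] (F : IntermediateField K Ω) [FiniteDimensional K F] :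
    ∃ U : Subgroup (Ω ≃ₐ[K] Ω), U.Normal ∧ IsOpen (U : Set (Ω ≃ₐ[K] Ω)) ∧
      ∀ s ∈ U, ∀ x ∈ F, s x = x := by
  let E := IntermediateField.normalClosure K F Ω
  have hE : Normal K E := inferInstance
  have hfd : FiniteDimensional K E := inferInstance
  have hgal : IsGalois K E := { to_isSeparable := inferInstance, to_normal := hE }
  refine ⟨E.fixingSubgroup, ?_, E.fixingSubgroup_isOpen, fun s hs x hx => ?_⟩
  · rw [InfiniteGalois.normal_iff_isGalois]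
    exact hgal
  · have hle : F ≤ E := F.le_normalClosure
    exact (IntermediateField.mem_fixingSubgroup_iff E s).1 hs x (hle hx)

/-- A subgroup of finite level contains the fixer of a field of finite degree. -/
theorem exists_fix_le {N : Subgroup (Ω ≃ₐ[K] Ω)} (hN : IsOpen (N : Set (Ω ≃ₐ[K] Ω))) :
    ∃ F : IntermediateField K Ω, FiniteDimensional K F ∧
      ∀ s : Ω ≃ₐ[K] Ω, (∀ x ∈ F, s x = x) → s ∈ N := by
  obtain ⟨F, hF, hFN⟩ := (krullTopology_mem_nhds_one_iff K Ω (N : Set (Ω ≃ₐ[K] Ω))).mp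
    (hN.mem_nhds N.one_mem)
  exact ⟨F, hF, fun s hs => hFN ((IntermediateField.mem_fixingSubgroup_iff F s).2 hs)⟩

variable {l : ℕ} {A : Type} [AddCommGroup A] [DistribMulAction (Ω ≃ₐ[K] Ω) A]
  {NN : Set (Subgroup (Ω ≃ₐ[K] Ω))} {chi : (Ω ≃ₐ[K] Ω) → ZMod l}

/-- A continuous cocycle of the kernel of `chi` with values in `A[l ^ i]` is of a level in `NN`. -/
theorem level_mem [IsGalois K Ω] (hF : FamE l NN) (hchi : ∀ s t, chi (s * t) = chi s + chi t)
    (hN0 : ∃ N ∈ NN, ∀ n ∈ N, chi n = 0) {i : ℕ}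
    (hN1 : ∃ N ∈ NN, ∀ s ∈ N, ∀ P : A, l ^ i • P = 0 → s • P = P) {c : (Ω ≃ₐ[K] Ω) → A}
    (hc : ∀ s t, chi s = 0 → chi t = 0 → c (s * t) = c s + s • c t)
    (ht : ∀ s, chi s = 0 → l ^ i • c s = 0)
    (hL : ∃ F : IntermediateField K Ω, FiniteDimensional K F ∧ ∀ s t, chi s = 0 → chi t = 0 →
      (∀ x ∈ F, s x = t x) → c s = c t) :
    ∃ N ∈ NN, (∀ n ∈ N, chi n = 0) ∧ ∀ s, chi s = 0 → ∀ n ∈ N, c (s * n) = c s := by
  obtain ⟨N0, hN0, h0⟩ := hN0
  obtain ⟨N1, hN1, h1⟩ := hN1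
  obtain ⟨F, hFf, hL⟩ := hL
  obtain ⟨U, hUn, hUo, hU⟩ := exists_normal_fix F
  have hchi1 : chi 1 = 0 := by
    have := hchi 1 1
    rw [mul_one] at this
    exact left_eq_add.1 this
  have hM := hF.inf_mem N0 hN0 N1 hN1
  set M := N0 ⊓ N1 with hMdef
  have hMn := hF.normal M hM
  have hc1 : c 1 = 0 := by
    have h := hc 1 1 hchi1 hchi1
    rw [mul_one, one_smul] at h
    exact left_eq_add.mp h
  have hMc : ∀ s ∈ M, chi s = 0 := fun s hs => h0 s hs.1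
  have hMul : ∀ s ∈ M, ∀ t ∈ M, c (s * t) = c s + c t := fun s hs t ht' => by
    rw [hc s t (hMc s hs) (hMc t ht'), h1 s hs.2 _ (ht t (hMc t ht'))]
  let H : Subgroup (Ω ≃ₐ[K] Ω) :=
    { carrier := {h | h ∈ M ∧ ∀ g, c (g * h * g⁻¹) = 0}
      one_mem' := ⟨M.one_mem, fun g => by rw [mul_one, mul_inv_cancel, hc1]⟩
      mul_mem' := by
        rintro a b ⟨ha, ha'⟩ ⟨hb, hb'⟩
        refine ⟨M.mul_mem ha hb, fun g => ?_⟩
        have h2 : g * (a * b) * g⁻¹ = (g * a * g⁻¹) * (g * b * g⁻¹) := by group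
        rw [h2, hMul _ (hMn.conj_mem a ha g) _ (hMn.conj_mem b hb g), ha', hb', add_zero]
      inv_mem' := by
        rintro a ⟨ha, ha'⟩
        refine ⟨M.inv_mem ha, fun g => ?_⟩
        have h2 := hMul _ (hMn.conj_mem a ha g) _ (hMn.conj_mem a⁻¹ (M.inv_mem ha) g)
        have h3 : (g * a * g⁻¹) * (g * a⁻¹ * g⁻¹) = 1 := by group
        rw [h3, hc1, ha', zero_add] at h2
        exact h2.symm }
  have hHM : H ≤ M := fun h hh => hh.1
  refine ⟨H, hF.ext M hM H ?_ ?_ hHM ?_, fun n hn => hMc n (hHM hn), fun s hs n hn => ?_⟩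
  · refine ⟨fun h hh g => ⟨hMn.conj_mem h hh.1 g, fun g' => ?_⟩⟩
    have h2 : g' * (g * h * g⁻¹) * g'⁻¹ = (g' * g) * h * (g' * g)⁻¹ := by group
    rw [h2]
    exact hh.2 _
  · have h2 : M ⊓ U ≤ H := by
      intro h hh
      refine ⟨hh.1, fun g => ?_⟩
      have h3 := hMn.conj_mem h hh.1 g
      have h4 := hUn.conj_mem h hh.2 g
      rw [← hc1]
      exact hL _ _ (hMc _ h3) hchi1 fun x hx => hU _ h4 x hx
    refine Subgroup.isOpen_mono h2 ?_
    rw [Subgroup.coe_inf]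
    exact (hF.isOpen M hM).inter hUo
  · intro s hs
    have hpow : ∀ τ ∈ M, ∀ a : ℕ, c (τ ^ a) = a • c τ := by
      intro τ hτ a
      induction a with
      | zero => rw [pow_zero, hc1, zero_smul]
      | succ a ih => rw [pow_succ, hMul _ (M.pow_mem hτ a) _ hτ, ih, succ_nsmul]
    refine ⟨i, M.pow_mem hs _, fun g => ?_⟩
    have h2 : g * s ^ (l ^ i) * g⁻¹ = (g * s * g⁻¹) ^ (l ^ i) := (conj_pow).symm
    rw [h2, hpow _ (hMn.conj_mem s hs g), ht _ (hMc _ (hMn.conj_mem s hs g))]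
  · have h2 := hn.2 1
    rw [one_mul, inv_one, mul_one] at h2
    rw [hc s n hs (hMc n hn.1), h2, smul_zero, add_zero]

end Pool.Agent.SmL.Fnl
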