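import Pool.Agent.Lib.SmL.Fnl.BrgD

/-!
# SMITH-L, final layer: the bridge

The Selmer cocycles `IsK`, `IsL` of block L are the Selmer cocycles of the Galois modules over `K` and
over the intermediate field `L` fixed by the kernel of `chi`.
-/

set_option autoImplicit false

namespace Pool.Agent.SmL.Fnl

open Pool.Agent.BSDFF Pool.Agent.Lib.SmD Pool.Agent.GBU
open Pool.Agent.SmJ.L (GMod ZSel)
open Pool.Agent.SmL.L Pool.Agent.SmL.V

variable {k K Ω : Type} [Field k] [Field K] [Field Ω] [Algebra k K] [Algebra K Ω]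

/-- The action of the Galois group as a family of homomorphisms. -/
def rh (A : Type) [AddCommGroup A] [DistribMulAction (Ω ≃ₐ[K] Ω) A] (s : Ω ≃ₐ[K] Ω) : A →+ A :=
  DistribSMul.toAddMonoidHom A s

/-- The action of the Galois group of an intermediate field. -/
def rhL {M : Type} [AddCommGroup M] (ρ : (Ω ≃ₐ[K] Ω) → M →+ M) (L : IntermediateField K Ω)
    (s : Ω ≃ₐ[L] Ω) : M →+ M := ρ (s.restrictScalars K)

/-- An automorphism which fixes `L`, as an automorphism over `L`. -/
def liftL {L : IntermediateField K Ω} (s : Ω ≃ₐ[K] Ω) (hs : s ∈ L.fixingSubgroup) : Ω ≃ₐ[L] Ω :=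
  IntermediateField.fixingSubgroupEquiv L ⟨s, hs⟩

theorem liftL_apply {L : IntermediateField K Ω} (s : Ω ≃ₐ[K] Ω) (hs : s ∈ L.fixingSubgroup) (x : Ω) :
    liftL s hs x = s x := rfl

theorem res_liftL {L : IntermediateField K Ω} (s : Ω ≃ₐ[K] Ω) (hs : s ∈ L.fixingSubgroup) :
    (liftL s hs).restrictScalars K = s := AlgEquiv.ext fun _ => rfl

theorem liftL_res {L : IntermediateField K Ω} (s : Ω ≃ₐ[L] Ω)
    (hs : s.restrictScalars K ∈ L.fixingSubgroup) : liftL (s.restrictScalars K) hs = s :=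
  AlgEquiv.ext fun _ => rfl

theorem res_mem {L : IntermediateField K Ω} (s : Ω ≃ₐ[L] Ω) :
    s.restrictScalars K ∈ L.fixingSubgroup := by
  rw [IntermediateField.mem_fixingSubgroup_iff]
  intro x hx
  exact s.commutes ⟨x, hx⟩

theorem res_mul {L : IntermediateField K Ω} (s t : Ω ≃ₐ[L] Ω) :
    (s * t).restrictScalars K = s.restrictScalars K * t.restrictScalars K := rfl

theorem mem_dec_res {L : IntermediateField K Ω} {w : ValuationSubring Ω} (s : Ω ≃ₐ[L] Ω) :
    s ∈ w.decompositionSubgroup L ↔ s.restrictScalars K ∈ w.decompositionSubgroup K :=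
  ⟨fun h => (mem_dec K).2 ((mem_dec L).1 h), fun h => (mem_dec L).2 ((mem_dec K).1 h)⟩

/-- The hypotheses on the groups. -/
structure BrH (k : Type) {K Ω Pl : Type} [Field k] [Field K] [Field Ω] [Algebra k K] [Algebra K Ω]
    (l : ℕ) (NN : Set (Subgroup (Ω ≃ₐ[K] Ω))) (D : Pl → Subgroup (Ω ≃ₐ[K] Ω)) : Prop where
  fam : FamE l NN
  pl : ∀ v, ∃ w : ValuationSubring Ω, w ≠ ⊤ ∧
    (∀ c : k, algebraMap K Ω (algebraMap k K c) ∈ w) ∧ D v = w.decompositionSubgroup K
  conj : ∀ w : ValuationSubring Ω, w ≠ ⊤ → (∀ c : k, algebraMap K Ω (algebraMap k K c) ∈ w) →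
    ∃ (v : Pl) (σ : Ω ≃ₐ[K] Ω), ∀ s ∈ w.decompositionSubgroup K, σ * s * σ⁻¹ ∈ D v

/-- A conjugate place. -/
theorem conj_place {w : ValuationSubring Ω} (hw : w ≠ ⊤)
    (hc : ∀ c : k, algebraMap K Ω (algebraMap k K c) ∈ w) (g : Ω ≃ₐ[K] Ω) :
    ∃ w' : ValuationSubring Ω, w' ≠ ⊤ ∧ (∀ c : k, algebraMap K Ω (algebraMap k K c) ∈ w') ∧
      ∀ s, g⁻¹ * s * g ∈ w.decompositionSubgroup K ↔ s ∈ w'.decompositionSubgroup K := by
  refine ⟨w.comap (g⁻¹ : Ω ≃ₐ[K] Ω).toAlgHom.toRingHom, ?_, ?_, fun s => ?_⟩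
  · intro h
    apply hw
    rw [eq_top_iff]
    intro x _
    have h1 : g x ∈ w.comap (g⁻¹ : Ω ≃ₐ[K] Ω).toAlgHom.toRingHom := by
      rw [h]
      trivial
    have h2 : g⁻¹ (g x) ∈ w := h1
    rwa [← AlgEquiv.mul_apply, inv_mul_cancel, AlgEquiv.one_apply] at h2
  · intro c
    change g⁻¹ (algebraMap K Ω (algebraMap k K c)) ∈ w
    rw [AlgEquiv.commutes]
    exact hc c
  · have hm : ∀ x, x ∈ w.comap (g⁻¹ : Ω ≃ₐ[K] Ω).toAlgHom.toRingHom ↔ g⁻¹ x ∈ w := fun x => Iff.rfl
    constructor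
    · intro h
      have h1 := (mem_dec K).1 h
      refine (mem_dec K).2 fun x => ?_
      rw [hm, hm]
      have h2 := h1 (g⁻¹ x)
      rw [AlgEquiv.mul_apply, AlgEquiv.mul_apply, ← AlgEquiv.mul_apply g, mul_inv_cancel,
        AlgEquiv.one_apply] at h2
      exact h2
    · intro h
      have h1 := (mem_dec K).1 h
      refine (mem_dec K).2 fun x => ?_
      have h2 := h1 (g x)
      rw [hm, hm, ← AlgEquiv.mul_apply g⁻¹ g, inv_mul_cancel, AlgEquiv.one_apply] at h2
      exact h2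

section main

variable {l : ℕ} {A V1 Pl : Type} [AddCommGroup A] [DistribMulAction (Ω ≃ₐ[K] Ω) A]
  [AddCommGroup V1] [Module (ZMod l) V1]
  {S : Sys l (AA l) (Ω ≃ₐ[K] Ω) (VM l (lPow l A)) V1 Pl} {chi : (Ω ≃ₐ[K] Ω) → ZMod l}

variable (k l) in
/-- `A ⊗ Q_l / Z_l = 0` over the local fields of the extension cut out by `chi`. -/
def E6c (A : Type) [AddCommGroup A] [DistribMulAction (Ω ≃ₐ[K] Ω) A]
    (chi : (Ω ≃ₐ[K] Ω) → ZMod l) : Prop :=
  ∀ w : ValuationSubring Ω, w ≠ ⊤ → (∀ x : k, algebraMap K Ω (algebraMap k K x) ∈ w) →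
    ∀ (j : ℕ) (Q : A),
    (∀ s ∈ w.decompositionSubgroup K, chi s = 0 → l ^ j • (s • Q - Q) = 0) →
    ∃ Q' : lPow l A, ∀ s ∈ w.decompositionSubgroup K, chi s = 0 → s • Q - Q = s • (Q' : A) - Q'

/-- The Selmer cocycles of block L are those of the Galois module over `L`. -/
theorem equivL [Algebra k Ω] [IsScalarTower k K Ω] [IsGalois K Ω] (hB : BrH k l S.NN S.D) (hchi : S.HomG chi)
    (hact : ∀ i : ℕ, ∃ N ∈ S.NN, ∀ s ∈ N, ∀ P : A, l ^ i • P = 0 → s • P = P)
    (hE6 : E6c k l A chi) (L : IntermediateField K Ω) [FiniteDimensional K L]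
    (hL : ∀ s, s ∈ L.fixingSubgroup ↔ chi s = 0) (i : ℕ) :
    Nonempty ({c // IsL S chi i c} ≃ ZSel k (rhL (rh A) L) (l ^ i)) := by
  have h0 : ∀ s : Ω ≃ₐ[L] Ω, chi (s.restrictScalars K) = 0 := fun s => (hL _).1 (res_mem s)
  have halg : ∀ c : k, algebraMap L Ω (algebraMap k L c) = algebraMap K Ω (algebraMap k K c) :=
    fun c => by
      rw [← IsScalarTower.algebraMap_apply k K Ω]
      rfl
  have hchi1 : chi 1 = 0 := (hL 1).1 (one_mem _)
  let Φ : {c // IsL S chi i c} → ZSel k (rhL (rh A) L) (l ^ i) := fun c =>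
    ⟨fun s => (c.1 (s.restrictScalars K) : A), by
      refine ⟨fun s t => ?_, fun s => ?_, ?_, fun w hw hc => ?_⟩
      · rw [res_mul, c.2.coc _ _ (h0 s) (h0 t), AddSubgroup.coe_add, val_smul]
        rfl
      · exact congrArg Subtype.val (c.2.lev _)
      · obtain ⟨N, hN, hN0, h1⟩ := c.2.tf
        obtain ⟨F, hF, hFN⟩ := exists_fix_le (hB.fam.isOpen N hN)
        have hLF : L ≤ L ⊔ F := le_sup_left
        refine ⟨IntermediateField.extendScalars hLF, ?_, fun s t hst => ?_⟩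
        · have h2 : FiniteDimensional K (L ⊔ F : IntermediateField K Ω) :=
            IntermediateField.finiteDimensional_sup L F
          have h3 : FiniteDimensional K (IntermediateField.extendScalars hLF) := h2
          exact FiniteDimensional.right K L (IntermediateField.extendScalars hLF)
        · have h2 : (s.restrictScalars K)⁻¹ * t.restrictScalars K ∈ N := by
            apply hFN
            intro x hx
            have h3 := hst x (le_sup_right (a := L) (b := F) hx)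
            rw [AlgEquiv.mul_apply]
            change (s.restrictScalars K)⁻¹ (t x) = x
            rw [← h3]
            change ((s.restrictScalars K)⁻¹ * (s.restrictScalars K)) x = x
            rw [inv_mul_cancel, AlgEquiv.one_apply]
          have h3 := h1 _ (h0 s) _ h2
          rw [mul_inv_cancel_left] at h3
          rw [h3]
      · have hc' : ∀ c : k, algebraMap K Ω (algebraMap k K c) ∈ w := fun c => by
          rw [← halg c]
          exact hc c
        obtain ⟨v, σ, hσ⟩ := hB.conj w hw hc'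
        obtain ⟨Q, hQ⟩ := c.2.loc v σ⁻¹
        refine ⟨Q, fun s hs => ?_⟩
        have h2 := hQ (s.restrictScalars K) (h0 s) (by
          rw [inv_inv]
          exact hσ _ ((mem_dec_res s).1 hs))
        rw [h2, AddSubgroup.coe_sub, val_smul]
        rfl⟩
  refine ⟨Equiv.ofBijective Φ ⟨fun c c' h => ?_, fun ψ => ?_⟩⟩
  · apply Subtype.ext
    funext s
    by_cases hs : chi s = 0
    · have h1 := congrFun (congrArg Subtype.val h) (liftL s ((hL s).2 hs))
      exact Subtype.ext h1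
    · rw [c.2.supp s hs, c'.2.supp s hs]
  · have hψ := ψ.2
    have hmem : ∀ s : Ω ≃ₐ[L] Ω, ψ.1 s ∈ lPow l A := fun s => ⟨i, hψ.tors s⟩
    classical
    let c : (Ω ≃ₐ[K] Ω) → lPow l A := fun s =>
      if h : chi s = 0 then ⟨ψ.1 (liftL s ((hL s).2 h)), hmem _⟩ else 0
    have hcv : ∀ s (h : chi s = 0), (c s : A) = ψ.1 (liftL s ((hL s).2 h)) := fun s h => by
      change ((if h : chi s = 0 then (⟨ψ.1 (liftL s ((hL s).2 h)), hmem _⟩ : lPow l A) else 0 :
        lPow l A) : A) = _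
      rw [dif_pos h]
    have hc0 : ∀ s, chi s ≠ 0 → c s = 0 := fun s h => dif_neg h
    have hcoc : ∀ s t, chi s = 0 → chi t = 0 → (c (s * t) : A) = c s + s • (c t : A) := by
      intro s t hs ht
      have hst : chi (s * t) = 0 := by rw [hchi.2, hs, ht, add_zero]
      have hm : liftL (s * t) ((hL _).2 hst) = liftL s ((hL s).2 hs) * liftL t ((hL t).2 ht) :=
        AlgEquiv.ext fun _ => rfl
      rw [hcv _ hst, hcv _ hs, hcv _ ht, hm]
      exact hψ.cocycle _ _
    have hlev : ∀ s, chi s = 0 → l ^ i • (c s : A) = 0 := fun s hs => by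
      rw [hcv s hs]
      exact hψ.tors _
    have hN0 : ∃ N ∈ S.NN, ∀ n ∈ N, chi n = 0 := by
      obtain ⟨N', hN', h2⟩ := hchi.1
      exact ⟨N', hN', fun n hn => by
        have h4 := h2 1 n hn
        rw [one_mul] at h4
        rw [h4, hchi1]⟩
    have hIs : IsL S chi i c := by
      refine ⟨hc0, ?_, fun s t hs ht => Subtype.ext (hcoc s t hs ht), fun s => ?_, fun v g => ?_⟩
      · obtain ⟨N, hN, h1, h2⟩ := level_mem hB.fam hchi.2 hN0 (hact i) (c := fun s => (c s : A))
          hcoc hlev (by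
            obtain ⟨F, hF, h3⟩ := hψ.cont
            refine ⟨F.restrictScalars K, ?_, fun s t hs ht hst => ?_⟩
            · have : FiniteDimensional K F := FiniteDimensional.trans K L F
              exact this
            · rw [hcv s hs, hcv t ht]
              exact h3 _ _ fun x hx => hst x hx)
        exact ⟨N, hN, h1, fun s hs n hn => Subtype.ext (h2 s hs n hn)⟩
      · by_cases hs : chi s = 0
        · exact Subtype.ext (hlev s hs)
        · rw [hc0 s hs, smul_zero]
      · obtain ⟨w, hw, hc, hD⟩ := hB.pl v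
        obtain ⟨w', hw', hc', hconj⟩ := conj_place hw hc g
        obtain ⟨Q, hQ⟩ := hψ.loc w' hw' fun c => by
          rw [halg c]
          exact hc' c
        have hQ' : ∀ s ∈ w'.decompositionSubgroup K, chi s = 0 → (c s : A) = s • Q - Q := by
          intro s hs h
          rw [hcv s h, hQ (liftL s ((hL s).2 h)) ((mem_dec_res _).2 hs)]
          rfl
        obtain ⟨Q', h1⟩ := hE6 w' hw' hc' i Q fun s hs h => by
          rw [← hQ' s hs h]
          exact hlev s h
        refine ⟨Q', fun s h hs => ?_⟩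
        rw [hD] at hs
        have hs' := (hconj s).1 hs
        apply Subtype.ext
        rw [hQ' s hs' h, h1 s hs' h]
        rfl
    refine ⟨⟨c, hIs⟩, Subtype.ext (funext fun s => ?_)⟩
    change (c (s.restrictScalars K) : A) = ψ.1 s
    rw [hcv _ (h0 s)]
    congr 1

/-- The Selmer cocycles of block L over `K` are those of the Galois module over `K`. -/
theorem equivK [IsGalois K Ω] (hS : S.Ok) (hB : BrH k l S.NN S.D)
    (hact : ∀ i : ℕ, ∃ N ∈ S.NN, ∀ s ∈ N, ∀ P : A, l ^ i • P = 0 → s • P = P)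
    (hE6 : E6c k l A (fun _ : Ω ≃ₐ[K] Ω => (0 : ZMod l))) (i : ℕ) :
    Nonempty ({b // IsK S i b} ≃ ZSel k (rh A : (Ω ≃ₐ[K] Ω) → A →+ A) (l ^ i)) := by
  let Φ : {b // IsK S i b} → ZSel k (rh A : (Ω ≃ₐ[K] Ω) → A →+ A) (l ^ i) := fun c =>
    ⟨fun s => (c.1 s : A), by
      refine ⟨fun s t => ?_, fun s => ?_, ?_, fun w hw hc => ?_⟩
      · rw [c.2.coc s t, AddSubgroup.coe_add, val_smul]
        rfl
      · exact congrArg Subtype.val (c.2.lev _)
      · obtain ⟨N, hN, h1⟩ := c.2.tf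
        obtain ⟨F, hF, hFN⟩ := exists_fix_le (hB.fam.isOpen N hN)
        refine ⟨F, hF, fun s t hst => ?_⟩
        have h2 : s⁻¹ * t ∈ N := by
          apply hFN
          intro x hx
          rw [AlgEquiv.mul_apply, ← hst x hx, ← AlgEquiv.mul_apply, inv_mul_cancel,
            AlgEquiv.one_apply]
        have h3 := h1 s _ h2
        rw [mul_inv_cancel_left] at h3
        rw [h3]
      · obtain ⟨v, σ, hσ⟩ := hB.conj w hw hc
        obtain ⟨Q, hQ⟩ := c.2.loc v
        refine ⟨σ⁻¹ • (Q : A) - c.1 σ⁻¹, fun s hs => ?_⟩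
        have h1 := hQ _ (hσ s hs)
        have h2 : s = σ⁻¹ * (σ * s * σ⁻¹) * σ := by group
        have hone : c.1 1 = 0 := by
          have h := c.2.coc 1 1
          rw [mul_one, one_smul] at h
          exact left_eq_add.1 h
        have h3 : c.1 σ = -(σ • c.1 σ⁻¹) := by
          have h := c.2.coc σ σ⁻¹
          rw [mul_inv_cancel, hone] at h
          exact eq_neg_of_add_eq_zero_left h.symm
        have h4 : c.1 s = c.1 σ⁻¹ + σ⁻¹ • ((σ * s * σ⁻¹) • Q - Q) +
            (σ⁻¹ * (σ * s * σ⁻¹)) • -(σ • c.1 σ⁻¹) := by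
          conv_lhs => rw [h2]
          rw [c.2.coc, c.2.coc, h1, h3]
        have h5 : σ⁻¹ * (σ * s * σ⁻¹) = s * σ⁻¹ := by group
        rw [h5, smul_neg, smul_smul, inv_mul_cancel_right, smul_sub, smul_smul, h5] at h4
        have h6 := congrArg (fun z : lPow l A => (z : A)) h4
        simp only [AddSubgroup.coe_add, AddSubgroup.coe_sub, NegMemClass.coe_neg, val_smul] at h6
        rw [h6]
        change _ = s • (σ⁻¹ • (Q : A) - c.1 σ⁻¹) - (σ⁻¹ • (Q : A) - c.1 σ⁻¹)
        rw [smul_sub, smul_smul]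
        abel⟩
  refine ⟨Equiv.ofBijective Φ ⟨fun c c' h => ?_, fun ψ => ?_⟩⟩
  · apply Subtype.ext
    funext s
    exact Subtype.ext (congrFun (congrArg Subtype.val h) s)
  · have hψ := ψ.2
    have hmem : ∀ s : Ω ≃ₐ[K] Ω, ψ.1 s ∈ lPow l A := fun s => ⟨i, hψ.tors s⟩
    let c : (Ω ≃ₐ[K] Ω) → lPow l A := fun s => ⟨ψ.1 s, hmem s⟩
    have hIs : IsK S i c := by
      refine ⟨?_, fun s t => Subtype.ext (hψ.cocycle s t), fun s => Subtype.ext (hψ.tors s),
        fun v => ?_⟩
      · obtain ⟨N, hN, -, h2⟩ := level_mem (chi := fun _ : Ω ≃ₐ[K] Ω => (0 : ZMod l)) hB.fam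
          (fun _ _ => (add_zero 0).symm) ⟨⊤, hS.top_mem, fun _ _ => rfl⟩ (hact i)
          (c := fun s => ψ.1 s) (fun s t _ _ => hψ.cocycle s t) (fun s _ => hψ.tors s) (by
            obtain ⟨F, hF, h3⟩ := hψ.cont
            exact ⟨F, hF, fun s t _ _ hst => h3 s t hst⟩)
        exact ⟨N, hN, fun s n hn => Subtype.ext (h2 s rfl n hn)⟩
      · obtain ⟨w, hw, hc, hD⟩ := hB.pl v
        obtain ⟨Q, hQ⟩ := hψ.loc w hw hc
        obtain ⟨Q', h1⟩ := hE6 w hw hc i Q fun s hs _ => by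
          have := hQ s hs
          change ψ.1 s = s • Q - Q at this
          rw [← this]
          exact hψ.tors s
        refine ⟨Q', fun s hs => ?_⟩
        rw [hD] at hs
        apply Subtype.ext
        have h2 : ψ.1 s = s • Q - Q := hQ s hs
        change ψ.1 s = _
        rw [h2, h1 s hs rfl]
        rfl
    exact ⟨⟨c, hIs⟩, rfl⟩

end main

end Pool.Agent.SmL.Fnl
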