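import Pool.Agent.Lib.SmL.Fnl.BrgL
import Pool.Agent.Lib.SmL.Fld.Std
import Pool.Agent.Lib.SmL.V.Inst
import Pool.Agent.Lib.SmL.V.EDefs
import Pool.Agent.Lib.SmL.E.Has
import Pool.Agent.Lib.SmL.E.LocF
import Pool.Agent.Lib.GBU.PlA

/-!
# SMITH-L, final layer: the hypotheses on the modules

`A` is a module over `Gal(Ω/K)` with `TOk`, `MuU Ω` the units of `Ω`, `B = bK NN w sg ph` the standard
groups. `exists_modOk`: `ModOk` for all large finite sets `T` of places. `brH_of`, `e6c_of`, `kumH_of`: the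
hypotheses of the bridge and of the Kummer argument.
-/

set_option autoImplicit false

namespace Pool.Agent.SmL.Fnl

open Pool.Agent.BSDFF Pool.Agent.Lib.SmD Pool.Agent.GBU
open Pool.Agent.SmJ.L (GMod ZSel)
open Pool.Agent.SmL.L Pool.Agent.SmL.V Pool.Agent.SmL.Fld Pool.Agent.SmL.C

section units

variable {K Ω : Type} [Field K] [Field Ω] [Algebra K Ω]

/-- The units of `Ω`, additively written. -/
def MuU (Ω : Type) [Field Ω] : Type := Additive Ωˣ

instance : AddCommGroup (MuU Ω) := inferInstanceAs (AddCommGroup (Additive Ωˣ))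

instance : DistribMulAction (Ω ≃ₐ[K] Ω) (MuU Ω) where
  smul s u := actU s u
  one_smul _ := Additive.toMul.injective (Units.ext rfl)
  mul_smul _ _ _ := Additive.toMul.injective (Units.ext rfl)
  smul_zero s := map_zero (actU s)
  smul_add s u v := map_add (actU s) u v

/-- The value in `Ω`. -/
def uval (u : MuU Ω) : Ω := ((Additive.toMul (u : Additive Ωˣ) : Ωˣ) : Ω)

theorem uval_inj : Function.Injective (uval : MuU Ω → Ω) := fun _ _ h =>
  Additive.toMul.injective (Units.ext h)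

theorem uval_smul (s : Ω ≃ₐ[K] Ω) (u : MuU Ω) : uval (s • u) = s (uval u) := rfl

theorem uval_add (u v : MuU Ω) : uval (u + v) = uval u * uval v := rfl

theorem uval_zero : uval (0 : MuU Ω) = 1 := rfl

theorem uval_nsmul (n : ℕ) (u : MuU Ω) : uval (n • u) = uval u ^ n := by
  induction n with
  | zero => rw [zero_smul, pow_zero, uval_zero]
  | succ n ih => rw [succ_nsmul, uval_add, ih, pow_succ]

theorem uval_eq_one {n : ℕ} {u : MuU Ω} : n • u = 0 ↔ uval u ^ n = 1 := by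
  rw [← uval_nsmul, ← uval_zero]
  exact ⟨fun h => congrArg uval h, fun h => uval_inj h⟩

/-- The isomorphism of `F_l` onto the `l`-torsion. -/
theorem exists_th {l : ℕ} (hl : l.Prime) {ζ : Ω} (hζ : IsPrimitiveRoot ζ l)
    (hζK : ∃ z : K, algebraMap K Ω z = ζ) :
    ∃ th : ZMod l →+ MuU Ω, ThOk l (Ω ≃ₐ[K] Ω) th := by
  have hne : NeZero l := ⟨hl.ne_zero⟩
  have hζ0 : ζ ≠ 0 := hζ.ne_zero hl.ne_zero
  let z : MuU Ω := Additive.ofMul (Units.mk0 ζ hζ0)
  have hz : uval z = ζ := rfl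
  have hlz : l • z = 0 := by
    rw [uval_eq_one, hz]
    exact hζ.pow_eq_one
  let f : ℤ →+ MuU Ω := zmultiplesHom _ z
  have hf : f l = 0 := by
    change (l : ℤ) • z = 0
    rw [natCast_zsmul, hlz]
  let th : ZMod l →+ MuU Ω := ZMod.lift l ⟨f, hf⟩
  have hth : ∀ n : ℕ, th (n : ZMod l) = n • z := by
    intro n
    have h1 : ((n : ℤ) : ZMod l) = (n : ZMod l) := by push_cast; rfl
    rw [← h1]
    change ZMod.lift l ⟨f, hf⟩ ((n : ℤ) : ZMod l) = _
    rw [ZMod.lift_coe]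
    change (n : ℤ) • z = _
    rw [natCast_zsmul]
  have hval : ∀ a : ZMod l, uval (th a) = ζ ^ a.val := by
    intro a
    conv_lhs => rw [← ZMod.natCast_zmod_val a]
    rw [hth, uval_nsmul, hz]
  refine ⟨th, fun a b hab => ?_, fun u hu => ?_, fun s a => ?_⟩
  · have h1 : ζ ^ a.val = ζ ^ b.val := by rw [← hval, ← hval, hab]
    exact ZMod.val_injective _ (hζ.pow_inj (ZMod.val_lt a) (ZMod.val_lt b) h1)
  · rw [uval_eq_one] at hu
    obtain ⟨i, hi, h1⟩ := hζ.eq_pow_of_pow_eq_one hu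
    refine ⟨(i : ZMod l), uval_inj ?_⟩
    rw [hth, uval_nsmul, hz, h1]
  · apply uval_inj
    rw [uval_smul, hval, map_pow]
    obtain ⟨y, hy⟩ := hζK
    rw [← hy, s.commutes]

/-- Inertia groups act trivially on the roots of unity of order prime to the characteristic. -/
theorem iner_root {w : ValuationSubring Ω} {n : ℕ} (hn : w.valuation (n : Ω) = 1)
    {s : Ω ≃ₐ[K] Ω} (hs : s ∈ iner K w) {ζ : Ω} (hζ : ζ ^ n = 1) : s ζ = ζ := by
  have hn0 : n ≠ 0 := by
    rintro rfl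
    rw [Nat.cast_zero, map_zero] at hn
    exact zero_ne_one hn
  have hv : w.valuation ζ = 1 := by
    have h := congrArg w.valuation hζ
    rw [map_pow, map_one] at h
    exact (pow_left_inj₀ zero_le zero_le hn0).mp (by rw [h, one_pow])
  have hζ0 : ζ ≠ 0 := by
    rintro rfl
    rw [map_zero] at hv
    exact zero_ne_one hv
  have hζw : ζ ∈ w := (ValuationSubring.valuation_le_one_iff w _).1 hv.le
  have h1 := hs.2 ζ hζw
  by_contra hne
  -- the product of the `1 - c ^ i`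
  set c := s ζ / ζ with hc
  have hcn : c ^ n = 1 := by rw [hc, div_pow, ← map_pow, hζ, map_one, div_one]
  have hc1 : c - 1 ≠ 0 := by
    intro h
    rw [sub_eq_zero, hc, div_eq_one_iff_eq hζ0] at h
    exact hne h
  have hcv : w.valuation (c - 1) < 1 := by
    have h2 : c - 1 = (s ζ - ζ) / ζ := by rw [hc, sub_div, div_self hζ0]
    rw [h2, map_div₀, hv, div_one]
    exact h1
  have e := mul_geom_sum c n
  rw [hcn, sub_self] at e
  have h3 : ∑ i ∈ Finset.range n, c ^ i = 0 := (mul_eq_zero.1 e).resolve_left hc1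
  have hcw : w.valuation c = 1 := by
    have h := congrArg w.valuation hcn
    rw [map_pow, map_one] at h
    exact (pow_left_inj₀ zero_le zero_le hn0).mp (by rw [h, one_pow])
  have h4 : ∀ i : ℕ, w.valuation (c ^ i - 1) < 1 := by
    intro i
    rw [← mul_geom_sum c i, map_mul]
    refine mul_lt_one_of_lt_of_le hcv ?_
    refine w.valuation.map_sum_le fun j _ => ?_
    rw [map_pow, hcw, one_pow]
  have h5 : w.valuation (∑ i ∈ Finset.range n, (c ^ i - 1)) < 1 :=
    w.valuation.map_sum_lt one_ne_zero fun j _ => h4 j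
  rw [Finset.sum_sub_distrib, h3, Finset.sum_const, Finset.card_range, nsmul_eq_mul, mul_one,
    zero_sub, Valuation.map_neg, hn] at h5
  exact lt_irrefl _ h5

end units

section act

variable {K Ω : Type} [Field K] [Field Ω] [Algebra K Ω] {l : ℕ} {A : Type} [AddCommGroup A]
  [DistribMulAction (Ω ≃ₐ[K] Ω) A] {NN : Set (Subgroup (Ω ≃ₐ[K] Ω))}

/-- Powers of an element which is trivial on `A[l]`. -/
theorem pow_triv {s : Ω ≃ₐ[K] Ω} (h : ∀ P : A, l • P = 0 → s • P = P) (n : ℕ) :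
    ∀ P : A, l ^ (n + 1) • P = 0 → (s ^ l ^ n) • P = P := by
  induction n with
  | zero =>
    intro P hP
    rw [pow_zero, pow_one]
    exact h P (by rwa [zero_add, pow_one] at hP)
  | succ n ih =>
    intro P hP
    set u := s ^ l ^ n with hu
    have h1 : l ^ (n + 1) • (u • P - P) = 0 := by
      have h2 : n + 1 + (n + 1) = n + (n + 1 + 1) := by omega
      have h3 : l ^ (n + 1) • (l ^ (n + 1) • P) = 0 := by
        rw [← mul_smul, ← pow_add, h2, pow_add, mul_smul, hP, smul_zero]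
      rw [smul_sub, ← smul_comm u, ih _ h3, sub_self]
    have h2 : l • (u • P - P) = 0 := by
      have h3 : l ^ (n + 1) • (l • P) = 0 := by rw [← mul_smul, ← pow_succ, hP]
      rw [smul_sub, ← smul_comm u, ih _ h3, sub_self]
    have h3 : u • (u • P - P) = u • P - P := ih _ h1
    have h4 : ∀ a : ℕ, (u ^ a) • P = P + a • (u • P - P) := by
      intro a
      induction a with
      | zero => rw [pow_zero, one_smul, zero_smul, add_zero]
      | succ a iha =>
        have h5 : u • (a • (u • P - P)) = a • (u • P - P) := by rw [smul_comm, h3]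
        rw [pow_succ', mul_smul, iha, smul_add, h5, succ_nsmul]
        abel
    rw [pow_succ, pow_mul, ← hu, h4, h2, add_zero]

variable (K Ω) in
/-- The elements which act trivially on `A[l ^ n]`. -/
def trivS (l n : ℕ) (A : Type) [AddCommGroup A] [DistribMulAction (Ω ≃ₐ[K] Ω) A] :
    Subgroup (Ω ≃ₐ[K] Ω) where
  carrier := {s | ∀ P : A, l ^ n • P = 0 → s • P = P}
  one_mem' := fun P _ => one_smul _ P
  mul_mem' {s t} hs ht := fun P hP => by rw [mul_smul, ht P hP, hs P hP]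
  inv_mem' {s} hs := fun P hP => by
    conv_lhs => rw [← hs P hP]
    rw [inv_smul_smul]

theorem trivS_normal (n : ℕ) : (trivS K Ω l n A).Normal := ⟨fun s hs g P hP => by
  have h1 : l ^ n • (g⁻¹ • P) = 0 := by rw [smul_comm, hP, smul_zero]
  rw [mul_smul, mul_smul, hs _ h1, smul_inv_smul]⟩

theorem trivS_open {n : ℕ} (hfin : Finite {P : A // l ^ n • P = 0})
    (hlev : ∀ P : A, ∃ L : IntermediateField K Ω, FiniteDimensional K L ∧
      ∀ s t : Ω ≃ₐ[K] Ω, (∀ x ∈ L, s x = t x) → s • P = t • P) :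
    IsOpen (trivS K Ω l n A : Set (Ω ≃ₐ[K] Ω)) := by
  choose L hL hLs using hlev
  have h1 : (⨅ P : {P : A // l ^ n • P = 0}, (L P.1).fixingSubgroup) ≤ trivS K Ω l n A := by
    intro s hs P hP
    rw [Subgroup.mem_iInf] at hs
    have h2 := hs ⟨P, hP⟩
    rw [IntermediateField.mem_fixingSubgroup_iff] at h2
    have h3 := hLs P s 1 fun x hx => h2 x hx
    rwa [one_smul] at h3
  refine Subgroup.isOpen_mono h1 ?_
  rw [Subgroup.coe_iInf]
  exact isOpen_iInter_of_finite fun P => by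
    have := hL P.1
    exact (L P.1).fixingSubgroup_isOpen

theorem act_fin_of (hF : FamE l NN) (hfin : ∀ n : ℕ, Finite {P : A // l ^ n • P = 0})
    (hlev : ∀ P : A, ∃ L : IntermediateField K Ω, FiniteDimensional K L ∧
      ∀ s t : Ω ≃ₐ[K] Ω, (∀ x ∈ L, s x = t x) → s • P = t • P)
    (h1 : ∃ N ∈ NN, ∀ s ∈ N, ∀ P : A, l • P = 0 → s • P = P) (n : ℕ) :
    ∃ N ∈ NN, ∀ s ∈ N, ∀ P : A, l ^ n • P = 0 → s • P = P := by
  obtain ⟨N1, hN1, h1⟩ := h1
  have hn1 := hF.normal N1 hN1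
  have hn2 := trivS_normal (K := K) (Ω := Ω) (l := l) (A := A) n
  refine ⟨N1 ⊓ trivS K Ω l n A, hF.ext N1 hN1 _ inferInstance ?_ inf_le_left fun s hs => ?_,
    fun s hs => hs.2⟩
  · rw [Subgroup.coe_inf]
    exact (hF.isOpen N1 hN1).inter (trivS_open (hfin n) hlev)
  · refine ⟨n, N1.pow_mem hs _, fun P hP => ?_⟩
    exact pow_triv (h1 s hs) n P (by rw [pow_succ', mul_smul, hP, smul_zero])

end act

section main

variable {k K Ω : Type} [Field k] [Finite k] [Field K] [Algebra k K] [Algebra (RatFunc k) K]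
  [IsScalarTower k (RatFunc k) K] [FiniteDimensional (RatFunc k) K]
  [Algebra.IsSeparable (RatFunc k) K] [Field Ω] [Algebra K Ω] [IsSepClosure K Ω]
  {l : ℕ} {ζ : Ω} {NN : Set (Subgroup (Ω ≃ₐ[K] Ω))} {w : Place k K → ValuationSubring Ω}
  {sg ph : Place k K → Ω ≃ₐ[K] Ω}

omit [Finite k] [Algebra k K] [Algebra (RatFunc k) K] [IsScalarTower k (RatFunc k) K]
  [FiniteDimensional (RatFunc k) K] [Algebra.IsSeparable (RatFunc k) K] [IsSepClosure K Ω] in
theorem famE_of (h : FamL k l NN) : FamE l NN := ⟨h.normal, h.isOpen, h.inf_mem, h.ext⟩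

omit [Finite k] [Algebra (RatFunc k) K] [IsScalarTower k (RatFunc k) K]
  [FiniteDimensional (RatFunc k) K] [Algebra.IsSeparable (RatFunc k) K] [IsSepClosure K Ω] in
theorem wv_ne_top (hS : Std l ζ NN w sg ph) (v : Place k K) : w v ≠ ⊤ := by
  intro h
  have h1 : v.ring = ⊤ := by
    rw [← hS.loc.below v, h]
    ext x
    simp
  have h2 := v.dvr
  obtain ⟨π, hπ⟩ := IsDiscreteValuationRing.exists_irreducible v.ring
  apply hπ.not_isUnit
  have h3 : (π : K) ≠ 0 := fun h => hπ.ne_zero (Subtype.ext h)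
  have h4 : ∀ x : K, x ∈ v.ring := by
    intro x
    rw [h1]
    trivial
  exact IsUnit.of_mul_eq_one ⟨(π : K)⁻¹, h4 _⟩ (Subtype.ext (mul_inv_cancel₀ h3))

theorem brH_of (hS : Std l ζ NN w sg ph) : BrH k l NN (fun v => dec K (w v)) where
  fam := famE_of hS.fam
  pl v := ⟨w v, wv_ne_top hS v, fun c => const_mem_of_finite ((algebraMap K Ω).comp
    (algebraMap k K)) _ c, rfl⟩
  conj w' hw' _ := by
    have halg : Algebra.IsAlgebraic K Ω := inferInstance
    obtain ⟨v, hv⟩ := exists_place_below k K w' hw'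
    obtain ⟨σ, hσ⟩ := Pool.Agent.Lib.SmD.conj K w' (w v) (by rw [hS.loc.below]; exact hv.symm)
    refine ⟨v, σ, fun s hs => ?_⟩
    have hs' := (mem_dec K).mp hs
    refine (mem_dec K).mpr fun x => ?_
    rw [AlgEquiv.mul_apply, AlgEquiv.mul_apply, hσ, hs', ← hσ, ← AlgEquiv.mul_apply,
      mul_inv_cancel, AlgEquiv.one_apply]

variable {A : Type} [AddCommGroup A] [DistribMulAction (Ω ≃ₐ[K] Ω) A]

omit [Finite k] [Algebra (RatFunc k) K] [IsScalarTower k (RatFunc k) K]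
  [FiniteDimensional (RatFunc k) K] [Algebra.IsSeparable (RatFunc k) K] [IsSepClosure K Ω] in
theorem act_fin_tok (hF : FamE l NN)
    (hT : TOk k l (rh A : (Ω ≃ₐ[K] Ω) → A →+ A))
    (h1 : ∃ N ∈ NN, ∀ s ∈ N, ∀ P : A, l • P = 0 → s • P = P) (n : ℕ) :
    ∃ N ∈ NN, ∀ s ∈ N, ∀ P : A, l ^ n • P = 0 → s • P = P := by
  exact act_fin_of hF (fun n => hT.fin n) (fun P => hT.gmod.level P) h1 n

omit [Algebra.IsSeparable (RatFunc k) K] in
private theorem Mod_qK (v : Place k K) : resCard v.ring = Nat.card k ^ v.degree := by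
  let _ := v.constMap.toAlgebra
  have := Pool.Agent.BSDK.residue_finite v
  exact Module.natCard_eq_pow_finrank (K := k) (V := IsLocalRing.ResidueField v.ring)

omit [IsSepClosure K Ω] in
/-- The kernel of a homomorphism of finite level is open. -/
theorem ker_open (hF : FamE l NN) {chi : (Ω ≃ₐ[K] Ω) → ZMod l}
    (h1 : ∃ N ∈ NN, ∀ s, ∀ n ∈ N, chi (s * n) = chi s) (h2 : ∀ s t, chi (s * t) = chi s + chi t) :
    ∃ U : Subgroup (Ω ≃ₐ[K] Ω), IsOpen (U : Set (Ω ≃ₐ[K] Ω)) ∧ ∀ s, s ∈ U ↔ chi s = 0 := by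
  have h3 : chi 1 = 0 := by
    have := h2 1 1
    rw [mul_one] at this
    exact left_eq_add.1 this
  let U : Subgroup (Ω ≃ₐ[K] Ω) :=
    { carrier := {s | chi s = 0}
      one_mem' := h3
      mul_mem' := by
        intro a b ha hb
        change chi (a * b) = 0
        rw [h2, ha, hb, add_zero]
      inv_mem' := by
        intro a ha
        change chi a⁻¹ = 0
        have h4 := h2 a a⁻¹
        have ha' : chi a = 0 := ha
        rw [mul_inv_cancel, h3, ha', zero_add] at h4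
        exact h4.symm }
  obtain ⟨N, hN, h4⟩ := h1
  refine ⟨U, Subgroup.isOpen_mono (H₁ := N) (fun n hn => ?_) (hF.isOpen N hN), fun s => Iff.rfl⟩
  have h5 := h4 1 n hn
  rw [one_mul, h3] at h5
  exact h5

omit [Algebra.IsSeparable (RatFunc k) K] [IsSepClosure K Ω] in
/-- **The hypotheses on the modules.** -/
theorem exists_modOk (hl : l.Prime) (hlk : (l : k) ≠ 0) (hS : Std l ζ NN w sg ph)
    (hT : TOk k l (rh A : (Ω ≃ₐ[K] Ω) → A →+ A))
    (h1 : ∃ N ∈ NN, ∀ s ∈ N, ∀ P : A, l • P = 0 → s • P = P) :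
    ∃ T0 : Finset (Place k K), ∀ T, T0 ⊆ T → ModOk l A (MuU Ω) (bK NN w sg ph) T := by
  classical
  obtain ⟨T1, hT1, h2⟩ := hT.triv
  have hF := famE_of hS.fam
  have hval : ∀ (v : Place k K) (n : ℕ), (w v).valuation ((l ^ n : ℕ) : Ω) = 1 := by
    intro v n
    rw [Nat.cast_pow, map_pow, Pool.Agent.SmL.E.val_unit k K (w v) hlk, one_pow]
  refine ⟨hT1.toFinset, fun T hTT => ⟨hT.div, ?_, act_fin_tok hF hT h1, fun v hv P hP => ?_,
    fun chi h3 h4 v => ?_, fun v u hu => ?_, fun v u hu => ?_⟩⟩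
  · have h3 : Finite {P : A // l ^ 1 • P = 0} := hT.fin 1
    refine Finite.of_injective (fun x : L1 l A => (⟨inc1 l A x, by
      rw [pow_one]; exact inc1_l x⟩ : {P : A // l ^ 1 • P = 0})) fun x y hxy => ?_
    exact inc1_inj (congrArg (fun z : {P : A // l ^ 1 • P = 0} => z.1) hxy)
  · have hv' : v ∉ T1 := fun h => hv (hTT (hT1.mem_toFinset.2 h))
    exact h2 v hv' (w v) (wv_ne_top hS v) (hS.loc.below v) _ (hS.loc.iner v) P hP
  · obtain ⟨U, hU, h5⟩ := ker_open hF h3 h4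
    refine (hT.fix (w v) (wv_ne_top hS v) (fun c => const_mem_of_finite ((algebraMap K Ω).comp
      (algebraMap k K)) _ c) U hU).subset ?_
    rintro P ⟨hP, h6⟩
    exact ⟨hP, fun s hs hsU => h6 s hs ((h5 s).1 hsU)⟩
  · obtain ⟨n, hn⟩ := hu
    apply uval_inj
    exact iner_root (hval v n) (hS.loc.iner v) (uval_eq_one.1 hn)
  · obtain ⟨n, hn⟩ := hu
    apply uval_inj
    rw [uval_smul]
    change ph v (uval u) = uval ((Nat.card k ^ v.degree) • u)
    have h3 := Pool.Agent.SmL.E.frob_zeta (hS.frob v) (hval v n) (uval_eq_one.1 hn)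
    rw [uval_nsmul, h3, hS.loc.below v, Mod_qK]

omit [Finite k] [Algebra (RatFunc k) K] [IsScalarTower k (RatFunc k) K]
  [FiniteDimensional (RatFunc k) K] [Algebra.IsSeparable (RatFunc k) K] [IsSepClosure K Ω] in
theorem e6c_of (hF : FamE l NN) (hT : TOk k l (rh A : (Ω ≃ₐ[K] Ω) → A →+ A))
    {chi : (Ω ≃ₐ[K] Ω) → ZMod l} (h1 : ∃ N ∈ NN, ∀ s, ∀ n ∈ N, chi (s * n) = chi s)
    (h2 : ∀ s t, chi (s * t) = chi s + chi t) : E6c k l A chi := by
  intro w' hw' hc j Q hQ
  obtain ⟨U, hU, h5⟩ := ker_open hF h1 h2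
  obtain ⟨Q', hQ', h6⟩ := hT.e6 w' hw' hc U hU j Q fun s hs hsU => hQ s hs ((h5 s).1 hsU)
  exact ⟨⟨Q', hQ'⟩, fun s hs h0 => h6 s hs ((h5 s).2 h0)⟩

end main

section kum

variable {k K Ω : Type} [Field k] [Field K] [Algebra k K] [Field Ω] [Algebra K Ω] [IsGalois K Ω]
  {l : ℕ} {A V1 Pl : Type} [AddCommGroup A] [DistribMulAction (Ω ≃ₐ[K] Ω) A]
  [AddCommGroup V1] [Module (ZMod l) V1]
  {S : Sys l (AA l) (Ω ≃ₐ[K] Ω) (VM l (lPow l A)) V1 Pl} {chi : (Ω ≃ₐ[K] Ω) → ZMod l}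

theorem kumH_of (hB : BrH k l S.NN S.D) (hchi : S.HomG chi)
    (hT : TOk k l (rh A : (Ω ≃ₐ[K] Ω) → A →+ A))
    (hact : ∀ i : ℕ, ∃ N ∈ S.NN, ∀ s ∈ N, ∀ P : A, l ^ i • P = 0 → s • P = P) : KumH S chi where
  div := hT.div
  e6 v g j Q hQ := by
    obtain ⟨w, hw, hc, hD⟩ := hB.pl v
    obtain ⟨w', hw', hc', hconj⟩ := conj_place hw hc g
    rw [hD] at hQ ⊢
    obtain ⟨Q', hQ'⟩ := e6c_of hB.fam hT hchi.1 hchi.2 w' hw' hc' j Q fun s hs h0 =>
      hQ s h0 ((hconj s).2 hs)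
    exact ⟨Q', fun s h0 hs => hQ' s ((hconj s).1 hs) h0⟩
  lev j Q hQ := by
    have hchi1 : chi 1 = 0 := by
      have := hchi.2 1 1
      rw [mul_one] at this
      exact left_eq_add.1 this
    have hN0 : ∃ N ∈ S.NN, ∀ n ∈ N, chi n = 0 := by
      obtain ⟨N', hN', h2⟩ := hchi.1
      exact ⟨N', hN', fun n hn => by
        have h4 := h2 1 n hn
        rw [one_mul] at h4
        rw [h4, hchi1]⟩
    obtain ⟨N, hN, h1, h2⟩ := level_mem hB.fam hchi.2 hN0 (hact j) (c := fun s => s • Q - Q)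
      (fun s t _ _ => by rw [smul_sub, mul_smul]; abel) (fun s hs => hQ s hs) (by
        obtain ⟨F, hF, h3⟩ := hT.gmod.level Q
        refine ⟨F, hF, fun s t _ _ hst => ?_⟩
        have h4 : s • Q = t • Q := h3 s t hst
        rw [h4])
    refine ⟨N, hN, h1, fun n hn => ?_⟩
    have h3 := h2 1 hchi1 n hn
    rw [one_mul, one_smul, sub_self] at h3
    exact sub_eq_zero.1 h3

end kum

end Pool.Agent.SmL.Fnl
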