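import Pool.Agent.Lib.Sm.L.Stmt
import Pool.Agent.Lib.SmJ.L.SelDefs

/-!
# SMITH-L: the definitions of the final statements

`K` is a field with a subfield `k` of constants, `Ω` a separable closure of `K`, `l` a prime.
-/

set_option autoImplicit false

open WeierstrassCurve

namespace Pool.Agent.SmL.Fnl

open Pool.Agent.BSDFF

section cyc

variable {k K Ω : Type} [Field k] [Field K] [Algebra k K] [Field Ω] [Algebra K Ω]

/-- `s` is in the inertia group of the place `w` of `Ω`. -/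
def Iner (w : ValuationSubring Ω) (s : Ω ≃ₐ[K] Ω) : Prop :=
  (∀ x, s x ∈ w ↔ x ∈ w) ∧ ∀ x ∈ w, w.valuation (s x - x) < 1

/-- The place `v` of `K` is unramified in the Galois extension `L`: the inertia groups of the places
of `Ω` above `v` act trivially on `L`. -/
def UnrIn (v : Place k K) (L : IntermediateField K Ω) : Prop :=
  ∀ w : ValuationSubring Ω, w.comap (algebraMap K Ω) = v.ring →
    ∀ s : Ω ≃ₐ[K] Ω, Iner w s → ∀ x ∈ L, s x = x

open scoped Classical in
/-- The sum of the degrees of the finitely many places which are ramified in `L`. -/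
noncomputable def ramDeg (k : Type) {K Ω : Type} [Field k] [Field K] [Algebra k K] [Field Ω]
    [Algebra K Ω] (L : IntermediateField K Ω) : ℕ :=
  ∑ᶠ v : Place k K, if UnrIn v L then 0 else v.degree

/-- The cyclic extensions of degree `l` of `K` in `Ω` whose ramified places have total degree at most
`n`. -/
def Cyc (k : Type) {K : Type} (Ω : Type) [Field k] [Field K] [Algebra k K] [Field Ω]
    [Algebra K Ω] (l n : ℕ) : Set (IntermediateField K Ω) :=
  {L | (IsGalois K L ∧ Module.finrank K L = l) ∧ ramDeg k L ≤ n}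

end cyc

section ec

variable (k : Type) {F : Type} (Ω : Type) [Field k] [Field F] [Algebra k F] [Field Ω] [Algebra F Ω]

open scoped Classical in
/-- The group `W(F)` is finitely generated. -/
def FgPts {F : Type} [Field F] (W : WeierstrassCurve F) : Prop := Module.Finite ℤ W.toAffine.Point

/-- The `n`-Selmer group of the elliptic curve `W` over `F` is finite. -/
def SelFin (W : WeierstrassCurve F) (n : ℕ) : Prop := Finite (Sm.L.Sel k Ω W n)

/-- The order of the `n`-Selmer group of the elliptic curve `W` over `F`. -/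
noncomputable def selCard (W : WeierstrassCurve F) (n : ℕ) : ℕ := Nat.card (Sm.L.Sel k Ω W n)

/-- The `l`-primary part of the Tate-Shafarevich group of the elliptic curve `W` over `F` is
finite. -/
def ShaFin (l : ℕ) (W : WeierstrassCurve F) : Prop :=
  {x : Sm.L.Sha k Ω W | ∃ i : ℕ, l ^ i • x = 0}.Finite

/-- The elliptic curve `y ^ 2 = x ^ 3 + A x + B`. -/
abbrev crvAB (A B : F) : WeierstrassCurve F := ⟨0, 0, 0, A, B⟩

/-- The hypotheses on the action of the Galois group on `W[l]`: one element acts as `-1`, and every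
endomorphism of `W[l]` is a combination of elements of the Galois group. -/
structure BigE (l : ℕ) (W : WeierstrassCurve F) : Prop where
  neg : ∃ τ : Ω ≃ₐ[F] Ω, ∀ P : Sm.L.Pts Ω W, l • P = 0 → Sm.L.gal Ω W τ P = -P
  span : ∀ f : Sm.L.Pts Ω W → Sm.L.Pts Ω W,
    (∀ P Q, l • P = 0 → l • Q = 0 → f (P + Q) = f P + f Q) → (∀ P, l • P = 0 → l • f P = 0) →
    ∃ c : (Ω ≃ₐ[F] Ω) →₀ ℤ, ∀ P, l • P = 0 → f P = ∑ s ∈ c.support, c s • Sm.L.gal Ω W s P

end ec

/-- The conclusions for an elliptic curve `W` over `K` and the extension `L`. -/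
structure EcGood (k : Type) {K Ω : Type} [Field k] [Field K] [Field Ω] [Algebra k K] [Algebra K Ω]
    [Algebra k Ω] [IsScalarTower k K Ω] (l : ℕ) (W : WeierstrassCurve K)
    (L : IntermediateField K Ω) : Prop where
  /-- `W(L)` is finitely generated -/
  fg : FgPts (W.baseChange L)
  /-- the ranks are equal -/
  rank : algebraicRank (W.baseChange L) = algebraicRank W
  /-- the Selmer groups are equal up to a constant -/
  sel : ∃ C : ℕ, ∀ i : ℕ, SelFin k Ω W (l ^ i) ∧ SelFin k Ω (W.baseChange L) (l ^ i) ∧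
    selCard k Ω W (l ^ i) ≤ selCard k Ω (W.baseChange L) (l ^ i) ∧
    selCard k Ω (W.baseChange L) (l ^ i) ≤ C * selCard k Ω W (l ^ i)
  /-- the `l`-primary parts of the Tate-Shafarevich groups are both finite or both infinite -/
  sha : ShaFin k Ω l (W.baseChange L) ↔ ShaFin k Ω l W

section mod

variable {k K Ω : Type} [Field k] [Field K] [Field Ω] [Algebra k K] [Algebra K Ω]
variable {M : Type} [AddCommGroup M]

/-- The comparison of the Selmer groups over `K` and over `L`, up to a constant. -/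
def SelCmp (k : Type) {K Ω : Type} [Field k] [Field K] [Field Ω] [Algebra k K] [Algebra K Ω]
    [Algebra k Ω] [IsScalarTower k K Ω] (l : ℕ) {M : Type} [AddCommGroup M]
    (ρ : (Ω ≃ₐ[K] Ω) → M →+ M) (L : IntermediateField K Ω) : Prop :=
  ∃ C : ℕ, ∀ i : ℕ, Finite (SmJ.L.Sel k ρ (l ^ i)) ∧
    Finite (SmJ.L.Sel k (fun s : Ω ≃ₐ[L] Ω => ρ (s.restrictScalars K)) (l ^ i)) ∧
    Nat.card (SmJ.L.Sel k ρ (l ^ i)) ≤
      Nat.card (SmJ.L.Sel k (fun s : Ω ≃ₐ[L] Ω => ρ (s.restrictScalars K)) (l ^ i)) ∧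
    Nat.card (SmJ.L.Sel k (fun s : Ω ≃ₐ[L] Ω => ρ (s.restrictScalars K)) (l ^ i)) ≤
      C * Nat.card (SmJ.L.Sel k ρ (l ^ i))

/-- `en n` is a bimultiplicative pairing on `M[l ^ n]` with values in `Ωˣ` which is equivariant for
the action of the Galois group; the pairings are compatible, and `en 1` is alternating and
nondegenerate on `M[l]`. -/
structure Pairing (l : ℕ) (ρ : (Ω ≃ₐ[K] Ω) → M →+ M) (en : ℕ → M → M → Ωˣ) : Prop where
  mul_left : ∀ (n : ℕ) (x x' y : M), l ^ n • x = 0 → l ^ n • x' = 0 → l ^ n • y = 0 →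
    en n (x + x') y = en n x y * en n x' y
  mul_right : ∀ (n : ℕ) (x y y' : M), l ^ n • x = 0 → l ^ n • y = 0 → l ^ n • y' = 0 →
    en n x (y + y') = en n x y * en n x y'
  comp : ∀ (n : ℕ) (x y : M), l ^ n • x = 0 → l ^ (n + 1) • y = 0 →
    en (n + 1) x y = en n x (l • y)
  equiv : ∀ (n : ℕ) (s : Ω ≃ₐ[K] Ω) (x y : M), l ^ n • x = 0 → l ^ n • y = 0 →
    (en n (ρ s x) (ρ s y) : Ω) = s (en n x y : Ω)
  alt : ∀ x : M, l • x = 0 → en 1 x x = 1
  nondeg : ∀ x : M, l • x = 0 → (∀ y : M, l • y = 0 → en 1 x y = 1) → x = 0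

/-- The hypotheses on the module `M` with the action `ρ` of the Galois group. -/
structure SelfDual (k : Type) [Field k] [Algebra k K] (l : ℕ) (ρ : (Ω ≃ₐ[K] Ω) → M →+ M) :
    Prop where
  /-- `ρ` is an action -/
  one : ∀ P, ρ 1 P = P
  mul : ∀ s t P, ρ (s * t) P = ρ s (ρ t P)
  /-- the action is continuous: every element of `M` is fixed by an open subgroup -/
  cont : ∀ P, ∃ L : IntermediateField K Ω, FiniteDimensional K L ∧
    ∀ s t : Ω ≃ₐ[K] Ω, (∀ x ∈ L, s x = t x) → ρ s P = ρ t P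
  /-- every element is killed by a power of `l` -/
  tors : ∀ P : M, ∃ n : ℕ, l ^ n • P = 0
  /-- `M` is `l`-divisible -/
  div : ∀ P : M, ∃ Q, l • Q = P
  /-- `M[l]` is finite and not `0` -/
  fin : {P : M | l • P = 0}.Finite
  ne : ∃ P : M, P ≠ 0 ∧ l • P = 0
  /-- the pairings `M[l ^ n] × M[l ^ n] → μ` -/
  form : ∃ en : ℕ → M → M → Ωˣ, Pairing l ρ en
  /-- `M` is unramified at almost all places -/
  unr : ∃ T : Set (Place k K), T.Finite ∧ ∀ v ∉ T, ∀ w : ValuationSubring Ω,
    w.comap (algebraMap K Ω) = v.ring → ∀ s : Ω ≃ₐ[K] Ω, Iner w s → ∀ P : M, ρ s P = P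
  /-- only finitely many elements of `M` are defined over a given finite extension of the henselization
  of `K` at a place -/
  pure : ∀ w : ValuationSubring Ω, w ≠ ⊤ → (∀ x : k, algebraMap K Ω (algebraMap k K x) ∈ w) →
    ∀ U : Subgroup (Ω ≃ₐ[K] Ω), IsOpen (U : Set (Ω ≃ₐ[K] Ω)) →
    {P : M | ∀ s ∈ w.decompositionSubgroup K, s ∈ U → ρ s P = P}.Finite
  /-- the action on `M[l]` is tamely ramified -/
  tame : ∀ w : ValuationSubring Ω, w ≠ ⊤ → ∀ s : Ω ≃ₐ[K] Ω, Iner w s → ∀ m : ℕ,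
    (∀ P : M, l • P = 0 → ρ (s ^ (ringChar K ^ m)) P = P) → ∀ P : M, l • P = 0 → ρ s P = P
  /-- some element of the Galois group acts on `M[l]` as `-1` -/
  neg : ∃ τ : Ω ≃ₐ[K] Ω, ∀ P : M, l • P = 0 → ρ τ P = -P
  /-- every endomorphism of `M[l]` is a combination of elements of the Galois group -/
  span : ∀ f : M → M, (∀ P Q, l • P = 0 → l • Q = 0 → f (P + Q) = f P + f Q) →
    (∀ P, l • P = 0 → l • f P = 0) →
    ∃ c : (Ω ≃ₐ[K] Ω) →₀ ℤ, ∀ P, l • P = 0 → f P = ∑ s ∈ c.support, c s • ρ s P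

end mod

end Pool.Agent.SmL.Fnl
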