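import Pool.Agent.Lib.SmL.Fnl.Abs
import Pool.Agent.Lib.SmL.Fnl.Stm
import Pool.Agent.Lib.SmL.Fnl.Mod
import Pool.Agent.Lib.SmL.Fld.Chi
import Pool.Agent.Lib.SmN.F.LPl

/-!
# SMITH-L, final layer: characters of order `l` and cyclic fields of degree `l`

`fld c`: the field cut out by a continuous homomorphism `c : Gal(Ω / K) → ZMod l`. `card_chr`: the number
of the nonzero `c` with a property of `fld c` is `l - 1` times the number of the fields. `Cyc k l n`: the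
cyclic extensions of degree `l` of `K` in `Ω` for which the sum of the degrees of the ramified places is
at most `n`. `cyc_of_chars`: from characters to fields.
-/

set_option autoImplicit false

open Finset

namespace Pool.Agent.SmL.Fnl

open Ch
open Pool.Agent.BSDFF Pool.Agent.Lib.SmD Pool.Agent.SmL.Ar Pool.Agent.SmL.C Pool.Agent.SmL.Fld

section gal

variable {K Ω : Type} [Field K] [Field Ω] [Algebra K Ω] {l : ℕ}

theorem homO_one {c : (Ω ≃ₐ[K] Ω) → ZMod l} (hc : HomO l c) : c 1 = 0 := by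
  have h := hc.add 1 1
  rw [mul_one] at h
  exact left_eq_add.1 h

theorem homO_inv {c : (Ω ≃ₐ[K] Ω) → ZMod l} (hc : HomO l c) (s : Ω ≃ₐ[K] Ω) : c s⁻¹ = -c s := by
  have h := hc.add s⁻¹ s
  rw [inv_mul_cancel, homO_one hc] at h
  exact eq_neg_of_add_eq_zero_left h.symm

/-- The kernel. -/
def kerO {c : (Ω ≃ₐ[K] Ω) → ZMod l} (hc : HomO l c) : Subgroup (Ω ≃ₐ[K] Ω) where
  carrier := {s | c s = 0}
  one_mem' := homO_one hc
  mul_mem' := by
    intro a b ha hb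
    change c (a * b) = 0
    rw [hc.add, show c a = 0 from ha, show c b = 0 from hb, add_zero]
  inv_mem' := by
    intro a ha
    change c a⁻¹ = 0
    rw [homO_inv hc, show c a = 0 from ha, neg_zero]

theorem mem_kerO {c : (Ω ≃ₐ[K] Ω) → ZMod l} {hc : HomO l c} {s : Ω ≃ₐ[K] Ω} :
    s ∈ kerO hc ↔ c s = 0 := Iff.rfl

theorem kerO_open {c : (Ω ≃ₐ[K] Ω) → ZMod l} (hc : HomO l c) :
    IsOpen (kerO hc : Set (Ω ≃ₐ[K] Ω)) := by
  obtain ⟨U, hU, hUc⟩ := hc.fin
  exact Subgroup.isOpen_mono (H₁ := U) (fun s hs => hUc s hs) hU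

theorem kerO_normal {c : (Ω ≃ₐ[K] Ω) → ZMod l} (hc : HomO l c) : (kerO hc).Normal := by
  refine ⟨fun s hs g => ?_⟩
  rw [mem_kerO] at hs ⊢
  rw [hc.add, hc.add, hs, homO_inv hc]
  ring

/-- The field cut out by `c`. -/
noncomputable def fld (c : (Ω ≃ₐ[K] Ω) → ZMod l) : IntermediateField K Ω :=
  IntermediateField.fixedField (Subgroup.closure {s | c s = 0})

theorem closure_eq {c : (Ω ≃ₐ[K] Ω) → ZMod l} (hc : HomO l c) :
    Subgroup.closure {s | c s = 0} = kerO hc :=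
  Subgroup.closure_eq (kerO hc)

theorem fld_fix [IsGalois K Ω] {c : (Ω ≃ₐ[K] Ω) → ZMod l} (hc : HomO l c) :
    (fld c).fixingSubgroup = kerO hc := by
  rw [fld, closure_eq hc]
  exact InfiniteGalois.fixingSubgroup_fixedField
    ⟨kerO hc, Subgroup.isClosed_of_isOpen _ (kerO_open hc)⟩

theorem mem_fix [IsGalois K Ω] {c : (Ω ≃ₐ[K] Ω) → ZMod l} (hc : HomO l c) (s : Ω ≃ₐ[K] Ω) :
    s ∈ (fld c).fixingSubgroup ↔ c s = 0 := by
  rw [fld_fix hc]
  exact Iff.rfl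

theorem fld_fd [IsGalois K Ω] {c : (Ω ≃ₐ[K] Ω) → ZMod l} (hc : HomO l c) :
    FiniteDimensional K (fld c) := by
  rw [← InfiniteGalois.isOpen_iff_finite, fld_fix hc]
  exact kerO_open hc

theorem fld_gal [IsGalois K Ω] {c : (Ω ≃ₐ[K] Ω) → ZMod l} (hc : HomO l c) :
    IsGalois K (fld c) := by
  rw [← InfiniteGalois.normal_iff_isGalois, fld_fix hc]
  exact kerO_normal hc

theorem exists_one (hl : l.Prime) {c : (Ω ≃ₐ[K] Ω) → ZMod l} (hc : HomO l c) (h0 : c ≠ 0) :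
    ∃ g, c g = 1 := by
  have : Fact l.Prime := ⟨hl⟩
  obtain ⟨s, hs⟩ := Function.ne_iff.1 h0
  have hs : c s ≠ 0 := hs
  have hpow : ∀ n : ℕ, c (s ^ n) = n * c s := by
    intro n
    induction n with
    | zero => rw [pow_zero, Nat.cast_zero, zero_mul, homO_one hc]
    | succ n ih =>
      rw [pow_succ, hc.add, ih, Nat.cast_succ]
      ring
  refine ⟨s ^ ((c s)⁻¹).val, ?_⟩
  rw [hpow, ZMod.natCast_val, ZMod.cast_id, inv_mul_cancel₀ hs]

theorem fld_deg [IsGalois K Ω] (hl : l.Prime) {c : (Ω ≃ₐ[K] Ω) → ZMod l} (hc : HomO l c)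
    (h0 : c ≠ 0) : Module.finrank K (fld c) = l := by
  have hn := kerO_normal hc
  rw [IntermediateField.finrank_eq_fixingSubgroup_index, fld_fix hc]
  let f : (Ω ≃ₐ[K] Ω) →* Multiplicative (ZMod l) :=
    { toFun := fun s => Multiplicative.ofAdd (c s)
      map_one' := by rw [homO_one hc]; rfl
      map_mul' := fun s t => by rw [hc.add]; rfl }
  have hk : f.ker = kerO hc := by
    ext s
    rw [MonoidHom.mem_ker, mem_kerO]
    exact Iff.rfl
  have hf : Function.Surjective f := by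
    obtain ⟨g, hg⟩ := exists_one hl hc h0
    have : NeZero l := ⟨hl.ne_zero⟩
    intro x
    refine ⟨g ^ (Multiplicative.toAdd x).val, ?_⟩
    rw [map_pow]
    change Multiplicative.ofAdd (c g) ^ _ = x
    rw [← ofAdd_nsmul, hg, nsmul_eq_mul, mul_one, ZMod.natCast_val, ZMod.cast_id]
    rfl
  rw [← hk, Subgroup.index_ker, MonoidHom.range_eq_top.2 hf]
  rw [Nat.card_congr Subgroup.topEquiv.toEquiv]
  exact (Nat.card_zmod l)

/-- The cyclic field `L` is cut out by a character. -/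
theorem exists_chr [IsGalois K Ω] (hl : l.Prime) {L : IntermediateField K Ω} (hL : IsGalois K L)
    (hd : Module.finrank K L = l) : ∃ c : (Ω ≃ₐ[K] Ω) → ZMod l, HomO l c ∧ c ≠ 0 ∧ fld c = L := by
  have : Fact l.Prime := ⟨hl⟩
  have hfd : FiniteDimensional K L := Module.finite_of_finrank_pos (by rw [hd]; exact hl.pos)
  have hcard : Nat.card (L ≃ₐ[K] L) = l := by rw [IsGalois.card_aut_eq_finrank, hd]
  have hcyc : IsCyclic (L ≃ₐ[K] L) := isCyclic_of_prime_card hcard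
  have hadd : IsAddCyclic (Additive (L ≃ₐ[K] L)) := isAddCyclic_additive_iff.2 hcyc
  obtain ⟨e⟩ : Nonempty (Additive (L ≃ₐ[K] L) ≃+ ZMod l) := by
    have h1 := (zmodAddCyclicAddEquiv hadd).symm
    have h2 : Nat.card (Additive (L ≃ₐ[K] L)) = l := hcard
    rw [h2] at h1
    exact ⟨h1⟩
  let c : (Ω ≃ₐ[K] Ω) → ZMod l := fun s => e (Additive.ofMul (AlgEquiv.restrictNormalHom L s))
  have hker : ∀ s, s ∈ L.fixingSubgroup ↔ c s = 0 := by
    intro s
    rw [← L.restrictNormalHom_ker, MonoidHom.mem_ker]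
    change _ ↔ e _ = 0
    rw [EmbeddingLike.map_eq_zero_iff]
    exact Iff.rfl
  have hc : HomO l c := by
    refine ⟨fun s t => ?_, L.fixingSubgroup, IntermediateField.fixingSubgroup_isOpen L,
      fun s hs => (hker s).1 hs⟩
    change e _ = e _ + e _
    rw [map_mul, ofMul_mul, map_add]
  refine ⟨c, hc, fun h0 => ?_, ?_⟩
  · obtain ⟨x, hx⟩ := e.surjective 1
    obtain ⟨s, hs⟩ := AlgEquiv.restrictNormalHom_surjective (F := K) (K₁ := L) Ω x.toMul
    have h1 : c s = 1 := by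
      change e (Additive.ofMul (AlgEquiv.restrictNormalHom L s)) = 1
      rw [hs]
      exact hx
    rw [h0] at h1
    exact zero_ne_one h1
  · have h1 : (fld c).fixingSubgroup = L.fixingSubgroup := by
      ext s
      rw [mem_fix hc, hker]
    rw [← InfiniteGalois.fixedField_fixingSubgroup (fld c), h1,
      InfiniteGalois.fixedField_fixingSubgroup]

theorem homO_smul {c : (Ω ≃ₐ[K] Ω) → ZMod l} (hc : HomO l c) (u : ZMod l) :
    HomO l (fun s => u * c s) := by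
  obtain ⟨U, hU, h⟩ := hc.fin
  exact ⟨fun s t => by rw [hc.add, mul_add], U, hU, fun s hs => by rw [h s hs, mul_zero]⟩

theorem fld_eq_iff [IsGalois K Ω] (hl : l.Prime) {c d : (Ω ≃ₐ[K] Ω) → ZMod l} (hc : HomO l c)
    (hd : HomO l d) (h0 : c ≠ 0) :
    fld c = fld d ↔ ∃ u : (ZMod l)ˣ, ∀ s, d s = u * c s := by
  have : Fact l.Prime := ⟨hl⟩
  constructor
  · intro h
    have h1 : ∀ s, c s = 0 ↔ d s = 0 := fun s => by rw [← mem_fix hc, ← mem_fix hd, h]
    obtain ⟨g, hg⟩ := exists_one hl hc h0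
    have hdg : d g ≠ 0 := fun h2 => by
      have h3 := (h1 g).2 h2
      rw [hg] at h3
      exact one_ne_zero h3
    have hpow : ∀ (e : (Ω ≃ₐ[K] Ω) → ZMod l), HomO l e → ∀ n : ℕ, e (g ^ n) = n * e g := by
      intro e he n
      induction n with
      | zero => rw [pow_zero, Nat.cast_zero, zero_mul, homO_one he]
      | succ n ih =>
        rw [pow_succ, he.add, ih, Nat.cast_succ]
        ring
    refine ⟨Units.mk0 _ hdg, fun s => ?_⟩
    have h2 : c ((g ^ (c s).val)⁻¹ * s) = 0 := by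
      rw [hc.add, homO_inv hc, hpow c hc, hg, mul_one, ZMod.natCast_val, ZMod.cast_id, neg_add_cancel]
    have h3 := (h1 _).1 h2
    rw [hd.add, homO_inv hd, hpow d hd, ZMod.natCast_val, ZMod.cast_id] at h3
    rw [Units.val_mk0, mul_comm]
    exact (neg_add_eq_zero.1 h3).symm
  · rintro ⟨u, hu⟩
    have h1 : (fld c).fixingSubgroup = (fld d).fixingSubgroup := by
      ext s
      rw [mem_fix hc, mem_fix hd, hu, mul_eq_zero, or_iff_right u.ne_zero]
    rw [← InfiniteGalois.fixedField_fixingSubgroup (fld c), h1,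
      InfiniteGalois.fixedField_fixingSubgroup]

/-- The number of the characters and the number of the fields. -/
theorem card_chr [IsGalois K Ω] (hl : l.Prime) (P : IntermediateField K Ω → Prop) :
    Nat.card {c : (Ω ≃ₐ[K] Ω) → ZMod l // HomO l c ∧ c ≠ 0 ∧ P (fld c)} =
      Nat.card {L : IntermediateField K Ω // (IsGalois K L ∧ Module.finrank K L = l) ∧ P L} *
        (l - 1) := by
  have : Fact l.Prime := ⟨hl⟩
  have h1 : ∀ L : {L : IntermediateField K Ω // (IsGalois K L ∧ Module.finrank K L = l) ∧ P L},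
    ∃ c : (Ω ≃ₐ[K] Ω) → ZMod l, HomO l c ∧ c ≠ 0 ∧ fld c = L.1 := fun L =>
    exists_chr hl L.2.1.1 L.2.1.2
  choose ch hch hch0 hchL using h1
  have h2 : Nat.card (ZMod l)ˣ = l - 1 := by
    rw [Nat.card_eq_fintype_card, ZMod.card_units]
  rw [← h2, ← Nat.card_prod]
  have hne : ∀ (L : {L : IntermediateField K Ω // (IsGalois K L ∧ Module.finrank K L = l) ∧ P L})
      (u : (ZMod l)ˣ), (fun s => (u : ZMod l) * ch L s) ≠ 0 := by
    intro L u h
    apply hch0 L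
    funext s
    have h3 : (u : ZMod l) * ch L s = 0 := congrFun h s
    exact (mul_eq_zero.1 h3).resolve_left u.ne_zero
  have hfl : ∀ (L : {L : IntermediateField K Ω // (IsGalois K L ∧ Module.finrank K L = l) ∧ P L})
      (u : (ZMod l)ˣ), fld (fun s => (u : ZMod l) * ch L s) = L.1 := fun L u => by
    rw [← hchL L]
    exact ((fld_eq_iff hl (hch L) (homO_smul (hch L) u) (hch0 L)).2
      ⟨u, fun s => rfl⟩).symm
  symm
  refine Nat.card_congr (Equiv.ofBijective (fun x => ⟨fun s => (x.2 : ZMod l) * ch x.1 s,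
    homO_smul (hch x.1) x.2, hne x.1 x.2, by rw [hfl]; exact x.1.2.2⟩) ⟨fun x y hxy => ?_,
    fun c => ?_⟩)
  · have h3 : (fun s => (x.2 : ZMod l) * ch x.1 s) = fun s => (y.2 : ZMod l) * ch y.1 s :=
      congrArg Subtype.val hxy
    have h4 : x.1 = y.1 := Subtype.ext (by rw [← hfl x.1 x.2, h3, hfl])
    refine Prod.ext h4 (Units.ext ?_)
    obtain ⟨g, hg⟩ := exists_one hl (hch x.1) (hch0 x.1)
    have h5 := congrFun h3 g
    simp only [← h4, hg, mul_one] at h5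
    exact h5
  · obtain ⟨c, hc, hc0, hP⟩ := c
    let L : {L : IntermediateField K Ω // (IsGalois K L ∧ Module.finrank K L = l) ∧ P L} :=
      ⟨fld c, ⟨fld_gal hc, fld_deg hl hc hc0⟩, hP⟩
    obtain ⟨u, hu⟩ := (fld_eq_iff hl (hch L) hc (hch0 L)).1 (hchL L)
    exact ⟨(L, u), Subtype.ext (funext fun s => (hu s).symm)⟩

end gal

section pl

variable {k K Ω : Type} [Field k] [Field K] [Algebra k K] [Field Ω] [Algebra K Ω] {l : ℕ}

omit [Field k] [Algebra k K] in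
theorem iner_iff {w : ValuationSubring Ω} {s : Ω ≃ₐ[K] Ω} : Iner w s ↔ s ∈ iner K w := by
  rw [mem_iner, mem_dec]
  exact Iff.rfl

theorem unrIn_fld [IsGalois K Ω] {c : (Ω ≃ₐ[K] Ω) → ZMod l} (hc : HomO l c) (v : Place k K) :
    UnrIn v (fld c) ↔ UnrAt v c := by
  have h1 : ∀ s : Ω ≃ₐ[K] Ω, (∀ x ∈ fld c, s x = x) ↔ c s = 0 := fun s => by
    rw [← mem_fix hc, IntermediateField.mem_fixingSubgroup_iff]
  constructor
  · intro h w hw s hs
    exact (h1 s).1 (h w hw s (iner_iff.2 hs))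
  · intro h w hw s hs
    exact (h1 s).2 (h w hw s (iner_iff.1 hs))

variable {ζ : Ω} {NN : Set (Subgroup (Ω ≃ₐ[K] Ω))} {w : Place k K → ValuationSubring Ω}
  {sg ph : Place k K → Ω ≃ₐ[K] Ω}

theorem unrAt_iff [IsGalois K Ω] (hS : Std l ζ NN w sg ph) {c : (Ω ≃ₐ[K] Ω) → ZMod l}
    (hc : HomO l c) (hN : ∃ N ∈ NN, ∀ s, ∀ n ∈ N, c (s * n) = c s) (v : Place k K) :
    UnrAt v c ↔ c (sg v) = 0 := by
  constructor
  · intro h
    exact h (w v) (hS.loc.below v) (sg v) (hS.loc.iner v)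
  · intro h w' hw' s hs
    obtain ⟨g, hg⟩ := Pool.Agent.SmN.F.exists_tr (K := K) (w := w v) (w' := w')
      (by rw [hS.loc.below v, hw'])
    rw [hg, Pool.Agent.SmN.F.mem_iner_tr] at hs
    obtain ⟨N, hN, hcN⟩ := hN
    obtain ⟨n, hn⟩ := hS.igen v N hN _ hs
    have h1 : c ((sg v) ^ n * (((sg v) ^ n)⁻¹ * (g⁻¹ * s * g))) = c ((sg v) ^ n) :=
      hcN _ _ hn
    rw [mul_inv_cancel_left, hc.add, hc.add, homO_inv hc] at h1
    have h2 : ∀ n : ℕ, c ((sg v) ^ n) = 0 := by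
      intro n
      induction n with
      | zero => rw [pow_zero, homO_one hc]
      | succ n ih => rw [pow_succ, hc.add, ih, h, add_zero]
    rw [h2, neg_add_cancel_comm] at h1
    exact h1

end pl

section count

variable {k K Ω : Type} [Field k] [Field K] [Algebra k K] [Field Ω] [Algebra K Ω]
  [IsSepClosure K Ω] {l : ℕ} {ζ : Ω} {NN : Set (Subgroup (Ω ≃ₐ[K] Ω))} {w : Place k K → ValuationSubring Ω}
  {sg ph : Place k K → Ω ≃ₐ[K] Ω} {A V V1 : Type} [CommRing A] [AddCommGroup V]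
  [Module A V] [DistribMulAction (Ω ≃ₐ[K] Ω) V] [AddCommGroup V1] [Module (ZMod l) V1]
  {S : Sys l A (Ω ≃ₐ[K] Ω) V V1 (Place k K)}

theorem homG_iff (hl : l.Prime) (hS : Std l ζ NN w sg ph) (hNN : S.NN = NN) (htop : ⊤ ∈ NN)
    {c : (Ω ≃ₐ[K] Ω) → ZMod l} : S.HomG c ↔ HomO l c := by
  constructor
  · rintro ⟨⟨N, hN, h⟩, hadd⟩
    refine ⟨hadd, N, hS.fam.isOpen N (hNN ▸ hN), fun s hs => ?_⟩
    have h1 := h 1 s hs
    have h2 := hadd 1 1
    rw [mul_one] at h2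
    rw [one_mul, left_eq_add.1 h2] at h1
    exact h1
  · intro hc
    obtain ⟨N, hN, h⟩ := hc.level hl hS.fam htop
    exact ⟨⟨N, hNN.symm ▸ hN, h⟩, hc.add⟩

theorem rdeg_ram (hl : l.Prime) (hS : Std l ζ NN w sg ph) (hsg : S.sg = sg)
    (htop : ⊤ ∈ NN) {c : (Ω ≃ₐ[K] Ω) → ZMod l} (hc : HomO l c) :
    rdeg S Place.degree c = ramDeg k (fld c) := by
  classical
  rw [rdeg, ramDeg]
  refine finsum_congr fun v => ?_
  have h1 : UnrIn v (fld c) ↔ c (S.sg v) = 0 := by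
    rw [unrIn_fld hc, unrAt_iff hS hc (hc.level hl hS.fam htop), hsg]
  by_cases h : c (S.sg v) = 0
  · rw [if_pos h, if_pos (h1.2 h)]
  · rw [if_neg h, if_neg fun h2 => h (h1.1 h2)]

/-- **From characters to fields.** -/
theorem cyc_of_chars (hl : l.Prime) (hl2 : l ≠ 2) (hS : Std l ζ NN w sg ph)
    (hNN : S.NN = NN) (hsg : S.sg = sg) (htop : ⊤ ∈ NN) {q : ℕ} (hq : 2 ≤ q)
    (hfin : ∀ n, Finite {c : {c : (Ω ≃ₐ[K] Ω) → ZMod l // S.HomG c} //
      rdeg S Place.degree c.1 ≤ n})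
    (hall : ∀ ε : ℝ, 0 < ε → ∃ m₁ : ℕ, ∀ m ≥ m₁, ∃ n₀ : ℕ, ∀ n ≥ n₀,
      (Nat.card {c : {c : (Ω ≃ₐ[K] Ω) → ZMod l // S.HomG c} //
        rdeg S Place.degree c.1 ≤ n ∧ ¬ SmallS S m c.1} : ℝ) ≤
        ε * Nat.card {c : {c : (Ω ≃ₐ[K] Ω) → ZMod l // S.HomG c} //
          rdeg S Place.degree c.1 ≤ n})
    (hgrow : ∃ c : ℝ, 0 < c ∧ ∃ n₀ : ℕ, ∀ n ≥ n₀, c * (n : ℝ) ^ (l - 2) * (q : ℝ) ^ n ≤
      Nat.card {c : {c : (Ω ≃ₐ[K] Ω) → ZMod l // S.HomG c} // rdeg S Place.degree c.1 ≤ n})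
    (Good : IntermediateField K Ω → Prop)
    (hgood : ∀ c : (Ω ≃ₐ[K] Ω) → ZMod l, HomO l c → c ≠ 0 → ∀ m, SmallS S m c → Good (fld c)) :
    (∀ n, (Cyc k Ω l n : Set (IntermediateField K Ω)).Finite) ∧
    (∃ c : ℝ, 0 < c ∧ ∃ n₀ : ℕ, ∀ n ≥ n₀, c * (n : ℝ) ^ (l - 2) * (q : ℝ) ^ n ≤
      (Cyc k Ω l n : Set (IntermediateField K Ω)).ncard) ∧
    ∀ ε : ℝ, 0 < ε → ∃ n₀ : ℕ, ∀ n ≥ n₀,
      ({L ∈ (Cyc k Ω l n : Set (IntermediateField K Ω)) | ¬ Good L}.ncard : ℝ) ≤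
        ε * (Cyc k Ω l n : Set (IntermediateField K Ω)).ncard := by
  classical
  have hl3 : 3 ≤ l := by
    have := hl.two_le
    omega
  have hl1 : 1 ≤ l - 1 := by omega
  -- all the characters
  set NX : ℕ → ℕ := fun n => Nat.card {c : {c : (Ω ≃ₐ[K] Ω) → ZMod l // S.HomG c} //
    rdeg S Place.degree c.1 ≤ n} with hNX
  have h0 : HomO l (0 : (Ω ≃ₐ[K] Ω) → ZMod l) :=
    ⟨fun _ _ => (add_zero 0).symm, ⊤, isOpen_univ, fun _ _ => rfl⟩
  -- the nonzero characters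
  have hfin0 : ∀ n, Finite {c : (Ω ≃ₐ[K] Ω) → ZMod l // HomO l c ∧ c ≠ 0 ∧ ramDeg k (fld c) ≤ n} := by
    intro n
    have := hfin n
    refine Finite.of_injective (β := {c : {c : (Ω ≃ₐ[K] Ω) → ZMod l // S.HomG c} //
      rdeg S Place.degree c.1 ≤ n}) (fun c => ⟨⟨c.1, (homG_iff hl hS hNN htop).2 c.2.1⟩, ?_⟩)
      fun c d h => ?_
    · change rdeg S Place.degree c.1 ≤ n
      rw [rdeg_ram hl hS hsg htop c.2.1]
      exact c.2.2.2
    · exact Subtype.ext (congrArg (fun x : {c : {c : (Ω ≃ₐ[K] Ω) → ZMod l // S.HomG c} //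
        rdeg S Place.degree c.1 ≤ n} => x.1.1) h)
  have hcard : ∀ n, NX n ≤ Nat.card {c : (Ω ≃ₐ[K] Ω) → ZMod l // HomO l c ∧ c ≠ 0 ∧
      ramDeg k (fld c) ≤ n} + 1 := by
    intro n
    have := hfin0 n
    rw [hNX, ← Finite.card_option]
    refine Nat.card_le_card_of_injective
      (fun c => if h : c.1.1 = 0 then none else some ⟨c.1.1, (homG_iff hl hS hNN htop).1 c.1.2, h, by
        rw [← rdeg_ram hl hS hsg htop ((homG_iff hl hS hNN htop).1 c.1.2)]
        exact c.2⟩) fun c d h => ?_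
    apply Subtype.ext
    apply Subtype.ext
    by_cases hc : c.1.1 = 0
    · by_cases hd : d.1.1 = 0
      · rw [hc, hd]
      · simp only [dif_pos hc, dif_neg hd] at h
        exact absurd h.symm (Option.some_ne_none _)
    · by_cases hd : d.1.1 = 0
      · simp only [dif_pos hd, dif_neg hc] at h
        exact absurd h (Option.some_ne_none _)
      · simp only [dif_neg hd, dif_neg hc] at h
        have h4 := Option.some.inj h
        exact congrArg (fun x : {c : (Ω ≃ₐ[K] Ω) → ZMod l // HomO l c ∧ c ≠ 0 ∧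
          ramDeg k (fld c) ≤ n} => x.1) h4
  -- the fields
  have hCyc : ∀ n, Nat.card {c : (Ω ≃ₐ[K] Ω) → ZMod l // HomO l c ∧ c ≠ 0 ∧ ramDeg k (fld c) ≤ n} =
      (Cyc k Ω l n : Set (IntermediateField K Ω)).ncard * (l - 1) := fun n =>
    card_chr hl fun L => ramDeg k L ≤ n
  have hBad : ∀ n, Nat.card {c : (Ω ≃ₐ[K] Ω) → ZMod l // HomO l c ∧ c ≠ 0 ∧
      (ramDeg k (fld c) ≤ n ∧ ¬ Good (fld c))} =
      {L ∈ (Cyc k Ω l n : Set (IntermediateField K Ω)) | ¬ Good L}.ncard * (l - 1) := by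
    intro n
    rw [card_chr hl fun L => ramDeg k L ≤ n ∧ ¬ Good L]
    congr 1
    refine Nat.card_congr (Equiv.subtypeEquivRight fun L => ?_)
    change _ ↔ (_ ∧ _) ∧ _
    tauto
  have hCf : ∀ n, (Cyc k Ω l n : Set (IntermediateField K Ω)).Finite := by
    intro n
    have := hfin0 n
    have h1 : Function.Surjective (fun c : {c : (Ω ≃ₐ[K] Ω) → ZMod l // HomO l c ∧ c ≠ 0 ∧
        ramDeg k (fld c) ≤ n} => (⟨fld c.1, ⟨fld_gal c.2.1, fld_deg hl c.2.1 c.2.2.1⟩, c.2.2.2⟩ :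
        (Cyc k Ω l n : Set (IntermediateField K Ω)))) := by
      rintro ⟨L, hL, hn⟩
      obtain ⟨c, hc, hc0, hcL⟩ := exists_chr hl hL.1 hL.2
      exact ⟨⟨c, hc, hc0, by rw [hcL]; exact hn⟩, Subtype.ext hcL⟩
    exact Set.finite_coe_iff.1 (Finite.of_surjective _ h1)
  obtain ⟨c, hc, n₁, hgr⟩ := hgrow
  -- the number of fields is large
  have hbig : ∃ n₂ : ℕ, ∀ n ≥ n₂, 2 ≤ NX n := by
    obtain ⟨n₂, hn₂⟩ := exists_nat_gt (2 / c)
    refine ⟨max n₁ (max n₂ 1), fun n hn => ?_⟩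
    have h1 := hgr n (le_of_max_le_left hn)
    have h2 : n₂ ≤ n := (le_max_left _ _).trans (le_of_max_le_right hn)
    have h3 : 1 ≤ n := (le_max_right n₂ 1).trans (le_of_max_le_right hn)
    have h4 : (n : ℝ) ≤ (q : ℝ) ^ n := by
      have h5 : n < 2 ^ n := Nat.lt_two_pow_self
      have h6 : 2 ^ n ≤ q ^ n := Nat.pow_le_pow_left hq n
      exact_mod_cast (h5.le.trans h6)
    have h5 : (1 : ℝ) ≤ (n : ℝ) ^ (l - 2) := one_le_pow₀ (by exact_mod_cast h3)
    have h6 : (2 : ℝ) ≤ NX n := by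
      calc (2 : ℝ) = c * (2 / c) := by field_simp
        _ ≤ c * 1 * n := by
          rw [mul_one]
          gcongr
          exact hn₂.le.trans (by exact_mod_cast h2)
        _ ≤ c * (n : ℝ) ^ (l - 2) * (q : ℝ) ^ n := by gcongr
        _ ≤ NX n := h1
    exact_mod_cast h6
  obtain ⟨n₂, hn₂⟩ := hbig
  have hle : ∀ n ≥ n₂, (NX n : ℝ) ≤ 2 * (l - 1 : ℕ) *
      (Cyc k Ω l n : Set (IntermediateField K Ω)).ncard := by
    intro n hn
    have h1 := hn₂ n hn
    have h2 := hcard n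
    rw [hCyc] at h2
    have h3 : NX n ≤ 2 * (l - 1) * (Cyc k Ω l n : Set (IntermediateField K Ω)).ncard := by
      have h4 : NX n ≤ 2 * ((Cyc k Ω l n : Set (IntermediateField K Ω)).ncard * (l - 1)) := by
        omega
      calc NX n ≤ _ := h4
        _ = _ := by ring
    exact_mod_cast h3
  have hl1' : (0 : ℝ) < (l - 1 : ℕ) := by exact_mod_cast hl1
  refine ⟨hCf, ⟨c / (2 * (l - 1 : ℕ)), by positivity, max n₁ n₂, fun n hn => ?_⟩, fun ε hε => ?_⟩
  · have h1 := hgr n (le_of_max_le_left hn)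
    have h2 := hle n (le_of_max_le_right hn)
    have h3 := h1.trans h2
    rw [div_mul_eq_mul_div, div_mul_eq_mul_div, div_le_iff₀ (by positivity)]
    calc c * (n : ℝ) ^ (l - 2) * (q : ℝ) ^ n ≤ _ := h3
      _ = _ := by ring
  · obtain ⟨m₁, hm₁⟩ := hall (ε / 2) (by positivity)
    obtain ⟨n₃, hn₃⟩ := hm₁ m₁ le_rfl
    refine ⟨max n₂ n₃, fun n hn => ?_⟩
    have h1 := hn₃ n (le_of_max_le_right hn)
    have h2 := hle n (le_of_max_le_left hn)
    have h3 : Nat.card {c : (Ω ≃ₐ[K] Ω) → ZMod l // HomO l c ∧ c ≠ 0 ∧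
        (ramDeg k (fld c) ≤ n ∧ ¬ Good (fld c))} ≤
        Nat.card {c : {c : (Ω ≃ₐ[K] Ω) → ZMod l // S.HomG c} //
        rdeg S Place.degree c.1 ≤ n ∧ ¬ SmallS S m₁ c.1} := by
      have h4 := hfin n
      have h5 : Finite {c : {c : (Ω ≃ₐ[K] Ω) → ZMod l // S.HomG c} //
          rdeg S Place.degree c.1 ≤ n ∧ ¬ SmallS S m₁ c.1} :=
        Finite.of_injective (β := {c : {c : (Ω ≃ₐ[K] Ω) → ZMod l // S.HomG c} //
          rdeg S Place.degree c.1 ≤ n}) (fun c => ⟨c.1, c.2.1⟩) fun c d h =>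
            Subtype.ext (congrArg (fun x : {c : {c : (Ω ≃ₐ[K] Ω) → ZMod l // S.HomG c} //
              rdeg S Place.degree c.1 ≤ n} => x.1) h)
      refine Nat.card_le_card_of_injective
        (fun c => ⟨⟨c.1, (homG_iff hl hS hNN htop).2 c.2.1⟩, ?_, fun h => ?_⟩) fun c d h => ?_
      · change rdeg S Place.degree c.1 ≤ n
        rw [rdeg_ram hl hS hsg htop c.2.1]
        exact c.2.2.2.1
      · exact c.2.2.2.2 (hgood c.1 c.2.1 c.2.2.1 m₁ h)
      · exact Subtype.ext (congrArg (fun x : {c : {c : (Ω ≃ₐ[K] Ω) → ZMod l // S.HomG c} //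
          rdeg S Place.degree c.1 ≤ n ∧ ¬ SmallS S m₁ c.1} => x.1.1) h)
    rw [hBad] at h3
    have h4 : (({L ∈ (Cyc k Ω l n : Set (IntermediateField K Ω)) | ¬ Good L}.ncard *
        (l - 1) : ℕ) : ℝ) ≤ ε / 2 * (2 * (l - 1 : ℕ) *
        (Cyc k Ω l n : Set (IntermediateField K Ω)).ncard) := by
      refine le_trans ?_ (h1.trans ?_)
      · exact_mod_cast h3
      · exact mul_le_mul_of_nonneg_left h2 (by positivity)
    rw [Nat.cast_mul] at h4
    have h5 : ({L ∈ (Cyc k Ω l n : Set (IntermediateField K Ω)) | ¬ Good L}.ncard : ℝ) *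
        (l - 1 : ℕ) ≤ (ε * (Cyc k Ω l n : Set (IntermediateField K Ω)).ncard) * (l - 1 : ℕ) := by
      calc _ ≤ _ := h4
        _ = _ := by ring
    exact le_of_mul_le_mul_right h5 hl1'

end count

end Pool.Agent.SmL.Fnl
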