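import Pool.Agent.Lib.SmL.Fnl.Num
import Pool.Agent.Lib.SmL.Fnl.Stm

/-!
# SMITH-L, final layer: the conclusions for one extension

`sel_of_one`: the Selmer groups of a module over `K` and over the extension `L` cut out by `chi`, from
the smallness of one Selmer group of the twist of `V` by `chi`. `ec_of_one`: the ranks and the
Tate-Shafarevich groups of an elliptic curve.
-/

set_option autoImplicit false

open WeierstrassCurve

namespace Pool.Agent.SmL.Fnl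

open Pool.Agent.BSDFF Pool.Agent.BSDFF.MW Height
open Pool.Agent.SmJ.L (GMod ZSel BSel Sel Rat)
open Pool.Agent.SmL.L Pool.Agent.SmL.V
open Pool.Agent.Sm.L (Pts gal gal_mul gal_one incl incl_inj gal_incl exists_incl level_point)
open Pool.Agent.SmN.Fnl (sel_eq)

section one

variable {k K Ω : Type} [Field k] [Field K] [Field Ω] [Algebra k K] [Algebra K Ω]
  [Algebra k Ω] [IsScalarTower k K Ω] [IsGalois K Ω]
  {l : ℕ} {A V1 Pl : Type} [AddCommGroup A] [DistribMulAction (Ω ≃ₐ[K] Ω) A]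
  [AddCommGroup V1] [Module (ZMod l) V1]
  {S : Sys l (AA l) (Ω ≃ₐ[K] Ω) (VM l (lPow l A)) V1 Pl} {i1 : V1 →+ lPow l A}
  {chi : (Ω ≃ₐ[K] Ω) → ZMod l} {m : ℕ} {L : IntermediateField K Ω}

/-- The hypotheses on one extension. -/
structure OneH (k : Type) {K Ω : Type} [Field k] [Field K] [Field Ω] [Algebra k K] [Algebra K Ω]
    {l : ℕ} {A V1 Pl : Type} [AddCommGroup A] [DistribMulAction (Ω ≃ₐ[K] Ω) A]
    [AddCommGroup V1] [Module (ZMod l) V1]
    (S : Sys l (AA l) (Ω ≃ₐ[K] Ω) (VM l (lPow l A)) V1 Pl) (i1 : V1 →+ lPow l A)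
    (chi : (Ω ≃ₐ[K] Ω) → ZMod l) (m : ℕ) (L : IntermediateField K Ω) : Prop where
  ok : S.Ok
  mok : MOk S i1
  br : BrH k l S.NN S.D
  tok : TOk k l (rh A : (Ω ≃ₐ[K] Ω) → A →+ A)
  act : ∀ i : ℕ, ∃ N ∈ S.NN, ∀ s ∈ N, ∀ P : A, l ^ i • P = 0 → s • P = P
  nofix : ∀ w : V1, (∀ s, S.ac s w = w) → w = 0
  finZ : {c : (Ω ≃ₐ[K] Ω) → V1 | S.CocG c ∧ ∀ v ∈ S.good, c (S.sg v) = 0}.Finite
  hom : S.HomG chi
  one : ∃ g, chi g = 1
  fin : Finite {Psi // S.IsSel chi m Psi}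
  lt : Nat.card {Psi // S.IsSel chi m Psi} < (l * Nat.card V1) ^ m
  fd : FiniteDimensional K L
  fix : ∀ s, s ∈ L.fixingSubgroup ↔ chi s = 0

theorem zsel_of_one (h : OneH k S i1 chi m L) : ∃ C : ℕ, ∀ i : ℕ,
    Finite (ZSel k (rh A : (Ω ≃ₐ[K] Ω) → A →+ A) (l ^ i)) ∧
    Finite (ZSel k (rhL (rh A) L) (l ^ i)) ∧
    Nat.card (ZSel k (rh A : (Ω ≃ₐ[K] Ω) → A →+ A) (l ^ i)) ≤
      Nat.card (ZSel k (rhL (rh A) L) (l ^ i)) ∧
    Nat.card (ZSel k (rhL (rh A) L) (l ^ i)) ≤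
      C * Nat.card (ZSel k (rh A : (Ω ≃ₐ[K] Ω) → A →+ A) (l ^ i)) := by
  have := h.fd
  obtain ⟨C, hC⟩ := sel_of_small h.ok h.mok h.hom h.one h.nofix h.finZ h.fin h.lt
  refine ⟨C, fun i => ?_⟩
  obtain ⟨h1, h2, h3, h4⟩ := hC i
  obtain ⟨e1⟩ := equivK (k := k) h.ok h.br h.act (e6c_of h.br.fam h.tok
    ⟨⊤, h.ok.top_mem, fun _ _ _ => rfl⟩ fun _ _ => (add_zero 0).symm) i
  obtain ⟨e2⟩ := equivL (k := k) h.br h.hom h.act (e6c_of h.br.fam h.tok h.hom.1 h.hom.2) L h.fix i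
  rw [Nat.card_congr e1, Nat.card_congr e2] at h3 h4
  exact ⟨Finite.of_equiv _ e1, Finite.of_equiv _ e2, h3, h4⟩

omit [Algebra k Ω] [IsScalarTower k K Ω] [IsGalois K Ω] in
theorem tors_of_one (h : OneH k S i1 chi m L) {i : ℕ} {P : A} (hP : l ^ i • P = 0)
    (h1 : ∀ s : Ω ≃ₐ[K] Ω, chi s = 0 → s • P = P) : P = 0 := by
  have hl : Fact l.Prime := ⟨h.ok.prime⟩
  have h2 := noinv h.mok h.hom.2 h.one h.nofix (⟨P, i, hP⟩ : lPow l A) fun s hs =>
    Subtype.ext (h1 s hs)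
  exact congrArg Subtype.val h2

omit [Algebra k Ω] [IsScalarTower k K Ω] [IsGalois K Ω] in
theorem finA (h : OneH k S i1 chi m L) (i : ℕ) : Finite (Gn A (l ^ i)) := by
  have h1 : Finite {P : A // l ^ i • P = 0} := h.tok.fin i
  exact Finite.of_injective (fun x : Gn A (l ^ i) => (⟨x.1, mem_Gn.1 x.2⟩ :
    {P : A // l ^ i • P = 0})) fun x y hxy => Subtype.ext
      (congrArg (fun z : {P : A // l ^ i • P = 0} => z.1) hxy)

omit [IsGalois K Ω] in
theorem gmodL (h : GMod (rh A : (Ω ≃ₐ[K] Ω) → A →+ A)) [FiniteDimensional K L] :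
    GMod (rhL (rh A) L) where
  one Q := one_smul _ Q
  mul s t Q := mul_smul (s.restrictScalars K) (t.restrictScalars K) Q
  level Q := by
    obtain ⟨F, hF, h1⟩ := h.level Q
    have hLF : L ≤ L ⊔ F := le_sup_left
    refine ⟨IntermediateField.extendScalars hLF, ?_, fun s t hst => ?_⟩
    · have h2 : FiniteDimensional K (L ⊔ F : IntermediateField K Ω) :=
        IntermediateField.finiteDimensional_sup L F
      have h3 : FiniteDimensional K (IntermediateField.extendScalars hLF) := h2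
      exact FiniteDimensional.right K L (IntermediateField.extendScalars hLF)
    · exact h1 _ _ fun x hx => hst x (le_sup_right (a := L) (b := F) hx)

/-- **The Selmer groups.** -/
theorem sel_of_one (h : OneH k S i1 chi m L) :
    SelCmp k l (rh A : (Ω ≃ₐ[K] Ω) → A →+ A) L := by
  have := h.fd
  obtain ⟨C, hC⟩ := zsel_of_one h
  refine ⟨C, fun i => ?_⟩
  obtain ⟨h1, h2, h3, h4⟩ := hC i
  refine sel_compare h.tok.gmod (gmodL h.tok.gmod) (fun P hP hs => ?_) (fun P hP hs => ?_)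
    (finA h i) h1 h2 h3 h4
  · exact tors_of_one h hP fun s _ => hs s
  · refine tors_of_one h hP fun s hs0 => ?_
    have h5 := hs (liftL s ((h.fix s).2 hs0))
    exact h5

end one

section ecF

variable {F : Type} [Field F] (W : WeierstrassCurve F)

/-- The group `W(F)`. -/
def PtG : Type := W.toAffine.Point

open scoped Classical in
noncomputable instance : AddCommGroup (PtG W) := inferInstanceAs (AddCommGroup W.toAffine.Point)

theorem rank_PtG : algebraicRank W = Module.finrank ℤ (PtG W) := rfl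

theorem fg_PtG : FgPts W ↔ Module.Finite ℤ (PtG W) := Iff.rfl

variable {k : Type} [Field k] [Algebra k F] (Ω : Type) [Field Ω] [Algebra F Ω] [IsGalois F Ω]

open scoped Classical in
theorem card_selF (n : ℕ) (hdiv : ∀ P : Pts Ω W, ∃ Q, n • Q = P) :
    Nat.card (Sm.L.Sel k Ω W n) = (nG (PtG W) n).index * Nat.card (Gn (Sm.L.Sha k Ω W) n) :=
  Pool.Agent.Sm.L.card_sel k Ω W n hdiv

open scoped Classical in
theorem fg_of_sel [W.IsElliptic] (hh : ∃ _ : AdmissibleAbsValues F, Northcott (logHeight₁ (K := F)))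
    {n : ℕ} (hn : 2 ≤ n) (hfin : Finite (Sm.L.Sel k Ω W n))
    (hdiv : ∀ P : Pts Ω W, ∃ Q, n • Q = P) : AddGroup.FG (PtG W) := by
  obtain ⟨_, _⟩ := hh
  have h0 := card_selF (k := k) W Ω n hdiv
  have hne : Nat.card (Sm.L.Sel k Ω W n) ≠ 0 := Nat.card_pos.ne'
  rw [h0] at hne
  exact fg_of_finiteIndex W hn ⟨left_ne_zero_of_mul hne⟩

end ecF

section ec

variable {k K Ω : Type} [Field k] [Field K] [Field Ω] [Algebra k K] [Algebra K Ω]
  [Algebra k Ω] [IsScalarTower k K Ω] (W : WeierstrassCurve K)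

/-- The Galois action on the points. -/
noncomputable abbrev actPts : DistribMulAction (Ω ≃ₐ[K] Ω) (Pts Ω W) where
  smul s P := gal Ω W s P
  one_smul P := gal_one Ω W P
  mul_smul s t P := gal_mul Ω W s t P
  smul_zero s := map_zero (gal Ω W s)
  smul_add s P Q := map_add (gal Ω W s) P Q

theorem galL_eq {L : IntermediateField K Ω} (s : Ω ≃ₐ[L] Ω) (P : Pts Ω W) :
    gal Ω (W.baseChange L) s P = (gal Ω W (s.restrictScalars K) P : Pts Ω W) := by
  rcases P with _ | ⟨x, y, h⟩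
  · rfl
  · rfl

/-- The points of `W(L)` are the points fixed by the kernel of `chi`. -/
theorem exists_equivL [IsGalois K Ω] {l : ℕ} {chi : (Ω ≃ₐ[K] Ω) → ZMod l}
    (L : IntermediateField K Ω) (hL : ∀ s, s ∈ L.fixingSubgroup ↔ chi s = 0) :
    letI := actPts (Ω := Ω) W
    Nonempty (PtG (W.baseChange L) ≃+ invA (Pts Ω W) chi) := by
  let _ := actPts (Ω := Ω) W
  let f : PtG (W.baseChange L) →+ Pts Ω W := incl Ω (W.baseChange L)
  have hf : ∀ P, f P ∈ invA (Pts Ω W) chi := by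
    intro P s hs
    have h1 := gal_incl Ω (W.baseChange L) (liftL s ((hL s).2 hs)) P
    rw [galL_eq] at h1
    exact h1
  refine ⟨AddEquiv.ofBijective (f.codRestrict _ hf) ⟨fun P Q h => ?_, fun Q => ?_⟩⟩
  · exact incl_inj Ω (W.baseChange L) (congrArg Subtype.val h)
  · obtain ⟨P, hP⟩ := exists_incl Ω (W.baseChange L) Q.1 fun s => by
      rw [galL_eq]
      exact Q.2 _ ((hL _).1 (res_mem s))
    exact ⟨P, Subtype.ext hP⟩

/-- The points of `W(K)` are the fixed points. -/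
theorem exists_equivK [IsGalois K Ω] :
    letI := actPts (Ω := Ω) W
    Nonempty (PtG W ≃+ invG (Ω ≃ₐ[K] Ω) (Pts Ω W)) := by
  let _ := actPts (Ω := Ω) W
  let f : PtG W →+ Pts Ω W := incl Ω W
  have hf : ∀ P, f P ∈ invG (Ω ≃ₐ[K] Ω) (Pts Ω W) := fun P s => gal_incl Ω W s P
  refine ⟨AddEquiv.ofBijective (f.codRestrict _ hf) ⟨fun P Q h => ?_, fun Q => ?_⟩⟩
  · exact incl_inj Ω W (congrArg Subtype.val h)
  · obtain ⟨P, hP⟩ := exists_incl Ω W Q.1 fun s => Q.2 s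
    exact ⟨P, Subtype.ext hP⟩

omit [Algebra k Ω] [IsScalarTower k K Ω] in
theorem selK_eq (n : ℕ) :
    letI := actPts (Ω := Ω) W
    Sm.L.Sel k Ω W n = Sel k (rh (Pts Ω W) : (Ω ≃ₐ[K] Ω) → _) n := by
  let _ := actPts (Ω := Ω) W
  have h1 : (rh (Pts Ω W) : (Ω ≃ₐ[K] Ω) → _) = gal Ω W :=
    funext fun s => AddMonoidHom.ext fun _ => rfl
  rw [h1]
  exact sel_eq k Ω W n

theorem selL_eq (L : IntermediateField K Ω) (n : ℕ) :
    letI := actPts (Ω := Ω) W
    Sm.L.Sel k Ω (W.baseChange L) n = Sel k (rhL (rh (Pts Ω W)) L) n := by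
  let _ := actPts (Ω := Ω) W
  have h1 : (rhL (rh (Pts Ω W)) L : (Ω ≃ₐ[L] Ω) → Pts Ω W →+ Pts Ω W) =
      (gal Ω (W.baseChange L) : (Ω ≃ₐ[L] Ω) → _) :=
    funext fun s => AddMonoidHom.ext fun P => (galL_eq W s P).symm
  rw [h1]
  exact sel_eq k Ω (W.baseChange L) n

variable {l m : ℕ} {V1 Pl : Type} [AddCommGroup V1] [Module (ZMod l) V1]
  {chi : (Ω ≃ₐ[K] Ω) → ZMod l} {L : IntermediateField K Ω}

/-- **The conclusions for an elliptic curve.** -/
theorem ec_of_one [IsGalois K Ω] [W.IsElliptic]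
    (hhK : ∃ _ : AdmissibleAbsValues K, Northcott (logHeight₁ (K := K)))
    (hhL : ∃ _ : AdmissibleAbsValues L, Northcott (logHeight₁ (K := L)))
    (h : letI := actPts (Ω := Ω) W
      ∃ (S : Sys l (AA l) (Ω ≃ₐ[K] Ω) (VM l (lPow l (Pts Ω W))) V1 Pl)
        (i1 : V1 →+ lPow l (Pts Ω W)), OneH k S i1 chi m L) : EcGood k l W L := by
  let _ := actPts (Ω := Ω) W
  obtain ⟨S, i1, h⟩ := h
  have hfd := h.fd
  have hl := h.ok.prime
  have hgL : IsGalois L Ω := inferInstance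
  have hEL : (W.baseChange L).IsElliptic := inferInstanceAs (W.map (algebraMap K L)).IsElliptic
  obtain ⟨C, hC⟩ := sel_of_one h
  have hC' : ∀ i : ℕ, Finite (Sm.L.Sel k Ω W (l ^ i)) ∧
      Finite (Sm.L.Sel k Ω (W.baseChange L) (l ^ i)) ∧
      Nat.card (Sm.L.Sel k Ω W (l ^ i)) ≤ Nat.card (Sm.L.Sel k Ω (W.baseChange L) (l ^ i)) ∧
      Nat.card (Sm.L.Sel k Ω (W.baseChange L) (l ^ i)) ≤
        C * Nat.card (Sm.L.Sel k Ω W (l ^ i)) := by
    intro i
    rw [selK_eq, selL_eq]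
    exact hC i
  have hdiv : ∀ (i : ℕ) (P : Pts Ω W), ∃ Q, l ^ i • Q = P := fun i P => pow_div' h.tok.div i P
  have hdivL : ∀ (i : ℕ) (P : Pts Ω (W.baseChange L)), ∃ Q, l ^ i • Q = P := hdiv
  -- finitely generated
  have hfgL : AddGroup.FG (PtG (W.baseChange L)) :=
    fg_of_sel (k := k) (W.baseChange L) Ω hhL (n := l ^ 1) (by rw [pow_one]; exact hl.two_le)
      (hC' 1).2.1 (hdivL 1)
  have hfgK : AddGroup.FG (PtG W) :=
    fg_of_sel (k := k) W Ω hhK (n := l ^ 1) (by rw [pow_one]; exact hl.two_le) (hC' 1).1 (hdiv 1)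
  obtain ⟨eL⟩ := exists_equivL W L h.fix
  obtain ⟨eK⟩ := exists_equivK (Ω := Ω) W
  have hfgA : AddGroup.FG (invA (Pts Ω W) chi) :=
    AddGroup.fg_of_surjective (f := eL.toAddMonoidHom) eL.surjective
  -- the ranks
  have hrank : Module.finrank ℤ (PtG (W.baseChange L)) = Module.finrank ℤ (PtG W) := by
    have h1 := rank_of_small h.ok h.mok h.hom h.one h.nofix (kumH_of h.br h.hom h.tok h.act) hfgA
      h.fin h.lt
    rw [LinearEquiv.finrank_eq eL.toIntLinearEquiv, LinearEquiv.finrank_eq eK.toIntLinearEquiv]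
    exact h1.symm
  -- the torsion
  have htL : ∀ i : ℕ, Nat.card (Gn (PtG (W.baseChange L)) (l ^ i)) = 1 := by
    intro i
    rw [card_equiv eL, Nat.card_eq_one_iff_unique]
    refine ⟨⟨fun x y => ?_⟩, ⟨0⟩⟩
    have h2 : ∀ x : Gn (invA (Pts Ω W) chi) (l ^ i), x = 0 := fun x => by
      apply Subtype.ext
      apply Subtype.ext
      exact tors_of_one h (congrArg Subtype.val (mem_Gn.1 x.2)) fun s hs => x.1.2 s hs
    rw [h2 x, h2 y]
  have htK : ∀ i : ℕ, Nat.card (Gn (PtG W) (l ^ i)) = 1 := by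
    intro i
    rw [card_equiv eK, Nat.card_eq_one_iff_unique]
    refine ⟨⟨fun x y => ?_⟩, ⟨0⟩⟩
    have h2 : ∀ x : Gn (invG (Ω ≃ₐ[K] Ω) (Pts Ω W)) (l ^ i), x = 0 := fun x => by
      apply Subtype.ext
      apply Subtype.ext
      exact tors_of_one h (congrArg Subtype.val (mem_Gn.1 x.2)) fun s _ => x.1.2 s
    rw [h2 x, h2 y]
  -- the Tate-Shafarevich groups
  have hselL : ∀ i : ℕ, Nat.card (Sm.L.Sel k Ω (W.baseChange L) (l ^ i)) =
      (l ^ i) ^ Module.finrank ℤ (PtG W) *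
        Nat.card (Gn (Sm.L.Sha k Ω (W.baseChange L)) (l ^ i)) := by
    intro i
    rw [card_selF (k := k) (W.baseChange L) Ω (l ^ i) (hdivL i),
      index_nG _ hfgL _ (pow_ne_zero i hl.ne_zero), htL i, mul_one, hrank]
  have hselK : ∀ i : ℕ, Nat.card (Sm.L.Sel k Ω W (l ^ i)) =
      (l ^ i) ^ Module.finrank ℤ (PtG W) * Nat.card (Gn (Sm.L.Sha k Ω W) (l ^ i)) := by
    intro i
    rw [card_selF (k := k) W Ω (l ^ i) (hdiv i),
      index_nG _ hfgK _ (pow_ne_zero i hl.ne_zero), htK i, mul_one]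
  have hpos : ∀ i : ℕ, 0 < (l ^ i) ^ Module.finrank ℤ (PtG W) := fun i =>
    Nat.pow_pos (Nat.pow_pos hl.pos)
  refine ⟨Module.Finite.iff_addGroup_fg.mpr hfgL, hrank, ⟨C, hC'⟩, lPow_iff (C := C)
    (fun i => ?_) (fun i => ?_) (fun i => ?_) fun i => ?_⟩
  · refine Nat.finite_of_card_ne_zero fun h0 => ?_
    have h1 := hselK i
    rw [h0, mul_zero] at h1
    have := (hC' i).1
    exact absurd h1 Nat.card_pos.ne'
  · refine Nat.finite_of_card_ne_zero fun h0 => ?_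
    have h1 := hselL i
    rw [h0, mul_zero] at h1
    have := (hC' i).2.1
    exact absurd h1 Nat.card_pos.ne'
  · have h1 := (hC' i).2.2.1
    rw [hselK, hselL] at h1
    exact Nat.le_of_mul_le_mul_left h1 (hpos i)
  · have h1 := (hC' i).2.2.2
    rw [hselK, hselL, mul_left_comm] at h1
    exact Nat.le_of_mul_le_mul_left h1 (hpos i)

end ec

end Pool.Agent.SmL.Fnl
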