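import Pool.Agent.Lib.SmL.Fnl.Chr
import Pool.Agent.Lib.SmL.Fnl.One
import Pool.Agent.Lib.SmL.Fin.AOkStd
import Pool.Agent.Lib.SmL.Fld.ExStd
import Pool.Agent.Lib.GBC.H.Sep

/-!
# SMITH-L, final layer: the theorem for a module over a global function field

`BigA k l A`: an element of the Galois group acts as `-1` on `A[l]`, the Galois group spans the
endomorphisms of `A[l]`, and the wild inertia groups act trivially on `A[l]`. `main_mod`: for `100` per
cent of the cyclic extensions of degree `l` all the hypotheses `OneH` hold.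
-/

set_option autoImplicit false

open Finset

namespace Pool.Agent.SmL.Fnl

open Pool.Agent.BSDFF Pool.Agent.Lib.SmD Pool.Agent.GBU Pool.Agent.SmL.Ar Pool.Agent.SmL.C
  Pool.Agent.SmL.Fld Pool.Agent.SmL.Ch Pool.Agent.SmL.V Pool.Agent.SmL.L
open Pool.Agent.GBC (exists_ratFunc)

section defs

variable {K Ω : Type} [Field K] [Field Ω] [Algebra K Ω]

/-- The hypotheses on the action on `A[l]`. -/
structure BigA (K Ω : Type) [Field K] [Field Ω] [Algebra K Ω] (l : ℕ) (A : Type) [AddCommGroup A]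
    [DistribMulAction (Ω ≃ₐ[K] Ω) A] : Prop where
  ne : ∃ P : A, P ≠ 0 ∧ l • P = 0
  neg : ∃ τ : Ω ≃ₐ[K] Ω, ∀ P : A, l • P = 0 → τ • P = -P
  span : ∀ f : A → A, (∀ P Q, l • P = 0 → l • Q = 0 → f (P + Q) = f P + f Q) →
    (∀ P, l • P = 0 → l • f P = 0) →
    ∃ c : (Ω ≃ₐ[K] Ω) →₀ ℤ, ∀ P, l • P = 0 → f P = ∑ s ∈ c.support, c s • s • P
  tame : ∀ w : ValuationSubring Ω, w ≠ ⊤ → ∀ s ∈ iner K w, ∀ m : ℕ,
    (∀ P : A, l • P = 0 → s ^ (ringChar K ^ m) • P = P) → ∀ P : A, l • P = 0 → s • P = P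

/-- The kernel of the action on `A[l]`. -/
def kerA (K Ω : Type) [Field K] [Field Ω] [Algebra K Ω] (l : ℕ) (A : Type) [AddCommGroup A]
    [DistribMulAction (Ω ≃ₐ[K] Ω) A] : Subgroup (Ω ≃ₐ[K] Ω) where
  carrier := {s | ∀ P : A, l • P = 0 → s • P = P}
  one_mem' := fun P _ => one_smul _ P
  mul_mem' := by
    intro s t hs ht P hP
    rw [mul_smul, ht P hP, hs P hP]
  inv_mem' := by
    intro s hs P hP
    rw [inv_smul_eq_iff]
    exact (hs P hP).symm

variable {l : ℕ} {A : Type} [AddCommGroup A] [DistribMulAction (Ω ≃ₐ[K] Ω) A]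

theorem mem_kerA {s : Ω ≃ₐ[K] Ω} : s ∈ kerA K Ω l A ↔ ∀ P : A, l • P = 0 → s • P = P := Iff.rfl

theorem kerA_normal : (kerA K Ω l A).Normal := by
  refine ⟨fun s hs g P hP => ?_⟩
  rw [mul_smul, mul_smul]
  have h1 : l • (g⁻¹ • P) = 0 := by rw [← smul_comm g⁻¹ l P, hP, smul_zero]
  rw [hs _ h1, smul_inv_smul]

theorem hneg_of {τ : Ω ≃ₐ[K] Ω} (h : ∀ P : A, l • P = 0 → τ • P = -P) (x : L1 l A) :
    ac1 l (Ω ≃ₐ[K] Ω) A τ x = -x := by
  apply inc1_inj
  rw [inc1_ac, map_neg]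
  exact h _ (inc1_l x)

theorem hsp_of (h : BigA K Ω l A) :
    Submodule.span (ZMod l) (Set.range fun g : Ω ≃ₐ[K] Ω =>
      (ac1 l (Ω ≃ₐ[K] Ω) A g : L1 l A →ₗ[ZMod l] L1 l A)) = ⊤ := by
  classical
  refine Submodule.eq_top_iff'.2 fun B => ?_
  obtain ⟨c, hc⟩ := h.span (fun P => if hP : l • P = 0 then inc1 l A (B (⟨P, hP⟩ : L1 l A)) else 0)
    (fun P Q hP hQ => by
      have hPQ : l • (P + Q) = 0 := by rw [smul_add, hP, hQ, add_zero]
      rw [dif_pos hP, dif_pos hQ, dif_pos hPQ, ← map_add, ← map_add]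
      rfl) (fun P hP => by
      rw [dif_pos hP]
      exact inc1_l _)
  have h1 : B = ∑ s ∈ c.support, ((c s : ℤ) : ZMod l) •
      (ac1 l (Ω ≃ₐ[K] Ω) A s : L1 l A →ₗ[ZMod l] L1 l A) := by
    refine LinearMap.ext fun x => ?_
    apply inc1_inj
    have h2 := hc (inc1 l A x) (inc1_l x)
    rw [dif_pos (inc1_l x)] at h2
    rw [LinearMap.sum_apply, map_sum]
    refine (Eq.trans ?_ h2).trans (sum_congr rfl fun s _ => ?_)
    · rfl
    · rw [LinearMap.smul_apply, Int.cast_smul_eq_zsmul, map_zsmul]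
      rfl
  rw [h1]
  exact Submodule.sum_mem _ fun s _ => Submodule.smul_mem _ _ (Submodule.subset_span ⟨s, rfl⟩)

theorem nontrivial_of (h : BigA K Ω l A) : Nontrivial (L1 l A) := by
  obtain ⟨P, h0, hP⟩ := h.ne
  exact ⟨⟨(⟨P, hP⟩ : L1 l A), 0, fun h1 => h0 (congrArg (inc1 l A) h1)⟩⟩

theorem kerA_open {k : Type} [Field k] [Algebra k K] [IsSepClosure K Ω]
    (hT : TOk k l (rh A : (Ω ≃ₐ[K] Ω) → A →+ A)) :
    IsOpen (kerA K Ω l A : Set (Ω ≃ₐ[K] Ω)) := by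
  classical
  have hgal : IsGalois K Ω := inferInstance
  have hf : Finite {P : A // l • P = 0} := by
    have := hT.fin 1
    rwa [pow_one] at this
  have h1 : ∀ P : {P : A // l • P = 0}, ∃ U : Subgroup (Ω ≃ₐ[K] Ω),
      IsOpen (U : Set (Ω ≃ₐ[K] Ω)) ∧ ∀ s ∈ U, s • P.1 = P.1 := by
    intro P
    obtain ⟨F, hF, h2⟩ := hT.gmod.level P.1
    have : FiniteDimensional K F := hF
    refine ⟨F.fixingSubgroup, IntermediateField.fixingSubgroup_isOpen F, fun s hs => ?_⟩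
    have h3 := h2 s 1 fun x hx => (IntermediateField.mem_fixingSubgroup_iff F s).1 hs x hx
    have h4 : rh A (1 : Ω ≃ₐ[K] Ω) P.1 = P.1 := one_smul _ P.1
    rw [h4] at h3
    exact h3
  choose U hU hUP using h1
  refine Subgroup.isOpen_mono (H₁ := ⨅ P, U P) (fun s hs P hP => ?_) ?_
  · exact hUP ⟨P, hP⟩ s (Subgroup.mem_iInf.1 hs ⟨P, hP⟩)
  · rw [Subgroup.coe_iInf]
    exact isOpen_iInter_of_finite fun P => hU P

theorem kerA_tame {k : Type} [Field k] [Algebra k K] [IsSepClosure K Ω]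
    (hT : TOk k l (rh A : (Ω ≃ₐ[K] Ω) → A →+ A)) (h : BigA K Ω l A) : TameN (kerA K Ω l A) where
  normal := kerA_normal
  isOpen := kerA_open hT
  tame w hw s hs m hm := h.tame w hw s hs m hm

end defs

section main

variable {k K Ω : Type} [Field k] [Finite k] [Field K] [Algebra k K] [Algebra (RatFunc k) K]
  [IsScalarTower k (RatFunc k) K] [FiniteDimensional (RatFunc k) K]
  [Algebra.IsSeparable (RatFunc k) K] [Field Ω] [Algebra K Ω] [IsSepClosure K Ω] {l : ℕ}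
  {A : Type} [AddCommGroup A] [DistribMulAction (Ω ≃ₐ[K] Ω) A]

omit [Finite k] [Field k] in
theorem form_of {en : ℕ → A → A → Additive Ωˣ}
    (h : FormOk l (rh A : (Ω ≃ₐ[K] Ω) → A →+ A) en) :
    Form (U := MuU Ω) l (Ω ≃ₐ[K] Ω) en where
  add_left := h.add_left
  add_right := h.add_right
  comp := h.comp
  equiv := h.equiv
  alt := h.alt
  nondeg := h.nondeg

/-- **The theorem for a module.** -/
theorem main_ratFunc (h2 : (2 : k) ≠ 0)
    (hk : ∀ x : K, IsIntegral k x → ∃ c : k, algebraMap k K c = x) (hl : l.Prime) (hl2 : l ≠ 2)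
    (hζ : ∃ ζ : K, IsPrimitiveRoot ζ l) (hT : TOk k l (rh A : (Ω ≃ₐ[K] Ω) → A →+ A))
    (hbig : BigA K Ω l A) (Good : IntermediateField K Ω → Prop)
    (hgood : ∀ (S : Sys l (AA l) (Ω ≃ₐ[K] Ω) (VM l (lPow l A)) (L1 l A) (Place k K))
      (chi : (Ω ≃ₐ[K] Ω) → ZMod l) (m : ℕ) (L : IntermediateField K Ω),
      OneH k S (incP l A) chi m L → Good L) :
    (∀ n, (Cyc k Ω l n : Set (IntermediateField K Ω)).Finite) ∧
    (∃ c : ℝ, 0 < c ∧ ∃ n₀ : ℕ, ∀ n ≥ n₀, c * (n : ℝ) ^ (l - 2) * (Nat.card k : ℝ) ^ n ≤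
      (Cyc k Ω l n : Set (IntermediateField K Ω)).ncard) ∧
    ∀ ε : ℝ, 0 < ε → ∃ n₀ : ℕ, ∀ n ≥ n₀,
      ({L ∈ (Cyc k Ω l n : Set (IntermediateField K Ω)) | ¬ Good L}.ncard : ℝ) ≤
        ε * (Cyc k Ω l n : Set (IntermediateField K Ω)).ncard := by
  classical
  have hgal : IsGalois K Ω := inferInstance
  have := nontrivial_of hbig
  obtain ⟨z, hz⟩ := hζ
  have hζ' : IsPrimitiveRoot (algebraMap K Ω z) l := hz.map_of_injective (algebraMap K Ω).injective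
  have hζK : ∃ z' : K, algebraMap K Ω z' = algebraMap K Ω z := ⟨z, rfl⟩
  have hlk : (l : k) ≠ 0 := by
    intro h0
    have hl0 : NeZero l := ⟨hl.ne_zero⟩
    have h3 : NeZero ((l : ℕ) : K) := hz.neZero'
    apply h3.out
    rw [← map_natCast (algebraMap k K), h0, map_zero]
  -- the standard data
  set N0 := kerA K Ω l A with hN0
  have h0 : TameN N0 := kerA_tame hT hbig
  obtain ⟨sg, ph, hS⟩ := exists_std h2 hl hζ' hζK h0 (fun v : Place k K => abK Ω v)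
    fun v => below_abK Ω v
  obtain ⟨th, ht⟩ := exists_th (K := K) (Ω := Ω) hl hζ' hζK
  obtain ⟨en, hen⟩ := hT.form
  have hf := form_of hen
  have hmem : N0 ∈ NNt N0 := NNp.self_mem h0.normal h0.isOpen
  have h1 : ∃ N ∈ NNt N0, ∀ s ∈ N, ∀ P : A, l • P = 0 → s • P = P := ⟨N0, hmem, fun s hs => hs⟩
  obtain ⟨T1, hM⟩ := exists_modOk hl hlk hS hT h1
  obtain ⟨fr, hfr⟩ := exists_isFrC (k := k) (K := K) (Om := Ω)
    fun x hx => hk x (SmBU.isIntegral_iff_isC.2 hx)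
  obtain ⟨τ, hτ⟩ := hbig.neg
  obtain ⟨T0, hT0⟩ := exists_aok h2 hk hl hl2 hζ' hζK h0 hS hf ht (hM T1 subset_rfl)
    (hneg_of hτ) (hsp_of hbig) hfr
  obtain ⟨T2, hT2⟩ := hT0 (T0 ∪ T1) subset_union_left
  obtain ⟨a, C, m0, hA⟩ := hT2 T2 subset_rfl
  have hMU := hM (T0 ∪ T1) subset_union_right
  set S := sysV (bK (NNt N0) (fun v : Place k K => abK Ω v) sg ph) (T0 ∪ T1) hf ht with hSdef
  have hB := std_ok hl hl2 hζ' hζK hS
  have hG := (all_gd h2 hl hl2 hζ' hζK h0 hS (cheb1_std hk hS) (dpA_ok hMU hf ht) (τ := τ)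
    ⟨hneg_of hτ, hneg_of hτ⟩).1
  obtain ⟨h3, h4⟩ := all_abs T2.finite_toSet hA
  have h5 := grow_abs T2.finite_toSet hA
  refine cyc_of_chars (S := S) hl hl2 hS rfl rfl hB.top_mem Finite.one_lt_card h3 h4 h5 Good
    fun c hc hc0 m hm => hgood S c m (fld c) ?_
  exact
    { ok := hA.ok
      mok := mokV hMU
      br := brH_of hS
      tok := hT
      act := hMU.act_fin
      nofix := hA.nofix
      finZ := hG.gl.fin (T0 ∪ T1)
      hom := (homG_iff hl hS rfl hB.top_mem).2 hc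
      one := exists_one hl hc hc0
      fin := hm.1
      lt := hm.2
      fd := fld_fd hc
      fix := mem_fix hc }

end main

end Pool.Agent.SmL.Fnl
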