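import Pool.Agent.Lib.SmL.Fnl.Conc

/-!
# SMITH-L, final layer: self-dual pure modules

`SelfDual k l ρ`: `M` is an `l`-divisible `l`-power torsion module with an action `ρ` of the Galois group,
with an alternating pairing with values in the roots of unity, pure of weight `-1` in the sense that
only finitely many elements are fixed by the open subgroups of the decomposition groups, with a large
image of the Galois group on `M[l]`. `main_M`: the Selmer groups of `M` over `K` and over `L` are equal up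
to a constant for `100` per cent of the cyclic extensions `L` of degree `l`.
-/

set_option autoImplicit false

namespace Pool.Agent.SmL.Fnl

open Pool.Agent.BSDFF Pool.Agent.Lib.SmD Pool.Agent.GBU Pool.Agent.SmL.Ar Pool.Agent.SmL.C
  Pool.Agent.SmL.Fld Pool.Agent.SmL.Ch Pool.Agent.SmL.V Pool.Agent.SmL.L
open Pool.Agent.GBC (exists_ratFunc)
open Pool.Agent.SmJ.L (GMod)

variable {k K Ω : Type} [Field k] [Field K] [Algebra k K] [Field Ω] [Algebra K Ω]
  {l : ℕ} {M : Type} [AddCommGroup M]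

theorem fin_pow (hdiv : ∀ P : M, ∃ Q, l • Q = P) (h : {P : M | l • P = 0}.Finite) (n : ℕ) :
    Finite {P : M // l ^ n • P = 0} := by
  induction n with
  | zero =>
    have h0 : ∀ P : M, l ^ 0 • P = 0 → P = 0 := fun P hP => by rwa [pow_zero, one_smul] at hP
    have : Subsingleton {P : M // l ^ 0 • P = 0} :=
      ⟨fun x y => Subtype.ext ((h0 _ x.2).trans (h0 _ y.2).symm)⟩
    infer_instance
  | succ n ih =>
    choose g hg using hdiv
    have hf : Finite {P : M // l • P = 0} := h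
    refine Finite.of_injective (β := {P : M // l ^ n • P = 0} × {P : M // l • P = 0})
      (fun P => (⟨l • P.1, by rw [← mul_smul, ← pow_succ]; exact P.2⟩,
        ⟨P.1 - g (l • P.1), by rw [smul_sub, hg, sub_self]⟩)) fun P Q hPQ => ?_
    have h1 : l • P.1 = l • Q.1 :=
      congrArg (fun x : {P : M // l ^ n • P = 0} × {P : M // l • P = 0} => x.1.1) hPQ
    have h2 : P.1 - g (l • P.1) = Q.1 - g (l • Q.1) :=
      congrArg (fun x : {P : M // l ^ n • P = 0} × {P : M // l • P = 0} => x.2.1) hPQ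
    rw [h1] at h2
    exact Subtype.ext (sub_left_injective h2)

theorem SelfDual.gmod {ρ : (Ω ≃ₐ[K] Ω) → M →+ M} (h : SelfDual k l ρ) : GMod ρ :=
  ⟨h.one, h.mul, h.cont⟩

/-- The action of a module. -/
abbrev actM {ρ : (Ω ≃ₐ[K] Ω) → M →+ M} (h : GMod ρ) : DistribMulAction (Ω ≃ₐ[K] Ω) M where
  smul s P := ρ s P
  one_smul P := h.one P
  mul_smul s t P := h.mul s t P
  smul_zero s := map_zero (ρ s)
  smul_add s P Q := map_add (ρ s) P Q

theorem formOk_of {ρ : (Ω ≃ₐ[K] Ω) → M →+ M} {en : ℕ → M → M → Ωˣ} (h : Pairing l ρ en) :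
    FormOk l ρ (fun n x y => Additive.ofMul (en n x y)) where
  add_left n x x' y hx hx' hy := by rw [h.mul_left n x x' y hx hx' hy, ofMul_mul]
  add_right n x y y' hx hy hy' := by rw [h.mul_right n x y y' hx hy hy', ofMul_mul]
  comp n x y hx hy := by rw [h.comp n x y hx hy]
  equiv n s x y hx hy := by
    have h1 : en n (ρ s x) (ρ s y) = Units.map (s : Ω →* Ω) (en n x y) :=
      Units.ext (h.equiv n s x y hx hy)
    rw [h1]
    rfl
  alt x hx := by rw [h.alt x hx, ofMul_one]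
  nondeg x hx hy := h.nondeg x hx fun y hy1 => by
    have h1 := hy y hy1
    rwa [ofMul_eq_zero] at h1

theorem SelfDual.tok {ρ : (Ω ≃ₐ[K] Ω) → M →+ M} (h : SelfDual k l ρ) : TOk k l ρ where
  gmod := h.gmod
  div := h.div
  fin := fin_pow h.div h.fin
  form := by
    obtain ⟨en, hen⟩ := h.form
    exact ⟨_, formOk_of hen⟩
  triv := by
    obtain ⟨T, hT, h1⟩ := h.unr
    exact ⟨T, hT, fun v hv w _ hwv s hs P _ => h1 v hv w hwv s (iner_iff.2 hs) P⟩
  fix w hw hc U hU := (h.pure w hw hc U hU).subset fun P hP => hP.2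
  e6 w hw hc U hU j Q hQ := ⟨Q, h.tors Q, fun s _ _ => rfl⟩

/-- **The theorem for modules.** -/
theorem main_M [Finite k] [IsSepClosure K Ω] [Algebra k Ω] [IsScalarTower k K Ω]
    [Algebra.EssFiniteType k K] (hK : Algebra.trdeg k K = 1)
    (hk : ∀ x : K, IsIntegral k x → ∃ c : k, algebraMap k K c = x) (h2 : (2 : k) ≠ 0)
    (hl : l.Prime) (hl2 : l ≠ 2) (hζ : ∃ ζ : K, IsPrimitiveRoot ζ l)
    {ρ : (Ω ≃ₐ[K] Ω) → M →+ M} (h : SelfDual k l ρ) :
    (∀ n, (Cyc k Ω l n : Set (IntermediateField K Ω)).Finite) ∧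
    (∃ c : ℝ, 0 < c ∧ ∃ n₀ : ℕ, ∀ n ≥ n₀, c * (n : ℝ) ^ (l - 2) * (Nat.card k : ℝ) ^ n ≤
      (Cyc k Ω l n : Set (IntermediateField K Ω)).ncard) ∧
    ∀ ε : ℝ, 0 < ε → ∃ n₀ : ℕ, ∀ n ≥ n₀,
      ({L ∈ (Cyc k Ω l n : Set (IntermediateField K Ω)) | ¬ SelCmp k l ρ L}.ncard : ℝ) ≤
        ε * (Cyc k Ω l n : Set (IntermediateField K Ω)).ncard := by
  have hpf : PerfectField k := inferInstance
  obtain ⟨alg, i1, i2, i3⟩ := exists_ratFunc k K hK
  have hgal : IsGalois K Ω := inferInstance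
  let _ := actM h.gmod
  have e : (rh M : (Ω ≃ₐ[K] Ω) → M →+ M) = ρ := funext fun s => AddMonoidHom.ext fun _ => rfl
  refine main_ratFunc (A := M) h2 hk hl hl2 hζ (by rw [e]; exact h.tok)
    ⟨h.ne, h.neg, h.span,
      fun w hw s hs => h.tame w hw s (iner_iff.2 hs)⟩ (fun L => SelCmp k l ρ L) fun S chi m L h1 => ?_
  have h3 := sel_of_one h1
  rwa [e] at h3

end Pool.Agent.SmL.Fnl
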