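import Pool.Agent.Lib.SmL.Fnl.InstE
import Pool.Agent.Lib.SmL.Fnl.InstM

/-!
# SMITH-L, final layer: the final forms of the theorems
-/

set_option autoImplicit false

open WeierstrassCurve

namespace Pool.Agent.SmL.Fnl

open Pool.Agent.BSDFF

/-- If `l` divides `#k - 1` then the extensions of `k` contain the `l`-th roots of unity. -/
theorem exists_zeta (k K : Type) [Field k] [Finite k] [Field K] [Algebra k K] {l : ℕ}
    (hlk : l ∣ Nat.card k - 1) : ∃ ζ : K, IsPrimitiveRoot ζ l := by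
  classical
  have := Fintype.ofFinite k
  obtain ⟨g, hg⟩ := IsCyclic.exists_ofOrder_eq_natCard (α := kˣ)
  have hc : Nat.card kˣ = Nat.card k - 1 := Nat.card_units k
  have hpos : 0 < Nat.card kˣ := Nat.card_pos
  have hl0 : l ≠ 0 := by
    rintro rfl
    rw [zero_dvd_iff] at hlk
    omega
  have h1 : orderOf (g ^ (Nat.card kˣ / l)) = l := by
    rw [orderOf_pow_of_dvd (Nat.div_pos (Nat.le_of_dvd hpos (hc ▸ hlk)) (Nat.pos_of_ne_zero hl0)).ne'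
      (by rw [hg]; exact Nat.div_dvd_of_dvd (hc ▸ hlk)), hg]
    exact Nat.div_div_self (hc ▸ hlk) hpos.ne'
  have h2 : IsPrimitiveRoot (g ^ (Nat.card kˣ / l)) l := by
    have h3 := IsPrimitiveRoot.orderOf (g ^ (Nat.card kˣ / l))
    rwa [h1] at h3
  have h3 : IsPrimitiveRoot ((g ^ (Nat.card kˣ / l) : kˣ) : k) l :=
    IsPrimitiveRoot.coe_units_iff.2 h2
  exact ⟨_, h3.map_of_injective (algebraMap k K).injective⟩

theorem isElliptic_AB {K : Type} [Field K] (h2 : (2 : K) ≠ 0) {A B : K}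
    (h : 4 * A ^ 3 + 27 * B ^ 2 ≠ 0) : (crvAB A B).IsElliptic := by
  refine ⟨isUnit_iff_ne_zero.2 ?_⟩
  have h1 : (crvAB A B).Δ = -(2 ^ 4) * (4 * A ^ 3 + 27 * B ^ 2) := by
    simp only [WeierstrassCurve.Δ, WeierstrassCurve.b₂, WeierstrassCurve.b₄, WeierstrassCurve.b₆,
      WeierstrassCurve.b₈]
    ring
  rw [h1]
  exact mul_ne_zero (neg_ne_zero.2 (pow_ne_zero _ h2)) h

/-- **Elliptic curves.** -/
theorem fin_E (k K Ω : Type) [Field k] [Finite k] [Field K] [Algebra k K]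
    [Algebra.EssFiniteType k K] (hK : Algebra.trdeg k K = 1)
    (hk : ∀ x : K, IsIntegral k x → ∃ c : k, algebraMap k K c = x) (h6 : (6 : k) ≠ 0)
    [Field Ω] [Algebra K Ω] [IsSepClosure K Ω] [Algebra k Ω] [IsScalarTower k K Ω]
    (l : ℕ) (hl : l.Prime) (hl2 : l ≠ 2) (hlk : l ∣ Nat.card k - 1) (A B : K)
    (hAB : 4 * A ^ 3 + 27 * B ^ 2 ≠ 0) (hE : BigE Ω l (crvAB A B)) :
    (∀ n, (Cyc k Ω l n : Set (IntermediateField K Ω)).Finite) ∧
    (∃ c : ℝ, 0 < c ∧ ∃ n₀ : ℕ, ∀ n ≥ n₀, c * (n : ℝ) ^ (l - 2) * (Nat.card k : ℝ) ^ n ≤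
      (Cyc k Ω l n : Set (IntermediateField K Ω)).ncard) ∧
    ∀ ε : ℝ, 0 < ε → ∃ n₀ : ℕ, ∀ n ≥ n₀,
      ({L ∈ (Cyc k Ω l n : Set (IntermediateField K Ω)) | ¬ EcGood k l (crvAB A B) L}.ncard : ℝ) ≤
        ε * (Cyc k Ω l n : Set (IntermediateField K Ω)).ncard := by
  have h2 : (2 : K) ≠ 0 := by
    intro h0
    apply h6
    have h7 : algebraMap k K 6 = 0 := by
      rw [map_ofNat]
      have : (6 : K) = 2 * 3 := by norm_num
      rw [this, h0, zero_mul]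
    exact (map_eq_zero _).1 h7
  have := isElliptic_AB h2 hAB
  exact main_E hK hk h6 hl hl2 (exists_zeta k K hlk) rfl rfl rfl hE

/-- **Modules.** -/
theorem fin_M (k K Ω M : Type) [Field k] [Finite k] [Field K] [Algebra k K]
    [Algebra.EssFiniteType k K] (hK : Algebra.trdeg k K = 1)
    (hk : ∀ x : K, IsIntegral k x → ∃ c : k, algebraMap k K c = x) (h2 : (2 : k) ≠ 0)
    [Field Ω] [Algebra K Ω] [IsSepClosure K Ω] [Algebra k Ω] [IsScalarTower k K Ω]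
    [AddCommGroup M] (l : ℕ) (hl : l.Prime) (hl2 : l ≠ 2) (hlk : l ∣ Nat.card k - 1)
    (ρ : (Ω ≃ₐ[K] Ω) → M →+ M) (hM : SelfDual k l ρ) :
    (∀ n, (Cyc k Ω l n : Set (IntermediateField K Ω)).Finite) ∧
    (∃ c : ℝ, 0 < c ∧ ∃ n₀ : ℕ, ∀ n ≥ n₀, c * (n : ℝ) ^ (l - 2) * (Nat.card k : ℝ) ^ n ≤
      (Cyc k Ω l n : Set (IntermediateField K Ω)).ncard) ∧
    ∀ ε : ℝ, 0 < ε → ∃ n₀ : ℕ, ∀ n ≥ n₀,
      ({L ∈ (Cyc k Ω l n : Set (IntermediateField K Ω)) | ¬ SelCmp k l ρ L}.ncard : ℝ) ≤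
        ε * (Cyc k Ω l n : Set (IntermediateField K Ω)).ncard :=
  main_M hK hk h2 hl hl2 (exists_zeta k K hlk) hM

end Pool.Agent.SmL.Fnl
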