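import Pool.Agent.Lib.SmL.Fnl.Conc
import Pool.Agent.Lib.SmL.E.ChebX
import Pool.Agent.Lib.SmL.E.TameE
import Pool.Agent.Lib.SmN.Fin.FinE

/-!
# SMITH-L, final layer: elliptic curves

`BigE`: the hypotheses on the action on `E[l]`. `main_E`: the theorem for elliptic curves.
-/

set_option autoImplicit false

open WeierstrassCurve
open scoped WeierstrassCurve.Affine

namespace Pool.Agent.SmL.Fnl

open Pool.Agent.BSDFF Pool.Agent.Lib.SmD Pool.Agent.GBU Pool.Agent.SmL.Ar Pool.Agent.SmL.C
  Pool.Agent.SmL.Fld Pool.Agent.SmL.Ch Pool.Agent.SmL.V Pool.Agent.SmL.L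
open Pool.Agent.GBC (exists_ratFunc)
open Pool.Agent.Sm.L (Pts gal)
open Pool.Agent.SmL.E (gE tOk_E chebE tame_fix sep_card_tors)

section lin

variable {K Ω : Type} [Field K] [Field Ω] [Algebra K Ω] {l : ℕ} {A : Type} [AddCommGroup A]
  [DistribMulAction (Ω ≃ₐ[K] Ω) A]

/-- If `A[l]` has `l ^ 2` elements and the Galois group spans its endomorphisms then some element of
the Galois group is not a scalar. -/
theorem exists_nonscalar (hl : l.Prime) (hcard : Nat.card {P : A // l • P = 0} = l ^ 2)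
    (h : ∀ f : A → A, (∀ P Q, l • P = 0 → l • Q = 0 → f (P + Q) = f P + f Q) →
      (∀ P, l • P = 0 → l • f P = 0) →
      ∃ c : (Ω ≃ₐ[K] Ω) →₀ ℤ, ∀ P, l • P = 0 → f P = ∑ s ∈ c.support, c s • s • P) :
    ∃ s : Ω ≃ₐ[K] Ω, ¬ ∃ c : ℤ, ∀ P : A, l • P = 0 → s • P = c • P := by
  classical
  have : Fact l.Prime := ⟨hl⟩
  by_contra hcon
  push Not at hcon
  choose d hd using hcon
  have hcard' : Nat.card (L1 l A) = l ^ 2 := hcard
  have hnt : Nontrivial (L1 l A) := by
    have : Finite (L1 l A) := Nat.finite_of_card_ne_zero (by rw [hcard']; exact pow_ne_zero _ hl.ne_zero)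
    rw [← Finite.one_lt_card_iff_nontrivial, hcard']
    exact Nat.one_lt_pow two_ne_zero hl.one_lt
  obtain ⟨x, hx⟩ := exists_ne (0 : L1 l A)
  obtain ⟨y, hy⟩ : ∃ y : L1 l A, y ∉ Submodule.span (ZMod l) {x} := by
    by_contra hcon
    push Not at hcon
    have h1 : Submodule.span (ZMod l) {x} = ⊤ := Submodule.eq_top_iff'.2 hcon
    have h2 : Nat.card (L1 l A) ≤ l := by
      have h3 : Function.Surjective (fun a : ZMod l => a • x) := by
        intro z
        have h4 : z ∈ Submodule.span (ZMod l) {x} := by rw [h1]; trivial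
        exact Submodule.mem_span_singleton.1 h4
      calc Nat.card (L1 l A) ≤ Nat.card (ZMod l) := Nat.card_le_card_of_surjective _ h3
        _ = l := Nat.card_zmod l
    rw [hcard', pow_two] at h2
    have h3 := hl.two_le
    nlinarith
  obtain ⟨φ, hφy, hφ⟩ := Submodule.exists_le_ker_of_notMem hy
  have hφx : φ x = 0 := hφ (Submodule.mem_span_singleton_self x)
  let B : L1 l A →ₗ[ZMod l] L1 l A := φ.smulRight y
  obtain ⟨c, hc⟩ := h (fun P => if hP : l • P = 0 then inc1 l A (B (⟨P, hP⟩ : L1 l A)) else 0)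
    (fun P Q hP hQ => by
      have hPQ : l • (P + Q) = 0 := by rw [smul_add, hP, hQ, add_zero]
      rw [dif_pos hP, dif_pos hQ, dif_pos hPQ, ← map_add, ← map_add]
      rfl) (fun P hP => by
      rw [dif_pos hP]
      exact inc1_l _)
  have h1 : ∀ z : L1 l A, B z = ((∑ s ∈ c.support, c s * d s : ℤ) : ZMod l) • z := by
    intro z
    apply inc1_inj
    have h2 := hc (inc1 l A z) (inc1_l z)
    rw [dif_pos (inc1_l z)] at h2
    rw [Int.cast_smul_eq_zsmul, map_zsmul]
    refine (Eq.trans ?_ h2).trans ?_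
    · rfl
    · rw [Finset.sum_smul]
      refine Finset.sum_congr rfl fun s _ => ?_
      rw [hd s _ (inc1_l z), mul_smul]
  have h2 := h1 x
  have h3 : B x = 0 := by
    change φ x • y = 0
    rw [hφx, zero_smul]
  rw [h3] at h2
  have h4 : ((∑ s ∈ c.support, c s * d s : ℤ) : ZMod l) = 0 := (smul_eq_zero.1 h2.symm).resolve_right hx
  have h5 := h1 y
  rw [h4, zero_smul] at h5
  have h6 : φ y • y = 0 := h5
  rcases smul_eq_zero.1 h6 with h7 | h7
  · exact hφy h7
  · rw [h7] at hy
    exact hy (Submodule.zero_mem _)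

end lin

section tower

variable (k : Type) {K Ω : Type} [Field k] [Finite k] [Field K] [Algebra k K]
  [Algebra.EssFiniteType k K] [Field Ω] [Algebra K Ω] [Algebra k Ω] [IsScalarTower k K Ω]

open Height in
/-- Heights on the finite extensions. -/
theorem heights_ext (hK : Algebra.trdeg k K = 1) (L : IntermediateField K Ω)
    [FiniteDimensional K L] : ∃ _ : AdmissibleAbsValues L, Northcott (logHeight₁ (K := L)) := by
  have h1 : Algebra.EssFiniteType K L := inferInstance
  have h2 : Algebra.EssFiniteType k L := Algebra.EssFiniteType.comp k K L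
  have e := trdeg_add_eq k K (A := L)
  rw [hK, trdeg_eq_zero, add_zero] at e
  exact Pool.Agent.SmN.Fnl.exists_heights k L e.symm

end tower

section main

variable {k K Ω : Type} [Field k] [Finite k] [Field K] [Algebra k K]
  [Field Ω] [Algebra K Ω] [IsSepClosure K Ω] [Algebra k Ω] [IsScalarTower k K Ω] {l : ℕ}
  {W : WeierstrassCurve K}

open scoped Classical in
/-- **The theorem for elliptic curves.** -/
theorem main_E [Algebra.EssFiniteType k K] (hK : Algebra.trdeg k K = 1)
    (hk : ∀ x : K, IsIntegral k x → ∃ c : k, algebraMap k K c = x) (h6 : (6 : k) ≠ 0)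
    (hl : l.Prime) (hl2 : l ≠ 2) (hζ : ∃ ζ : K, IsPrimitiveRoot ζ l) [W.IsElliptic]
    (h1 : W.a₁ = 0) (ha2 : W.a₂ = 0) (h3 : W.a₃ = 0) (hW : BigE Ω l W) :
    (∀ n, (Cyc k Ω l n : Set (IntermediateField K Ω)).Finite) ∧
    (∃ c : ℝ, 0 < c ∧ ∃ n₀ : ℕ, ∀ n ≥ n₀, c * (n : ℝ) ^ (l - 2) * (Nat.card k : ℝ) ^ n ≤
      (Cyc k Ω l n : Set (IntermediateField K Ω)).ncard) ∧
    ∀ ε : ℝ, 0 < ε → ∃ n₀ : ℕ, ∀ n ≥ n₀,
      ({L ∈ (Cyc k Ω l n : Set (IntermediateField K Ω)) | ¬ EcGood k l W L}.ncard : ℝ) ≤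
        ε * (Cyc k Ω l n : Set (IntermediateField K Ω)).ncard := by
  have hpf : PerfectField k := inferInstance
  have hgal : IsGalois K Ω := inferInstance
  have hsc : IsSepClosed Ω := IsSepClosure.sep_closed K
  obtain ⟨alg, i1, i2, i3⟩ := exists_ratFunc k K hK
  obtain ⟨z, hz⟩ := hζ
  have h2 : (2 : k) ≠ 0 := by
    intro h0
    apply h6
    have : (6 : k) = 2 * 3 := by norm_num
    rw [this, h0, zero_mul]
  have hlk : (l : k) ≠ 0 := by
    intro h0
    have hl0 : NeZero l := ⟨hl.ne_zero⟩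
    have h3 : NeZero ((l : ℕ) : K) := hz.neZero'
    apply h3.out
    rw [← map_natCast (algebraMap k K), h0, map_zero]
  have hcast : ∀ {n : ℕ}, (n : k) ≠ 0 → (n : Ω) ≠ 0 := by
    intro n hn h0
    apply hn
    have hinj := ((algebraMap K Ω).comp (algebraMap k K)).injective
    apply hinj
    rw [map_natCast, h0, map_zero]
  have h2Ω : (2 : Ω) ≠ 0 := by
    have := hcast (n := 2) (by exact_mod_cast h2)
    exact_mod_cast this
  have hb1 : (W⁄Ω).a₁ = 0 := by
    change algebraMap K Ω W.a₁ = 0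
    rw [h1, map_zero]
  have hb3 : (W⁄Ω).a₃ = 0 := by
    change algebraMap K Ω W.a₃ = 0
    rw [h3, map_zero]
  have hE : (W⁄Ω).IsElliptic := inferInstanceAs (W.map (algebraMap K Ω)).IsElliptic
  let _ := actPts (Ω := Ω) W
  have hcard : Nat.card {P : Pts Ω W // l • P = 0} = l ^ 2 :=
    sep_card_tors (W⁄Ω) hb1 hb3 h2Ω (hl.odd_of_ne_two hl2) (hcast hlk)
  have hns := exists_nonscalar (A := Pts Ω W) hl hcard hW.span
  have hT : TOk k l (rh (Pts Ω W) : (Ω ≃ₐ[K] Ω) → _) :=
    tOk_E (k := k) (Ω := Ω) W h1 h3 h2 hl hl2 hlk (chebE W hk h1 h3 h2 hl hl2 hlk) hns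
  -- the characteristic
  have hp : ∃ p : ℕ, p.Prime ∧ CharP K p ∧ 5 ≤ p := by
    obtain ⟨p, hp⟩ := CharP.exists k
    have hpp : p.Prime := CharP.char_is_prime k p
    have hKp : CharP K p := charP_of_injective_algebraMap (algebraMap k K).injective p
    refine ⟨p, hpp, hKp, ?_⟩
    by_contra hcon
    have h5 : (p : k) = 0 := CharP.cast_eq_zero k p
    have h7 := hpp.two_le
    interval_cases p
    · exact h2 (by exact_mod_cast h5)
    · apply h6
      have h8 : (3 : k) = 0 := by exact_mod_cast h5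
      have : (6 : k) = 2 * 3 := by norm_num
      rw [this, h8, mul_zero]
    · exact absurd hpp (by norm_num)
  obtain ⟨p, hpp, hKp, hp5⟩ := hp
  have : Fact p.Prime := ⟨hpp⟩
  have hringChar : ringChar K = p := ringChar.eq K p
  have hpl : ¬ p ∣ l := by
    intro hd
    have h5 : p = l := (Nat.prime_dvd_prime_iff_eq hpp hl).1 hd
    apply hlk
    have h7 : (algebraMap k K) ((l : ℕ) : k) = 0 := by
      rw [map_natCast, ← h5]
      exact CharP.cast_eq_zero K p
    exact (map_eq_zero _).1 h7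
  have hbig : BigA K Ω l (Pts Ω W) :=
    { ne := by
        by_contra hcon
        push Not at hcon
        have h5 : Nat.card {P : Pts Ω W // l • P = 0} = 1 := by
          rw [Nat.card_eq_one_iff_unique]
          refine ⟨⟨fun x y => Subtype.ext ?_⟩, ⟨0, smul_zero l⟩⟩
          have h6 : ∀ x : {P : Pts Ω W // l • P = 0}, x.1 = 0 := fun x => by
            by_contra h7
            exact hcon x.1 h7 x.2
          rw [h6 x, h6 y]
        rw [hcard] at h5
        have := Nat.one_lt_pow two_ne_zero hl.one_lt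
        omega
      neg := hW.neg
      span := hW.span
      tame := by
        intro w hw s hs m hm P hP
        rw [hringChar] at hm
        exact tame_fix hp5 W h1 ha2 h3 hpl hs hm P hP }
  have hhK := Pool.Agent.SmN.Fnl.exists_heights k K hK
  exact main_ratFunc h2 hk hl hl2 ⟨z, hz⟩ hT hbig (fun L => EcGood k l W L)
    fun S chi m L h => by
      have := h.fd
      exact ec_of_one W hhK (heights_ext k hK L) ⟨S, incP l (Pts Ω W), h⟩

end main

end Pool.Agent.SmL.Fnl
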