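import Pool.Agent.Lib.SmL.Fnl.Mod
import Pool.Agent.Lib.SmN.Fin.GoodE

/-!
# SMITH-L, final layer: from the numbers of cocycles to the Selmer and Tate-Shafarevich groups
-/

set_option autoImplicit false

namespace Pool.Agent.SmL.Fnl

open Pool.Agent.BSDFF Pool.Agent.BSDFF.MW
open Pool.Agent.SmJ.L (GMod ZSel BSel Sel Rat card_zsel card_bsel mem_Rat)
open Pool.Agent.SmL.V

section tors

variable {A B : Type} [AddCommGroup A] [AddCommGroup B] {l : ℕ}

theorem finite_lPow_of_bdd {C : ℕ} (hf : ∀ i : ℕ, Finite (Gn A (l ^ i)))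
    (hC : ∀ i : ℕ, Nat.card (Gn A (l ^ i)) ≤ C) : Finite (lPow l A) := by
  by_contra hinf
  rw [not_finite_iff_infinite] at hinf
  obtain ⟨s, hs⟩ := Infinite.exists_subset_card_eq (lPow l A) (C + 1)
  choose e he using fun x : lPow l A => (x.2 : ∃ i : ℕ, l ^ i • (x : A) = 0)
  have hN : ∀ x ∈ s, l ^ (∑ y ∈ s, e y) • (x : A) = 0 := by
    intro x hxs
    have h1 : e x ≤ ∑ y ∈ s, e y := Finset.single_le_sum (fun _ _ => Nat.zero_le _) hxs
    obtain ⟨m, hm⟩ := Nat.exists_eq_add_of_le h1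
    rw [hm, pow_add, mul_comm, mul_smul, he x, smul_zero]
  have h3 : s.card ≤ Nat.card (Gn A (l ^ (∑ y ∈ s, e y))) := by
    have := hf (∑ y ∈ s, e y)
    rw [← Nat.card_eq_finsetCard s]
    refine Nat.card_le_card_of_injective
      (fun x : {x // x ∈ s} => (⟨((x : lPow l A) : A), hN x.1 x.2⟩ :
        Gn A (l ^ (∑ y ∈ s, e y)))) ?_
    intro x y hxy
    apply Subtype.ext
    apply Subtype.ext
    exact congrArg (fun z : Gn A (l ^ (∑ y ∈ s, e y)) => (z : A)) hxy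
  have := hC (∑ y ∈ s, e y)
  omega

theorem card_le_lPow [Finite (lPow l A)] (i : ℕ) :
    Nat.card (Gn A (l ^ i)) ≤ Nat.card (lPow l A) := by
  refine Nat.card_le_card_of_injective (fun x : Gn A (l ^ i) => (⟨x.1, i, mem_Gn.1 x.2⟩ :
    lPow l A)) fun x y hxy => ?_
  exact Subtype.ext (congrArg (fun z : lPow l A => (z : A)) hxy)

/-- Two groups with torsion subgroups of the same size up to a constant. -/
theorem lPow_iff {C : ℕ} (hA : ∀ i : ℕ, Finite (Gn A (l ^ i))) (hB : ∀ i : ℕ, Finite (Gn B (l ^ i)))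
    (h1 : ∀ i : ℕ, Nat.card (Gn A (l ^ i)) ≤ Nat.card (Gn B (l ^ i)))
    (h2 : ∀ i : ℕ, Nat.card (Gn B (l ^ i)) ≤ C * Nat.card (Gn A (l ^ i))) :
    Finite (lPow l B) ↔ Finite (lPow l A) := by
  constructor
  · intro h
    exact finite_lPow_of_bdd hA fun i => (h1 i).trans (card_le_lPow i)
  · intro h
    exact finite_lPow_of_bdd hB fun i => (h2 i).trans (Nat.mul_le_mul_left _ (card_le_lPow i))

end tors

section sel

variable {k K Ω : Type} [Field k] [Field K] [Field Ω] [Algebra k K] [Algebra K Ω]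
variable {M : Type} [AddCommGroup M] {ρ : (Ω ≃ₐ[K] Ω) → M →+ M}

theorem zsel_mul (h : GMod ρ) {n : ℕ} (hR : ∀ P : M, n • P = 0 → (∀ s, ρ s P = P) → P = 0) :
    Nat.card (ZSel k ρ n) = Nat.card (Sel k ρ n) * Nat.card (Gn M n) := by
  have h1 : Nat.card (Gn (Rat ρ) n) = 1 := by
    rw [Nat.card_eq_one_iff_unique]
    refine ⟨⟨fun x y => ?_⟩, ⟨0⟩⟩
    have h2 : ∀ x : Gn (Rat ρ) n, x = 0 := fun x => by
      apply Subtype.ext
      apply Subtype.ext
      exact hR _ (congrArg Subtype.val (mem_Gn.1 x.2)) x.1.2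
    rw [h2 x, h2 y]
  rw [card_zsel h n, card_bsel (ρ := ρ) n, h1, one_mul]

/-- Comparison of the Selmer groups. -/
theorem sel_compare {L : Type} [Field L] [Algebra k L] [Algebra L Ω]
    {ρ' : (Ω ≃ₐ[L] Ω) → M →+ M} (h : GMod ρ) (h' : GMod ρ') {n C : ℕ}
    (hR : ∀ P : M, n • P = 0 → (∀ s, ρ s P = P) → P = 0)
    (hR' : ∀ P : M, n • P = 0 → (∀ s, ρ' s P = P) → P = 0) (hM : Finite (Gn M n))
    (h1 : Finite (ZSel k ρ n)) (h2 : Finite (ZSel k ρ' n))
    (h3 : Nat.card (ZSel k ρ n) ≤ Nat.card (ZSel k ρ' n))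
    (h4 : Nat.card (ZSel k ρ' n) ≤ C * Nat.card (ZSel k ρ n)) :
    Finite (Sel k ρ n) ∧ Finite (Sel k ρ' n) ∧ Nat.card (Sel k ρ n) ≤ Nat.card (Sel k ρ' n) ∧
      Nat.card (Sel k ρ' n) ≤ C * Nat.card (Sel k ρ n) := by
  have h5 : 0 < Nat.card (Gn M n) := Nat.card_pos
  rw [zsel_mul h hR, zsel_mul h' hR'] at h3 h4
  refine ⟨Quotient.finite _, Quotient.finite _, Nat.le_of_mul_le_mul_right h3 h5, ?_⟩
  rw [← mul_assoc] at h4
  exact Nat.le_of_mul_le_mul_right h4 h5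

end sel

end Pool.Agent.SmL.Fnl
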